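import Pool.Agent.P8H46.BS.Stm

set_option autoImplicit false

namespace Pool.Agent.P8H46.BS

open Finset

/-- no nontrivial corner -/
def CF {n : ℕ} (A : Finset (V n × V n)) : Prop :=
  ∀ x y z : V n, (x, y) ∈ A → (x, y + z) ∈ A → (x + z, y) ∈ A → z = 0

variable {n J : ℕ}

/-- `Y` halves all the fibres of `a` outside `F` -/
def Hv {α : Type} [DecidableEq α] (F Y : Finset (Fin n)) (a : Fin n → α) : Prop :=
  ∀ c, 2 * (Y.filter (fun i => a i = c)).card =
    ((univ.filter (fun i => i ∉ F)).filter (fun i => a i = c)).card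

lemma half_a {F Y : Finset (Fin n)} (hY : Y ⊆ univ.filter (fun i => i ∉ F)) (lam : Fin n → Fin J)
    (δ : Fin n → Bool) (h : Hv F Y (fun i => (lam i, δ i))) (v o y : V n)
    (h1 : ∀ i ∈ F, y i = v i) (h2 : ∀ i, i ∉ F → (y i ≠ o i ↔ i ∈ Y)) : Half F v o lam y := by
  classical
  refine ⟨h1, fun j => ?_⟩
  have e1 : univ.filter (fun i => i ∉ F ∧ lam i = j ∧ y i ≠ o i) =
      (Y.filter (fun i => (lam i, δ i) = (j, true))) ∪ (Y.filter (fun i => (lam i, δ i) = (j, false))) := by
    ext i
    simp only [mem_filter, mem_univ, true_and, mem_union, Prod.mk.injEq]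
    constructor
    · rintro ⟨a1, a2, a3⟩
      have := (h2 i a1).1 a3
      cases hδ : δ i <;> simp [this, a2]
    · intro hh
      have hi : i ∈ Y := by tauto
      have hF : i ∉ F := (mem_filter.1 (hY hi)).2
      refine ⟨hF, by tauto, (h2 i hF).2 hi⟩
  have e2 : univ.filter (fun i => i ∉ F ∧ lam i = j) =
      ((univ.filter (fun i => i ∉ F)).filter (fun i => (lam i, δ i) = (j, true))) ∪
      ((univ.filter (fun i => i ∉ F)).filter (fun i => (lam i, δ i) = (j, false))) := by
    ext i
    simp only [mem_filter, mem_univ, true_and, mem_union, Prod.mk.injEq]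
    cases δ i <;> simp
  rw [e1, e2, card_union_of_disjoint, card_union_of_disjoint]
  · have t1 := h (j, true)
    have t2 := h (j, false)
    beta_reduce at t1 t2
    omega
  · rw [disjoint_left]
    intro i hi hi'
    have a1 := (mem_filter.1 hi).2
    have a2 := (mem_filter.1 hi').2
    rw [a1] at a2
    simp at a2
  · rw [disjoint_left]
    intro i hi hi'
    have a1 := (mem_filter.1 hi).2
    have a2 := (mem_filter.1 hi').2
    rw [a1] at a2
    simp at a2

lemma half_b {F Y : Finset (Fin n)} (hY : Y ⊆ univ.filter (fun i => i ∉ F)) (lam : Fin n → Fin J)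
    (δ : Fin n → Bool) (h : Hv F Y (fun i => (lam i, δ i))) (v o y : V n)
    (h1 : ∀ i ∈ F, y i = v i) (h2 : ∀ i, i ∉ F → (y i ≠ o i ↔ (i ∈ Y ↔ δ i = false))) :
    Half F v o lam y := by
  classical
  refine ⟨h1, fun j => ?_⟩
  have e1 : univ.filter (fun i => i ∉ F ∧ lam i = j ∧ y i ≠ o i) =
      (((univ.filter (fun i => i ∉ F)).filter (fun i => (lam i, δ i) = (j, true))) \
        (Y.filter (fun i => (lam i, δ i) = (j, true)))) ∪
        (Y.filter (fun i => (lam i, δ i) = (j, false))) := by
    ext i
    simp only [mem_filter, mem_univ, true_and, mem_union, Prod.mk.injEq, mem_sdiff]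
    constructor
    · rintro ⟨a1, a2, a3⟩
      have h3 := (h2 i a1).1 a3
      cases hδ : δ i
      · right
        exact ⟨h3.2 hδ, a2, rfl⟩
      · left
        refine ⟨⟨a1, a2, rfl⟩, fun h4 => ?_⟩
        have := h3.1 h4.1
        rw [hδ] at this
        exact absurd this (by decide)
    · rintro (⟨⟨a1, a2, a3⟩, a4⟩ | ⟨a1, a2, a3⟩)
      · refine ⟨a1, a2, (h2 i a1).2 ⟨fun h5 => absurd ⟨h5, a2, a3⟩ a4, fun h5 => ?_⟩⟩
        rw [a3] at h5
        exact absurd h5 (by decide)
      · have hF : i ∉ F := (mem_filter.1 (hY a1)).2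
        exact ⟨hF, a2, (h2 i hF).2 ⟨fun _ => a3, fun _ => a1⟩⟩
  have e2 : univ.filter (fun i => i ∉ F ∧ lam i = j) =
      ((univ.filter (fun i => i ∉ F)).filter (fun i => (lam i, δ i) = (j, true))) ∪
      ((univ.filter (fun i => i ∉ F)).filter (fun i => (lam i, δ i) = (j, false))) := by
    ext i
    simp only [mem_filter, mem_univ, true_and, mem_union, Prod.mk.injEq]
    cases δ i <;> simp
  rw [e1, e2, card_union_of_disjoint, card_union_of_disjoint, card_sdiff_of_subset]
  · have t1 := h (j, true)
    have t2 := h (j, false)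
    beta_reduce at t1 t2
    omega
  · exact filter_subset_filter _ hY
  · rw [disjoint_left]
    intro i hi hi'
    have a1 := (mem_filter.1 hi).2
    have a2 := (mem_filter.1 hi').2
    rw [a1] at a2
    simp at a2
  · rw [disjoint_left]
    intro i hi hi'
    have a1 := (mem_filter.1 (mem_sdiff.1 hi).1).2
    have a2 := (mem_filter.1 hi').2
    rw [a1] at a2
    simp at a2

lemma zmod2_cases (a : ZMod 2) : a = 0 ∨ a = 1 := by
  fin_cases a
  · left; rfl
  · right; rfl

lemma add_ne_zero_iff (a b : ZMod 2) : a + b = if a ≠ b then 1 else 0 := by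
  rcases zmod2_cases a with h | h <;> rcases zmod2_cases b with h' | h' <;> subst h <;> subst h' <;> decide

/-- parity of a sum of `x i + x' i` -/
lemma even_of_sum (S : Finset (Fin n)) (x x' : V n) (h : ∑ i ∈ S, (x i + x' i) = 0) :
    Even (S.filter (fun i => x i ≠ x' i)).card := by
  have e : ∑ i ∈ S, (x i + x' i) = ((S.filter (fun i => x i ≠ x' i)).card : ZMod 2) := by
    rw [card_filter]
    push_cast
    exact sum_congr rfl fun i _ => add_ne_zero_iff _ _
  rw [e] at h
  have := (ZMod.natCast_eq_zero_iff _ 2).1 h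
  exact even_iff_two_dvd.2 this

lemma fibres_even (F : Finset (Fin n)) (lam : Fin n → Fin J)
    (he : ∀ j, Even (univ.filter (fun i => i ∉ F ∧ lam i = j)).card) (x x' : V n)
    (h : ∀ j, ∑ i ∈ univ.filter (fun i => i ∉ F ∧ lam i = j), (x i + x' i) = 0) (c : Fin J × Bool) :
    Even ((univ.filter (fun i => i ∉ F)).filter
      (fun i => (lam i, decide (x i ≠ x' i)) = c)).card := by
  obtain ⟨j, t⟩ := c
  have h1 := even_of_sum _ x x' (h j)
  have h2 := he j
  have h3 := card_filter_add_card_filter_not (s := univ.filter (fun i => i ∉ F ∧ lam i = j))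
    (fun i => x i ≠ x' i)
  cases t with
  | true =>
    have e : (univ.filter (fun i => i ∉ F)).filter
        (fun i => (lam i, decide (x i ≠ x' i)) = (j, true)) =
        (univ.filter (fun i => i ∉ F ∧ lam i = j)).filter (fun i => x i ≠ x' i) := by
      ext i
      simp only [mem_filter, mem_univ, true_and, Prod.mk.injEq, decide_eq_true_eq]
      tauto
    rw [e]
    exact h1
  | false =>
    have e : (univ.filter (fun i => i ∉ F)).filter
        (fun i => (lam i, decide (x i ≠ x' i)) = (j, false)) =
        (univ.filter (fun i => i ∉ F ∧ lam i = j)).filter (fun i => ¬ x i ≠ x' i) := by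
      ext i
      simp only [mem_filter, mem_univ, true_and, Prod.mk.injEq, decide_eq_false_iff_not]
      tauto
    rw [e]
    rw [Nat.even_iff] at h1 h2 ⊢
    omega

lemma ne_add_one (a b : ZMod 2) : a + 1 ≠ b ↔ a = b := by
  rcases zmod2_cases a with h | h <;> rcases zmod2_cases b with h' | h' <;> subst h <;> subst h' <;> decide

lemma zmod2_eq_of_ne {a b c : ZMod 2} (h1 : a ≠ b) (h2 : a ≠ c) : b = c := by
  rcases zmod2_cases a with h | h <;> rcases zmod2_cases b with h' | h' <;>
    rcases zmod2_cases c with h'' | h'' <;> subst h <;> subst h' <;> subst h'' <;> simp_all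

/-- two rows of one class -/
lemma no_pair (hsplit : S_SPLIT) {A : Finset (V n × V n)} (hA : CF A) (F : Finset (Fin n))
    (v v' o o' x x' : V n) (lam lam' : Fin n → Fin J) (hv : ∀ i ∈ F, v i = v' i)
    (hx : ∀ i ∈ F, x i = x' i)
    (he : ∀ j, Even (univ.filter (fun i => i ∉ F ∧ lam i = j)).card)
    (he' : ∀ j, Even (univ.filter (fun i => i ∉ F ∧ lam' i = j)).card)
    (h : ∀ y, Half F v o lam y → (x, y) ∈ A) (h' : ∀ y, Half F v' o' lam' y → (x', y) ∈ A)
    (hz : ∀ j, ∑ i ∈ univ.filter (fun i => i ∉ F ∧ lam i = j), (x i + x' i) = 0)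
    (hD : ∀ j, ∑ i ∈ univ.filter (fun i => i ∉ F ∧ lam' i = j), (o i + o' i) = 0) : x = x' := by
  classical
  obtain ⟨Y, hY, h1, h2⟩ := hsplit (Fin n) (Fin J × Bool) (Fin J × Bool)
    (univ.filter (fun i => i ∉ F)) (fun i => (lam i, decide (x i ≠ x' i)))
    (fun i => (lam' i, decide (o i ≠ o' i))) (fibres_even F lam he x x' hz)
    (fibres_even F lam' he' o o' hD)
  set y : V n := fun i => if i ∈ F then v i else if i ∈ Y then o i + 1 else o i with hy
  have hyF : ∀ i ∈ F, y i = v i := fun i hi => by simp [hy, hi]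
  have hyo : ∀ i, i ∉ F → (y i ≠ o i ↔ i ∈ Y) := by
    intro i hi
    by_cases hiY : i ∈ Y
    · simp [hy, hi, hiY]
    · simp [hy, hi, hiY]
  have c1 : (x, y) ∈ A := h y (half_a hY lam _ h1 v o y hyF hyo)
  have c2 : (x, y + (x + x')) ∈ A := by
    refine h _ (half_b hY lam _ h1 v o _ (fun i hi => ?_) fun i hi => ?_)
    · rw [Pi.add_apply, Pi.add_apply, hyF i hi, hx i hi, CharTwo.add_self_eq_zero, add_zero]
    · rw [Pi.add_apply, Pi.add_apply, add_ne_zero_iff (x i) (x' i)]
      by_cases hxx : x i = x' i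
      · rw [if_neg (not_not.2 hxx), add_zero, decide_eq_false (not_not.2 hxx), eq_self, iff_true]
        exact hyo i hi
      · rw [if_pos hxx, decide_eq_true hxx, Bool.true_eq_false, iff_false, ne_add_one, ← hyo i hi,
          not_not]
  have c3 : (x + (x + x'), y) ∈ A := by
    have e : x + (x + x') = x' := by
      funext i
      rw [Pi.add_apply, Pi.add_apply, ← add_assoc, CharTwo.add_self_eq_zero, zero_add]
    rw [e]
    refine h' y (half_b hY lam' _ h2 v' o' _ (fun i hi => (hyF i hi).trans (hv i hi)) fun i hi => ?_)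
    by_cases hoo : o i = o' i
    · simp only [hoo, ne_eq, not_true_eq_false, decide_false, iff_true]
      rw [← hyo i hi, hoo]
    · simp only [ne_eq, hoo, not_false_eq_true, decide_true, Bool.true_eq_false, iff_false]
      rw [← hyo i hi, not_not]
      constructor
      · intro h3
        by_contra h4
        exact hoo (zmod2_eq_of_ne h4 h3)
      · intro h3 h4
        exact hoo (h3.symm.trans h4)
  have h0 := hA x y (x + x') c1 c2 c3
  funext i
  have := congrFun h0 i
  rw [Pi.add_apply, Pi.zero_apply] at this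
  exact CharTwo.add_eq_zero.1 this

/-- the number of rows which contain an exact half slice with `J` blocks and `f` fixed coordinates -/
theorem cls (hsplit : S_SPLIT) (hrank : S_RANK) {f : ℕ} (A : Finset (V n × V n)) (hA : CF A)
    (X : Finset (V n))
    (hX : ∀ x ∈ X, ∃ (F : Finset (Fin n)) (v o : V n) (lam : Fin n → Fin J), F.card = f ∧
      (∀ j, Even (univ.filter (fun i => i ∉ F ∧ lam i = j)).card) ∧
      ∀ y, Half F v o lam y → (x, y) ∈ A) :
    X.card ≤ n.choose f * 4 ^ f * (∑ i ∈ range (J + 1), n.choose i) ^ 2 := by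
  classical
  rcases Nat.eq_zero_or_pos J with hJ | hJ
  · subst hJ
    rcases X.eq_empty_or_nonempty with h0 | ⟨x, hx⟩
    · simp [h0]
    obtain ⟨F, v, o, lam, hF, -, -⟩ := hX x hx
    rcases Nat.eq_zero_or_pos n with hn | hn
    · subst hn
      have : F = ∅ := by
        ext i
        exact i.elim0
      subst this
      rw [card_empty] at hF
      subst hF
      have h1 : X.card ≤ 1 := by
        rw [card_le_one]
        intro a _ b _
        exact Subsingleton.elim _ _
      simpa using h1
    · exact (lam ⟨0, hn⟩).elim0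
  have : Nonempty (Fin J) := ⟨⟨0, hJ⟩⟩
  choose! F v o lam hF he hH using hX
  set κ : V n → Finset (Fin n) × (Finset (Fin n) × Finset (Fin n)) := fun x =>
    (F x, ((F x).filter (fun i => v x i = 1), (F x).filter (fun i => x i = 1))) with hκ
  have hfib : ∀ k ∈ X.image κ, (X.filter (fun x => κ x = k)).card ≤
      (∑ i ∈ range (J + 1), n.choose i) ^ 2 := by
    intro k _
    refine hrank n J _ o (fun x j => univ.filter (fun i => i ∉ F x ∧ lam x i = j)) ?_
    intro x hx x' hx' hne
    rw [mem_filter] at hx hx'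
    by_contra hcon
    push Not at hcon
    obtain ⟨hz, hD⟩ := hcon
    have hk : κ x = κ x' := hx.2.trans hx'.2.symm
    have hFF : F x = F x' := congrArg Prod.fst hk
    have h1 : (F x).filter (fun i => v x i = 1) = (F x').filter (fun i => v x' i = 1) :=
      congrArg (fun q => q.2.1) hk
    have h2 : (F x).filter (fun i => x i = 1) = (F x').filter (fun i => x' i = 1) :=
      congrArg (fun q => q.2.2) hk
    have key : ∀ (a b : V n), (F x).filter (fun i => a i = 1) = (F x').filter (fun i => b i = 1) →
        ∀ i ∈ F x, a i = b i := by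
      intro a b hab i hi
      have h3 : i ∈ (F x).filter (fun i => a i = 1) ↔ i ∈ (F x').filter (fun i => b i = 1) := by
        rw [hab]
      rw [mem_filter, mem_filter, ← hFF] at h3
      rcases zmod2_cases (a i) with h4 | h4 <;> rcases zmod2_cases (b i) with h5 | h5
      · rw [h4, h5]
      · exact absurd (h3.2 ⟨hi, h5⟩).2 (by rw [h4]; decide)
      · exact absurd (h3.1 ⟨hi, h4⟩).2 (by rw [h5]; decide)
      · rw [h4, h5]
    refine hne (no_pair hsplit hA (F x) (v x) (v x') (o x) (o x') x x' (lam x) (lam x')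
      (key _ _ h1) (key _ _ h2) (he x hx.1) ?_ (hH x hx.1) ?_ hz ?_)
    · rw [hFF]
      exact he x' hx'.1
    · rw [hFF]
      exact hH x' hx'.1
    · rw [hFF]
      exact hD
  have h1 := card_le_mul_card_image (f := κ) X _ hfib
  have h2 : (X.image κ).card ≤ n.choose f * 4 ^ f := by
    have hsub : X.image κ ⊆ (powersetCard f (univ : Finset (Fin n))).biUnion
        (fun F => ({F} : Finset (Finset (Fin n))) ×ˢ (F.powerset ×ˢ F.powerset)) := by
      intro k hk
      rw [mem_image] at hk
      obtain ⟨x, hx, rfl⟩ := hk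
      rw [mem_biUnion]
      refine ⟨F x, ?_, ?_⟩
      · rw [mem_powersetCard]
        exact ⟨subset_univ _, hF x hx⟩
      · simp only [hκ, mem_product, mem_singleton, mem_powerset, true_and]
        exact ⟨filter_subset _ _, filter_subset _ _⟩
    refine (card_le_card hsub).trans ((card_biUnion_le_card_mul _ _ (4 ^ f) ?_).trans ?_)
    · intro G hG
      rw [mem_powersetCard] at hG
      rw [card_product, card_singleton, one_mul, card_product, card_powerset, hG.2, ← mul_pow]
      norm_num
    · rw [card_powersetCard, card_univ, Fintype.card_fin]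
  calc X.card ≤ (∑ i ∈ range (J + 1), n.choose i) ^ 2 * (X.image κ).card := h1
    _ ≤ (∑ i ∈ range (J + 1), n.choose i) ^ 2 * (n.choose f * 4 ^ f) := Nat.mul_le_mul_left _ h2
    _ = _ := by ring

end Pool.Agent.P8H46.BS
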