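import Pool.Agent.P8H46.BS.Low

set_option autoImplicit false

namespace Pool.Agent.P8H46.BS

open Finset

variable {n : ℕ}

/-- `X` with the centres `o` is a packing for the radius `t`: two pairs `(x, o x)` never have all
three distances at most `2 t` -/
def Pack (t : ℕ) (X : Finset (V n)) (o : V n → V n) : Prop :=
  ∀ x ∈ X, ∀ x' ∈ X, x ≠ x' → ¬ (wt univ x x' ≤ 2 * t ∧ wt univ (o x) (o x') ≤ 2 * t ∧
    wt univ (x + o x) (x' + o x') ≤ 2 * t)

/-- the number of rows with a sphere of radius `t` is at most four times the packing number -/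
theorem code_upper (hEQ : S_EQ) {A : Finset (V n × V n)} (hA : CF A) (t M : ℕ) (ht : 2 * t ≤ n)
    (hM : ∀ (X : Finset (V n)) (o : V n → V n), Pack t X o → X.card ≤ M) :
    (Xr A t).card ≤ 4 * M := by
  classical
  have hX : ∀ x ∈ Xr A t, ∃ o : V n, ∀ y, wt univ y o = t → (x, y) ∈ A :=
    fun x hx => (mem_Xr A t x).1 hx
  choose! o hS using hX
  have h := classes 0 M (Xr A t) (fun _ => ∅) (fun _ => 0) o (fun _ _ => rfl) ?_
  · rw [Nat.choose_zero_right, pow_zero] at h
    simpa using h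
  · intro S hSX hcl
    refine hM S o ?_
    rintro x hx x' hx' hne ⟨g1, g2, g3⟩
    obtain ⟨-, -, -, f4, f5⟩ := hcl x hx x' hx'
    have e : univ.filter (fun i : Fin n => i ∉ (∅ : Finset (Fin n))) = univ := by
      ext i
      simp
    rw [e] at f4 f5
    have hUc : (univ : Finset (Fin n)).card = n := by simp
    refine hne (sphere_pair hEQ hA ∅ 0 0 (o x) (o x') x x' t (fun i hi => by simp at hi)
      (fun i hi => by simp at hi) univ (fun i => by simp) (fun y _ hy => hS x (hSX hx) y hy)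
      (fun y _ hy => hS x' (hSX hx') y hy) f4 f5 g1 g2 g3 ?_ ?_ ?_) <;> rw [hUc] <;> omega

/-- upper bound by packing numbers -/
theorem code_main (hEQ : S_EQ) (T : ℕ) (A : Finset (V n × V n)) (hA : CF A)
    (P : V n → Fin T → Set (V n))
    (hP : ∀ x t, ∃ o : V n, ∀ y y', wt univ y o = wt univ y' o → (y ∈ P x t ↔ y' ∈ P x t))
    (h : ∀ x y, (x, y) ∈ A ↔ ∃ t, y ∈ P x t) (M : ℕ → ℕ)
    (hM : ∀ t, 2 * t ≤ n → ∀ (X : Finset (V n)) (o : V n → V n), Pack t X o → X.card ≤ M t) :
    A.card ≤ 8 * T * ∑ t ∈ (range (n + 1)).filter (fun t => 2 * t ≤ n), M t * n.choose t := by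
  classical
  have h0 := row_le A P hP h
  have h1 := half_range A
  have h2 : ∑ r ∈ (range (n + 1)).filter (fun r => 2 * r ≤ n), fr A r ≤
      ∑ r ∈ (range (n + 1)).filter (fun r => 2 * r ≤ n), (4 : ℝ) * ((M r : ℝ) * (n.choose r : ℝ)) := by
    refine sum_le_sum fun r hr => ?_
    rw [mem_filter] at hr
    have h3 := code_upper hEQ hA r (M r) hr.2 (hM r hr.2)
    have h4 : ((Xr A r).card : ℝ) ≤ 4 * (M r : ℝ) := by exact_mod_cast h3
    unfold fr
    calc ((Xr A r).card : ℝ) * (n.choose r : ℝ) ≤ (4 * (M r : ℝ)) * (n.choose r : ℝ) :=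
          mul_le_mul_of_nonneg_right h4 (by positivity)
      _ = _ := by ring
  have h5 : (A.card : ℝ) ≤ 8 * T * ∑ t ∈ (range (n + 1)).filter (fun t => 2 * t ≤ n),
      ((M t : ℝ) * (n.choose t : ℝ)) := by
    calc (A.card : ℝ) ≤ T * ∑ r ∈ range (n + 1), fr A r := h0
      _ ≤ T * (2 * ∑ r ∈ (range (n + 1)).filter (fun r => 2 * r ≤ n), fr A r) :=
          mul_le_mul_of_nonneg_left h1 (by positivity)
      _ ≤ T * (2 * ∑ r ∈ (range (n + 1)).filter (fun r => 2 * r ≤ n),
            (4 : ℝ) * ((M r : ℝ) * (n.choose r : ℝ))) :=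
          mul_le_mul_of_nonneg_left (mul_le_mul_of_nonneg_left h2 (by norm_num)) (by positivity)
      _ = _ := by
          rw [← mul_sum]
          ring
  exact_mod_cast h5

/-- balls around a packing -/
theorem code_lower (t : ℕ) (X : Finset (V n)) (o : V n → V n) (h : Pack t X o) :
    CF (ballSet X o t) ∧ X.card * ∑ i ∈ range (t + 1), n.choose i ≤ (ballSet X o t).card := by
  classical
  refine ⟨ballSet_cf X o t h, ?_⟩
  have h1 : ((ballSet X o t).card : ℝ) = _ := card_rows (ballSet X o t)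
  have h2 : ∀ x ∈ X, ∑ i ∈ range (t + 1), n.choose i ≤
      (univ.filter (fun y => (x, y) ∈ ballSet X o t)).card := by
    intro x hx
    have e : ∀ i ∈ range (t + 1), n.choose i =
        (univ.filter (fun y : V n => wt univ y (o x) = i)).card := fun i _ => (card_sphere (o x) i).symm
    rw [sum_congr rfl e, ← card_biUnion]
    · refine card_le_card fun y hy => ?_
      rw [mem_biUnion] at hy
      obtain ⟨i, hi, hy⟩ := hy
      rw [mem_filter] at hy ⊢
      refine ⟨mem_univ _, ?_⟩
      rw [mem_ballSet]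
      rw [mem_range] at hi
      exact ⟨hx, by omega⟩
    · intro i _ j _ hij
      simp only [Function.onFun]
      rw [disjoint_left]
      intro y hy hy'
      exact hij ((mem_filter.1 hy).2.symm.trans (mem_filter.1 hy').2)
  have h3 : ((X.card * ∑ i ∈ range (t + 1), n.choose i : ℕ) : ℝ) ≤ ((ballSet X o t).card : ℝ) := by
    rw [h1]
    have h4 : X.card * ∑ i ∈ range (t + 1), n.choose i ≤
        ∑ x, (univ.filter (fun y => (x, y) ∈ ballSet X o t)).card := by
      calc X.card * ∑ i ∈ range (t + 1), n.choose i = ∑ _x ∈ X, ∑ i ∈ range (t + 1), n.choose i := by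
            rw [sum_const, smul_eq_mul]
        _ ≤ ∑ x ∈ X, (univ.filter (fun y => (x, y) ∈ ballSet X o t)).card := sum_le_sum h2
        _ ≤ _ := sum_le_sum_of_subset (subset_univ _)
    exact_mod_cast h4
  exact_mod_cast h3

end Pool.Agent.P8H46.BS
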