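import Pool.Agent.P8H46.BS.Stm2

/-!
# Package EQ: a point of the cube equidistant from three points (written by helper76)
-/

set_option autoImplicit false

namespace Pool.Agent.P8H46.BS

open Finset

section

variable {n : ℕ}

/-- the cell of a coordinate -/
def cell (z D : V n) (i : Fin n) : Bool × Bool := (decide (z i ≠ 0), decide (D i ≠ 0))

/-- the number of the elements of a cell -/
def cN (W : Finset (Fin n)) (z D : V n) (b : Bool × Bool) : ℕ := (W.filter (fun i => cell z D i = b)).card

lemma eq_one_of_ne_zero' {a : ZMod 2} (h : a ≠ 0) : a = 1 := by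
  fin_cases a
  · exact absurd rfl h
  · rfl

lemma cells_z (W : Finset (Fin n)) (z D : V n) :
    (W.filter (fun i => z i ≠ 0)).card = cN W z D (true, true) + cN W z D (true, false) := by
  unfold cN
  simp only [Finset.card_filter]
  rw [← Finset.sum_add_distrib]
  refine Finset.sum_congr rfl fun i _ => ?_
  by_cases h1 : z i = 0 <;> by_cases h2 : D i = 0 <;> simp [cell, h1, h2]

lemma cells_D (W : Finset (Fin n)) (z D : V n) :
    (W.filter (fun i => D i ≠ 0)).card = cN W z D (true, true) + cN W z D (false, true) := by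
  unfold cN
  simp only [Finset.card_filter]
  rw [← Finset.sum_add_distrib]
  refine Finset.sum_congr rfl fun i _ => ?_
  by_cases h1 : z i = 0 <;> by_cases h2 : D i = 0 <;> simp [cell, h1, h2]

lemma cells_zD (W : Finset (Fin n)) (z D : V n) :
    (W.filter (fun i => z i ≠ D i)).card = cN W z D (true, false) + cN W z D (false, true) := by
  unfold cN
  simp only [Finset.card_filter]
  rw [← Finset.sum_add_distrib]
  refine Finset.sum_congr rfl fun i _ => ?_
  by_cases h1 : z i = 0
  · by_cases h2 : D i = 0
    · simp [cell, h1, h2]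
    · have h3 : (0 : ZMod 2) ≠ D i := fun h => h2 h.symm
      simp [cell, h1, h2, h3]
  · by_cases h2 : D i = 0
    · simp [cell, h1, h2]
    · have h3 := eq_one_of_ne_zero' h1
      have h4 := eq_one_of_ne_zero' h2
      simp [cell, h3, h4]

lemma cells_all (W : Finset (Fin n)) (z D : V n) :
    W.card = cN W z D (true, true) + cN W z D (true, false) + cN W z D (false, true) + cN W z D (false, false) := by
  unfold cN
  simp only [Finset.card_filter]
  rw [← Finset.sum_add_distrib, ← Finset.sum_add_distrib, ← Finset.sum_add_distrib, Finset.card_eq_sum_ones]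
  refine Finset.sum_congr rfl fun i _ => ?_
  by_cases h1 : z i = 0 <;> by_cases h2 : D i = 0 <;> simp [cell, h1, h2]

lemma exists_cells (U : Finset (Fin n)) (z D : V n) (a : Bool × Bool → ℕ) (h : ∀ b, a b ≤ cN U z D b) :
    ∃ Y ⊆ U, ∀ b, cN Y z D b = a b := by
  have h1 : ∀ b, ∃ Yb ⊆ U.filter (fun i => cell z D i = b), Yb.card = a b := fun b =>
    Finset.exists_subset_card_eq (h b)
  choose Yb hYb hc using h1
  refine ⟨Finset.univ.biUnion Yb, ?_, fun b => ?_⟩
  · intro i hi
    obtain ⟨b, -, hb⟩ := Finset.mem_biUnion.1 hi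
    exact (Finset.mem_filter.1 (hYb b hb)).1
  · unfold cN
    rw [← hc b]
    congr 1
    ext i
    simp only [Finset.mem_filter, Finset.mem_biUnion, Finset.mem_univ, true_and]
    constructor
    · rintro ⟨⟨b', hb'⟩, hb⟩
      have h2 := (Finset.mem_filter.1 (hYb b' hb')).2
      rw [← hb, h2]
      exact hb'
    · intro hb
      exact ⟨⟨b, hb⟩, (Finset.mem_filter.1 (hYb b hb)).2⟩

end

/-- Package EQ -/
theorem eq : S_EQ := by
  intro n U z D t e1 e2 i1 i2 i3 i4 i5 i6
  have w1 : wt U z 0 = (U.filter (fun i => z i ≠ 0)).card := rfl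
  have w2 : wt U D 0 = (U.filter (fun i => D i ≠ 0)).card := rfl
  have w3 : wt U z D = (U.filter (fun i => z i ≠ D i)).card := rfl
  rw [cells_z U z D] at w1
  rw [cells_D U z D] at w2
  rw [cells_zD U z D] at w3
  have w4 := cells_all U z D
  generalize hn11 : cN U z D (true, true) = n11 at *
  generalize hn10 : cN U z D (true, false) = n10 at *
  generalize hn01 : cN U z D (false, true) = n01 at *
  generalize hn00 : cN U z D (false, false) = n00 at *
  obtain ⟨p, hp⟩ := e1
  obtain ⟨q, hq⟩ := e2
  obtain ⟨k, hk⟩ : ∃ k : ℕ, k = max (max 0 (p - n10)) (max (q - n01) (p + q - t)) := ⟨_, rfl⟩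
  have k1 : k ≤ n11 ∧ k ≤ p ∧ k ≤ q ∧ p - k ≤ n10 ∧ q - k ≤ n01 ∧ p + q ≤ t + k ∧ t + k - p - q ≤ n00 := by
    omega
  obtain ⟨Y, hYU, hY⟩ := exists_cells U z D
    (fun b => if b = (true, true) then k else if b = (true, false) then p - k else
      if b = (false, true) then q - k else t + k - p - q) (by
      rintro ⟨b1, b2⟩
      cases b1 <;> cases b2 <;> simp <;> omega)
  have y1 := hY (true, true)
  have y2 := hY (true, false)
  have y3 := hY (false, true)
  have y4 := hY (false, false)
  simp at y1 y2 y3 y4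
  have c1 := cells_all Y z D
  have c2 := cells_z Y z D
  have c3 := cells_D Y z D
  refine ⟨Y, hYU, by omega, by omega, by omega⟩

end Pool.Agent.P8H46.BS
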