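import Pool.Agent.P8H46.BS.Pack

/-!
# Package GREEDY of the project BS
-/

set_option autoImplicit false

namespace Pool.Agent.P8H46.BS

open Finset

namespace Hw

theorem add_eq_zero_iff' {n : ℕ} {x y : V n} (h : x + y = 0) : x = y := by
  funext i
  have hi : x i + y i = 0 := congrFun h i
  have key : ∀ a b : ZMod 2, a + b = 0 → a = b := by decide
  exact key _ _ hi

/-- the condition which is forbidden -/
def Near {n : ℕ} (r : ℕ) (x y x' y' : V n) : Prop :=
  wt univ x x' ≤ r ∧ wt univ y y' ≤ r ∧ wt univ (x + y) (x' + y') ≤ r

theorem Near.symm {n r : ℕ} {x y x' y' : V n} (h : Near r x y x' y') : Near r x' y' x y :=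
  ⟨(wt_comm _ _ _).trans_le h.1, (wt_comm _ _ _).trans_le h.2.1, (wt_comm _ _ _).trans_le h.2.2⟩

end Hw

open Hw in
theorem greedy : S_GREEDY := by
  classical
  intro n r hr
  have main : ∀ S : Finset (V n), ∃ o : V n → V n, ∀ x ∈ S, ∀ x' ∈ S, x ≠ x' →
      ¬ Near r x (o x) x' (o x') := by
    intro S
    induction S using Finset.induction_on with
    | empty => exact ⟨id, by simp⟩
    | insert x₀ S hx₀ ih =>
      obtain ⟨o, ho⟩ := ih
      set T : Finset (V n × V n) := (S ×ˢ (univ : Finset (V n))).filter
        (fun p => Near r x₀ p.2 p.1 (o p.1)) with hT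
      have hzero : ((0 : V n), (0 : V n)) ∈ Rg n r := by
        rw [mem_Rg]
        simp [wt]
      have hTc : T.card ≤ ((Rg n r).erase (0, 0)).card := by
        apply card_le_card_of_injOn (fun p => (x₀ + p.1, p.2 + o p.1))
        · rintro ⟨x', w⟩ hp
          rw [hT, mem_coe, mem_filter, mem_product] at hp
          obtain ⟨⟨hx', -⟩, h1, h2, h3⟩ := hp
          simp only at hx' h1 h2 h3
          simp only [mem_coe, mem_erase]
          refine ⟨?_, ?_⟩
          · intro h
            simp only [Prod.mk.injEq] at h
            have := add_eq_zero_iff' h.1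
            subst this
            exact hx₀ hx'
          · rw [mem_Rg, wt_add, wt_add]
            refine ⟨h1, h2, ?_⟩
            rw [← wt_add, show x₀ + x' + (w + o x') = (x₀ + w) + (x' + o x') by abel, wt_add]
            exact h3
        · rintro ⟨x', w⟩ _ ⟨x'', w'⟩ _ h
          simp only [Prod.mk.injEq] at h
          obtain ⟨h1, h2⟩ := h
          have e := add_left_cancel h1
          subst e
          have e' := add_right_cancel h2
          rw [e']
      have hlt : (T.image Prod.snd).card < (univ : Finset (V n)).card := by
        have h1 : (univ : Finset (V n)).card = 2 ^ n := by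
          simp [card_univ]
        rw [h1]
        refine (card_image_le.trans hTc).trans_lt ?_
        have h2 := card_erase_lt_of_mem hzero
        omega
      obtain ⟨w, -, hw⟩ := exists_mem_notMem_of_card_lt_card hlt
      have hw' : ∀ x' ∈ S, ¬ Near r x₀ w x' (o x') := by
        intro x' hx' h
        apply hw
        rw [mem_image]
        refine ⟨(x', w), ?_, rfl⟩
        rw [hT, mem_filter, mem_product]
        exact ⟨⟨hx', mem_univ _⟩, h⟩
      refine ⟨Function.update o x₀ w, ?_⟩
      have hS : ∀ x ∈ S, Function.update o x₀ w x = o x := by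
        intro x hx
        rw [Function.update_of_ne]
        rintro rfl
        exact hx₀ hx
      intro x hx x' hx' hne
      rw [mem_insert] at hx hx'
      rcases hx with rfl | hx <;> rcases hx' with rfl | hx'
      · exact absurd rfl hne
      · rw [Function.update_self, hS x' hx']
        exact hw' x' hx'
      · rw [Function.update_self, hS x hx]
        intro h
        exact hw' x hx h.symm
      · rw [hS x hx, hS x' hx']
        exact ho x hx x' hx' hne
  obtain ⟨o, ho⟩ := main univ
  exact ⟨o, fun x x' hne h => ho x (mem_univ _) x' (mem_univ _) hne h⟩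

end Pool.Agent.P8H46.BS
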