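import Pool.Agent.P8H46.BS.Stm2

/-!
# Package GV: large codes (written by helper76)
-/

set_option autoImplicit false

namespace Pool.Agent.P8H46.BS

open Finset

section

variable {n : ℕ}

lemma wt_comm (U : Finset (Fin n)) (x y : V n) : wt U x y = wt U y x := by
  unfold wt
  congr 1
  ext i
  simp only [Finset.mem_filter, ne_comm]

lemma sum_exp (u : ℝ) (x : V n) : ∑ y : V n, Real.exp (-u * (wt univ x y : ℝ)) = (1 + Real.exp (-u)) ^ n := by
  have h1 : ∀ y : V n, Real.exp (-u * (wt univ x y : ℝ)) = ∏ i, (if x i ≠ y i then Real.exp (-u) else 1) := by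
    intro y
    unfold wt
    rw [Finset.prod_ite, Finset.prod_const, Finset.prod_const_one, mul_one, mul_comm, Real.exp_nat_mul]
  rw [Finset.sum_congr rfl fun y _ => h1 y]
  have h2 := Finset.prod_univ_sum (fun _ : Fin n => (Finset.univ : Finset (ZMod 2)))
    (fun i b => if x i ≠ b then Real.exp (-u) else 1)
  rw [Fintype.piFinset_univ] at h2
  rw [← h2]
  have h3 : ∀ i : Fin n, ∑ b : ZMod 2, (if x i ≠ b then Real.exp (-u) else 1) = 1 + Real.exp (-u) := by
    intro i
    have key : ∀ c : ZMod 2, c = 0 ∨ c = 1 := by decide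
    have hu : (Finset.univ : Finset (ZMod 2)) = {0, 1} := by decide
    rw [hu, Finset.sum_pair (by decide)]
    rcases key (x i) with h | h <;> simp [h, add_comm]
  rw [Finset.prod_congr rfl fun i _ => h3 i, Finset.prod_const, Finset.card_univ, Fintype.card_fin]

lemma ball_le {α u : ℝ} (hu : 0 ≤ u) (x : V n) :
    ((univ.filter (fun y : V n => (wt univ x y : ℝ) ≤ α * n)).card : ℝ) ≤
      (Real.exp (α * u) * (1 + Real.exp (-u))) ^ n := by
  have h1 : ((univ.filter (fun y : V n => (wt univ x y : ℝ) ≤ α * n)).card : ℝ) ≤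
      ∑ y : V n, Real.exp (u * (α * n)) * Real.exp (-u * (wt univ x y : ℝ)) := by
    rw [Finset.card_filter]
    push_cast
    refine Finset.sum_le_sum fun y _ => ?_
    split_ifs with h
    · rw [← Real.exp_add]
      have : 0 ≤ u * (α * n) + -u * (wt univ x y : ℝ) := by nlinarith
      exact Real.one_le_exp this
    · positivity
  refine h1.trans (le_of_eq ?_)
  rw [← Finset.mul_sum, sum_exp, mul_pow, ← Real.exp_nat_mul]
  congr 2
  ring

end

lemma key_ineq {α : ℝ} : Real.exp (α * (4 * (1 / 2 - α))) * (1 + Real.exp (-(4 * (1 / 2 - α)))) ≤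
    2 / Real.exp (2 * (1 / 2 - α) ^ 2) := by
  set d := 1 / 2 - α with hd
  have h1 : 1 + Real.exp (-(4 * d)) = Real.exp (-(2 * d)) * (2 * Real.cosh (2 * d)) := by
    rw [Real.cosh_eq, mul_div_cancel₀ _ (two_ne_zero), mul_add, ← Real.exp_add, ← Real.exp_add]
    rw [show -(2 * d) + 2 * d = 0 by ring, Real.exp_zero]
    congr 2
    ring
  have h2 := Real.cosh_le_exp_half_sq (2 * d)
  rw [h1, le_div_iff₀ (Real.exp_pos _)]
  calc Real.exp (α * (4 * d)) * (Real.exp (-(2 * d)) * (2 * Real.cosh (2 * d))) * Real.exp (2 * d ^ 2)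
      ≤ Real.exp (α * (4 * d)) * (Real.exp (-(2 * d)) * (2 * Real.exp ((2 * d) ^ 2 / 2))) * Real.exp (2 * d ^ 2) := by
        gcongr
    _ = 2 * Real.exp (α * (4 * d) + -(2 * d) + (2 * d) ^ 2 / 2 + 2 * d ^ 2) := by
        rw [Real.exp_add, Real.exp_add, Real.exp_add]; ring
    _ = 2 := by
        have : α * (4 * d) + -(2 * d) + (2 * d) ^ 2 / 2 + 2 * d ^ 2 = 0 := by rw [hd]; ring
        rw [this, Real.exp_zero, mul_one]

/-- Package GV -/
theorem gv : S_GV := by
  classical
  intro α h0 h1
  refine ⟨Real.exp (2 * (1 / 2 - α) ^ 2), Real.one_lt_exp_iff.2 (by have : 0 < 1 / 2 - α := by linarith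
                                                                    positivity), fun n => ?_⟩
  -- a maximal code
  let P : Finset (V n) → Prop := fun C => ∀ x ∈ C, ∀ y ∈ C, x ≠ y → α * (n : ℝ) < wt univ x y
  obtain ⟨C, hC, hmax⟩ := Finset.exists_max_image (Finset.univ.filter P) Finset.card
    ⟨∅, by simp [P]⟩
  rw [Finset.mem_filter] at hC
  refine ⟨C, ?_, hC.2⟩
  have hcov : ∀ y : V n, ∃ x ∈ C, (wt univ x y : ℝ) ≤ α * n := by
    intro y
    by_contra hcon
    push Not at hcon
    have hy : y ∉ C := by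
      intro hy
      have h2 := hcon y hy
      have h3 : wt univ y y = 0 := by simp [wt]
      rw [h3, Nat.cast_zero] at h2
      have : 0 ≤ α * (n : ℝ) := by positivity
      linarith
    have hP : P (insert y C) := by
      intro x hx z hz hxz
      rw [Finset.mem_insert] at hx hz
      rcases hx with rfl | hx
      · rcases hz with rfl | hz
        · exact absurd rfl hxz
        · rw [wt_comm]
          exact hcon z hz
      · rcases hz with rfl | hz
        · exact hcon x hx
        · exact hC.2 x hx z hz hxz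
    have h2 := hmax (insert y C) (Finset.mem_filter.2 ⟨Finset.mem_univ _, hP⟩)
    rw [Finset.card_insert_of_notMem hy] at h2
    omega
  have hcard : (2 : ℝ) ^ n ≤ ∑ x ∈ C, ((univ.filter (fun y : V n => (wt univ x y : ℝ) ≤ α * n)).card : ℝ) := by
    have h2 : (Finset.univ : Finset (V n)) ⊆ C.biUnion fun x => univ.filter (fun y : V n => (wt univ x y : ℝ) ≤ α * n) := by
      intro y _
      obtain ⟨x, hx, hxy⟩ := hcov y
      exact Finset.mem_biUnion.2 ⟨x, hx, Finset.mem_filter.2 ⟨Finset.mem_univ _, hxy⟩⟩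
    have h3 := (Finset.card_le_card h2).trans Finset.card_biUnion_le
    rw [Finset.card_univ] at h3
    have h4 : Fintype.card (V n) = 2 ^ n := by
      rw [Fintype.card_fun, ZMod.card, Fintype.card_fin]
    rw [h4] at h3
    exact_mod_cast h3
  have hd : 0 ≤ 4 * (1 / 2 - α) := by linarith
  have h5 : (2 : ℝ) ^ n ≤ C.card * (2 / Real.exp (2 * (1 / 2 - α) ^ 2)) ^ n := by
    refine hcard.trans ?_
    rw [← nsmul_eq_mul]
    refine Finset.sum_le_card_nsmul _ _ _ fun x _ => (ball_le hd x).trans ?_
    exact pow_le_pow_left₀ (by positivity) key_ineq n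
  rw [div_pow, mul_div_assoc'] at h5
  rw [le_div_iff₀ (by positivity)] at h5
  have h6 : (0 : ℝ) < 2 ^ n := by positivity
  nlinarith [h5, h6]

end Pool.Agent.P8H46.BS
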