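import Pool.Agent.P8H46.BS.Rad

set_option autoImplicit false

namespace Pool.Agent.P8H46.BS

open Finset

variable {n : ℕ}

lemma wt_tri (U : Finset (Fin n)) (x y z : V n) : wt U x z ≤ wt U x y + wt U y z := by
  classical
  unfold wt
  refine (card_le_card ?_).trans (card_union_le _ _)
  intro i hi
  rw [mem_filter] at hi
  rw [mem_union, mem_filter, mem_filter]
  by_cases h : x i = y i
  · right
    refine ⟨hi.1, fun h2 => hi.2 (h.trans h2)⟩
  · left
    exact ⟨hi.1, h⟩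

lemma wt_tr (U : Finset (Fin n)) (x y w : V n) : wt U (x + w) y = wt U x (y + w) := by
  unfold wt
  congr 1
  ext i
  simp only [mem_filter, Pi.add_apply]
  have : ∀ a b c : ZMod 2, (a + c ≠ b ↔ a ≠ b + c) := by decide
  rw [this]

lemma wt_shift (U : Finset (Fin n)) (x y z : V n) : wt U x (x + z) = wt U y (y + z) := by
  unfold wt
  congr 1
  ext i
  simp only [mem_filter, Pi.add_apply]
  have : ∀ a b c : ZMod 2, (a ≠ a + c ↔ b ≠ b + c) := by decide
  rw [this (x i) (y i) (z i)]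

/-- the set whose rows over `X` are the balls of radius `t` around `o x` -/
noncomputable def ballSet (X : Finset (V n)) (o : V n → V n) (t : ℕ) : Finset (V n × V n) := by
  classical
  exact univ.filter (fun p => p.1 ∈ X ∧ wt univ p.2 (o p.1) ≤ t)

lemma mem_ballSet (X : Finset (V n)) (o : V n → V n) (t : ℕ) (x y : V n) :
    (x, y) ∈ ballSet X o t ↔ x ∈ X ∧ wt univ y (o x) ≤ t := by
  simp [ballSet]

lemma ballSet_cf (X : Finset (V n)) (o : V n → V n) (t : ℕ)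
    (h : ∀ x ∈ X, ∀ x' ∈ X, x ≠ x' → ¬ (wt univ x x' ≤ 2 * t ∧ wt univ (o x) (o x') ≤ 2 * t ∧
      wt univ (x + o x) (x' + o x') ≤ 2 * t)) : CF (ballSet X o t) := by
  intro x y z h1 h2 h3
  rw [mem_ballSet] at h1 h2 h3
  by_contra hz
  refine h x h1.1 (x + z) h3.1 ?_ ⟨?_, ?_, ?_⟩
  · intro h4
    apply hz
    exact left_eq_add.1 h4
  · rw [wt_shift univ x y z]
    have h4 := wt_tri univ y (o x) (y + z)
    rw [wt_comm univ (o x) (y + z)] at h4
    omega
  · have h4 := wt_tri univ (o x) y (o (x + z))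
    rw [wt_comm univ (o x) y] at h4
    omega
  · have e : wt univ (x + o x) (x + z + o (x + z)) = wt univ (o x + z) (o (x + z)) := by
      unfold wt
      congr 1
      ext i
      simp only [mem_filter, Pi.add_apply]
      have : ∀ a b c d : ZMod 2, (a + b ≠ a + c + d ↔ b + c ≠ d) := by decide
      rw [this]
    rw [e]
    have h4 := wt_tri univ (o x + z) y (o (x + z))
    rw [wt_tr univ (o x) y z, wt_comm univ (o x) (y + z)] at h4
    omega

/-- exponentially many rows may contain balls of radius `τ n`, `τ < 1 / 4` -/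
theorem code_rows (hGV : S_GV) (τ : ℝ) (h0 : 0 ≤ τ) (h1 : τ < 1 / 4) :
    ∃ ρ c : ℝ, 1 < ρ ∧ 0 < c ∧ ∀ n : ℕ, ∃ A : Finset (V n × V n), CF A ∧ ∃ X : Finset (V n),
      c * ρ ^ n ≤ (X.card : ℝ) ∧ ∀ x ∈ X, ∃ (o : V n) (t : ℕ), τ * n ≤ t ∧
        ∀ y, wt univ y o ≤ t → (x, y) ∈ A := by
  classical
  obtain ⟨ρ, hρ, hC⟩ := hGV (τ + 1 / 4) (by linarith) (by linarith)
  set n0 := ⌈2 / (1 / 4 - τ)⌉₊ with hn0
  refine ⟨ρ, (ρ ^ n0)⁻¹, hρ, by positivity, fun n => ?_⟩
  rcases lt_or_ge n n0 with hn | hn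
  · refine ⟨ballSet {0} (fun _ => 0) n, ballSet_cf _ _ _ ?_, {0}, ?_, ?_⟩
    · intro x hx x' hx' hne
      rw [mem_singleton] at hx hx'
      exact absurd (hx.trans hx'.symm) hne
    · rw [card_singleton, Nat.cast_one, inv_mul_le_iff₀ (by positivity), mul_one]
      exact pow_le_pow_right₀ hρ.le hn.le
    · intro x hx
      refine ⟨0, n, ?_, fun y hy => ?_⟩
      · have : (0 : ℝ) ≤ n := by positivity
        nlinarith
      · rw [mem_ballSet]
        exact ⟨hx, hy⟩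
  · obtain ⟨C, hC1, hC2⟩ := hC n
    set t := ⌈τ * n⌉₊ with ht
    have hδ : 0 < 1 / 4 - τ := by linarith
    have h2t : (2 * t : ℝ) ≤ (τ + 1 / 4) * n := by
      have e1 : (t : ℝ) < τ * n + 1 := Nat.ceil_lt_add_one (by positivity)
      have e2 : 2 / (1 / 4 - τ) ≤ n := (Nat.le_ceil _).trans (by exact_mod_cast hn)
      rw [div_le_iff₀ hδ] at e2
      nlinarith
    refine ⟨ballSet C (fun _ => 0) t, ballSet_cf _ _ _ ?_, C, ?_, ?_⟩
    · rintro x hx x' hx' hne ⟨g1, -, -⟩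
      have g2 := hC2 x hx x' hx' hne
      have g3 : (wt univ x x' : ℝ) ≤ 2 * t := by exact_mod_cast g1
      linarith
    · have e1 : (ρ ^ n0)⁻¹ ≤ 1 := inv_le_one_of_one_le₀ (one_le_pow₀ hρ.le)
      have e2 : (0 : ℝ) < ρ ^ n := by positivity
      nlinarith
    · intro x hx
      refine ⟨0, t, Nat.le_ceil _, fun y hy => ?_⟩
      rw [mem_ballSet]
      exact ⟨hx, hy⟩

/-- one row for every radius -/
theorem all_radii (n : ℕ) : ∃ A : Finset (V n × V n), CF A ∧ ∃ x : Fin (n + 1) → V n,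
    Function.Injective x ∧ ∀ t y, (x t, y) ∈ A ↔ wt univ y 0 = t := by
  classical
  set x : Fin (n + 1) → V n := fun t i => if (i : ℕ) < t then 1 else 0 with hx
  have hinj : Function.Injective x := by
    have hlt : ∀ s t : Fin (n + 1), s < t → x s ≠ x t := by
      intro s t hst he
      have h1 : (s : ℕ) < n := by omega
      have h2 := congrFun he ⟨s, h1⟩
      have h3 : (s : ℕ) < (t : ℕ) := hst
      simp only [hx, lt_irrefl, if_false, h3, if_true] at h2
      exact absurd h2 (by decide)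
    intro s t he
    rcases lt_trichotomy s t with h | h | h
    · exact absurd he (hlt s t h)
    · exact h
    · exact absurd he.symm (hlt t s h)
  refine ⟨univ.filter (fun p => ∃ t : Fin (n + 1), p.1 = x t ∧ wt univ p.2 0 = t), ?_, x, hinj, ?_⟩
  · intro a y z h1 h2 h3
    simp only [mem_filter, mem_univ, true_and] at h1 h3
    obtain ⟨t, ht, ht'⟩ := h1
    obtain ⟨s, hs, hs'⟩ := h3
    have : t = s := Fin.ext (ht'.symm.trans hs')
    rw [this, ← hs] at ht
    exact left_eq_add.1 ht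
  · intro t y
    simp only [mem_filter, mem_univ, true_and]
    constructor
    · rintro ⟨s, h1, h2⟩
      rw [hinj h1]
      exact h2
    · intro h
      exact ⟨t, rfl, h⟩

lemma absorb3 : ∃ K : ℝ, 0 < K ∧ ∀ q : ℕ, (16 * (q : ℝ) + 1) ≤ K * (1.18 : ℝ) ^ q := by
  have h := tendsto_pow_const_mul_const_pow_of_abs_lt_one 1
    (r := (1 / 1.18 : ℝ)) (by rw [abs_of_pos (by norm_num)]; norm_num)
  obtain ⟨c, hc⟩ := h.bddAbove_range
  rw [mem_upperBounds] at hc
  have hc0 : 0 ≤ c := by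
    have := hc _ ⟨0, rfl⟩
    simpa using this
  refine ⟨16 * c + 1, by positivity, fun q => ?_⟩
  have h1 := hc _ ⟨q, rfl⟩
  simp only [pow_one] at h1
  have h2 : (1 : ℝ) ≤ (1.18 : ℝ) ^ q := one_le_pow₀ (by norm_num)
  have h3 : (q : ℝ) ≤ c * (1.18 : ℝ) ^ q := by
    have h4 : (q : ℝ) = ((q : ℝ) * (1 / 1.18) ^ q) * (1.18 : ℝ) ^ q := by
      rw [mul_assoc, ← mul_pow]
      norm_num
    rw [h4]
    exact mul_le_mul_of_nonneg_right h1 (by positivity)
  nlinarith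

/-- all rows may be balls of radius `n / 16` -/
theorem low_radial (hRU : S_RUP) (hGR : S_GREEDY) (hTR : S_TRICK)
    (hB : ∀ q : ℕ, (16 ^ 16) ^ q ≤ (16 * q + 1) * (16 * q).choose q * (15 ^ 15) ^ q) :
    ∃ c : ℝ, 0 < c ∧ ∀ n : ℕ, ∃ A : Finset (V n × V n), CF A ∧
      (∀ x, ∃ o : V n, ∀ y, (x, y) ∈ A ↔ wt univ y o ≤ n / 16) ∧ c * (2.5 : ℝ) ^ n ≤ (A.card : ℝ) := by
  classical
  obtain ⟨K, hK0, hK⟩ := absorb3
  refine ⟨(K * 1.25 ^ 16)⁻¹, by positivity, fun n => ?_⟩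
  set t := n / 16 with ht
  have hR : (Rg n (2 * t)).card ≤ 2 ^ n := by
    have h1 := hRU n (2 * t) (3 * t) (by omega)
    have h2 := hTR n (3 * t) 3 16 3 1.174 (by norm_num) (by norm_num) (by omega)
    have h3 : (1.174 : ℝ) ^ 3 * (1 + 3 * (1.174⁻¹) ^ 16) ≤ 2 := by norm_num
    have h4 : ((Rg n (2 * t)).card : ℝ) ≤ 2 ^ n := by
      have h5 : ((Rg n (2 * t)).card : ℝ) ≤ ∑ w ∈ range (3 * t + 1), (n.choose w : ℝ) * 3 ^ w := by
        exact_mod_cast h1
      exact h5.trans (h2.trans (pow_le_pow_left₀ (by positivity) h3 n))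
    exact_mod_cast h4
  obtain ⟨o, ho⟩ := hGR n (2 * t) hR
  refine ⟨ballSet univ o t, ballSet_cf _ _ _ (fun x _ x' _ hne => ho x x' hne), fun x => ⟨o x,
    fun y => by rw [mem_ballSet]; simp⟩, ?_⟩
  rw [card_rows]
  have hV : (Fintype.card (V n) : ℝ) = 2 ^ n := by simp [ZMod.card]
  have hrow : ∀ x : V n, (n.choose t : ℝ) ≤
      ((univ.filter (fun y => (x, y) ∈ ballSet univ o t)).card : ℝ) := by
    intro x
    rw [← card_sphere (o x) t]
    have : (univ.filter (fun y : V n => wt univ y (o x) = t)).card ≤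
        (univ.filter (fun y => (x, y) ∈ ballSet univ o t)).card := by
      refine card_le_card fun y hy => ?_
      rw [mem_filter] at hy ⊢
      refine ⟨mem_univ _, ?_⟩
      rw [mem_ballSet]
      exact ⟨mem_univ _, hy.2.le⟩
    exact_mod_cast this
  have hsum : (2 : ℝ) ^ n * (n.choose t : ℝ) ≤
      ∑ x, ((univ.filter (fun y => (x, y) ∈ ballSet univ o t)).card : ℝ) := by
    calc (2 : ℝ) ^ n * (n.choose t : ℝ) = ∑ _x : V n, (n.choose t : ℝ) := by
          rw [sum_const, card_univ, nsmul_eq_mul, hV]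
      _ ≤ _ := sum_le_sum fun x _ => hrow x
  refine le_trans ?_ hsum
  -- the binomial coefficient
  have hb := hB t
  have h16 : 16 * t ≤ n := by omega
  have hb1 : ((16 : ℝ) ^ 16) ^ t ≤ (16 * (t : ℝ) + 1) * ((16 * t).choose t : ℝ) * ((15 : ℝ) ^ 15) ^ t := by
    exact_mod_cast hb
  have hb2 : ((16 * t).choose t : ℝ) ≤ (n.choose t : ℝ) := by
    exact_mod_cast Nat.choose_le_choose t h16
  have hb3 : ((1.18 : ℝ) * 1.25 ^ 16 * 15 ^ 15) ^ t ≤ ((16 : ℝ) ^ 16) ^ t :=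
    pow_le_pow_left₀ (by positivity) (by norm_num) t
  have hb4 : ((1.18 : ℝ) * 1.25 ^ 16) ^ t ≤ (K * (1.18 : ℝ) ^ t) * (n.choose t : ℝ) := by
    have h1 : ((1.18 : ℝ) * 1.25 ^ 16) ^ t * ((15 : ℝ) ^ 15) ^ t ≤
        ((K * (1.18 : ℝ) ^ t) * (n.choose t : ℝ)) * ((15 : ℝ) ^ 15) ^ t := by
      rw [← mul_pow]
      refine hb3.trans (hb1.trans ?_)
      refine mul_le_mul_of_nonneg_right ?_ (by positivity)
      exact mul_le_mul (hK t) hb2 (by positivity) (by positivity)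
    exact le_of_mul_le_mul_right h1 (by positivity)
  have hb5 : ((1.25 : ℝ) ^ 16) ^ t ≤ K * (n.choose t : ℝ) := by
    rw [mul_pow] at hb4
    have h1 : (1.18 : ℝ) ^ t * ((1.25 : ℝ) ^ 16) ^ t ≤ (1.18 : ℝ) ^ t * (K * (n.choose t : ℝ)) := by
      refine hb4.trans (le_of_eq (by ring))
    exact le_of_mul_le_mul_left h1 (by positivity)
  have hb6 : (1.25 : ℝ) ^ n ≤ (K * 1.25 ^ 16) * (n.choose t : ℝ) := by
    have h1 : n ≤ 16 * t + 16 := by omega
    calc (1.25 : ℝ) ^ n ≤ (1.25 : ℝ) ^ (16 * t + 16) := pow_le_pow_right₀ (by norm_num) h1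
      _ = ((1.25 : ℝ) ^ 16) ^ t * 1.25 ^ 16 := by rw [pow_add, pow_mul]
      _ ≤ (K * (n.choose t : ℝ)) * 1.25 ^ 16 := mul_le_mul_of_nonneg_right hb5 (by positivity)
      _ = _ := by ring
  have e : (2.5 : ℝ) ^ n = 2 ^ n * 1.25 ^ n := by
    rw [← mul_pow]
    norm_num
  rw [e, inv_mul_le_iff₀ (by positivity)]
  calc (2 : ℝ) ^ n * 1.25 ^ n ≤ 2 ^ n * ((K * 1.25 ^ 16) * (n.choose t : ℝ)) :=
        mul_le_mul_of_nonneg_left hb6 (by positivity)
    _ = _ := by ring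

end Pool.Agent.P8H46.BS
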