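import Pool.Agent.P8H46.BS.Cls

set_option autoImplicit false

namespace Pool.Agent.P8H46.BS

open Finset

variable {n J : ℕ}

theorem sum_choose_le (n m k : ℕ) (hk : (k + 1) * m ≤ n) (a s : ℝ) (ha : 0 ≤ a) (hs : 1 ≤ s) :
    ∑ i ∈ range (m + 1), (n.choose i : ℝ) * a ^ i ≤ (s + a * (s⁻¹) ^ k) ^ n := by
  have hs0 : 0 < s := by linarith
  have hmn : m ≤ n := by nlinarith [Nat.zero_le (k * m)]
  have h1 : ∑ i ∈ range (m + 1), (n.choose i : ℝ) * a ^ i ≤
      ∑ i ∈ range (m + 1), (a * (s⁻¹) ^ k) ^ i * s ^ (n - i) * (n.choose i : ℝ) := by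
    refine sum_le_sum fun i hi => ?_
    rw [mem_range] at hi
    have him : i ≤ m := by omega
    have hin : i + k * i ≤ n := by nlinarith [Nat.mul_le_mul_left (k + 1) him]
    have h2 : (s⁻¹) ^ (k * i) * s ^ (n - i) = s ^ (n - i - k * i) := by
      have : n - i = (n - i - k * i) + k * i := by omega
      rw [this, pow_add, Nat.add_sub_cancel, mul_comm, mul_assoc, ← mul_pow,
        mul_inv_cancel₀ hs0.ne', one_pow, mul_one]
    have h3 : (1 : ℝ) ≤ s ^ (n - i - k * i) := one_le_pow₀ hs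
    have h4 : (0 : ℝ) ≤ (n.choose i : ℝ) * a ^ i := by positivity
    calc (n.choose i : ℝ) * a ^ i ≤ (n.choose i : ℝ) * a ^ i * s ^ (n - i - k * i) :=
          le_mul_of_one_le_right h4 h3
      _ = (a * (s⁻¹) ^ k) ^ i * s ^ (n - i) * (n.choose i : ℝ) := by
          rw [← h2, mul_pow, ← pow_mul]
          ring
  refine h1.trans ?_
  rw [add_comm s, add_pow]
  refine sum_le_sum_of_subset_of_nonneg ?_ fun i _ _ => by positivity
  intro i hi
  rw [mem_range] at hi ⊢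
  omega

/-- the number of near rows -/
theorem near_le (n J : ℕ) (hJ : 200 * J ≤ n) :
    (∑ f ∈ range (n / 7 + 1), (n.choose f : ℝ) * 4 ^ f) *
      (∑ i ∈ range (J + 1), (n.choose i : ℝ)) ^ 2 ≤ (1.9566 : ℝ) ^ n := by
  have h1 := sum_choose_le n (n / 7) 6 (by omega) 4 1.575 (by norm_num) (by norm_num)
  have h2 := sum_choose_le n J 199 (by omega) 1 1.0269 (by norm_num) (by norm_num)
  simp only [one_pow, mul_one, one_mul] at h2
  have e1 : (1.575 : ℝ) + 4 * (1.575⁻¹) ^ 6 ≤ 1.8371 := by norm_num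
  have e2 : (1.0269 : ℝ) + (1.0269⁻¹) ^ 199 ≤ 1.03199 := by norm_num
  have h3 : (∑ f ∈ range (n / 7 + 1), (n.choose f : ℝ) * 4 ^ f) ≤ 1.8371 ^ n :=
    h1.trans (pow_le_pow_left₀ (by positivity) e1 n)
  have h4 : (∑ i ∈ range (J + 1), (n.choose i : ℝ)) ≤ 1.03199 ^ n :=
    h2.trans (pow_le_pow_left₀ (by positivity) e2 n)
  calc _ ≤ (1.8371 : ℝ) ^ n * ((1.03199 : ℝ) ^ n) ^ 2 := by
        refine mul_le_mul h3 (pow_le_pow_left₀ (by positivity) h4 2) (by positivity) (by positivity)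
    _ = (1.8371 * 1.03199 ^ 2 : ℝ) ^ n := by
        rw [mul_pow, ← pow_mul, ← pow_mul, mul_comm n 2]
    _ ≤ (1.9566 : ℝ) ^ n := pow_le_pow_left₀ (by positivity) (by norm_num) n

/-- the number of far points of one piece -/
theorem far_le (hcount : S_COUNT) (lam : Fin n → Fin J) (hJ : 200 * J ≤ n) (o : V n) :
    ((univ.filter (fun y : V n => n < 7 * imb lam o y)).card : ℝ) ≤ (1.98655 : ℝ) ^ n := by
  set v : ℝ := 1.0208 with hv
  have hv1 : (1 : ℝ) ≤ v := by rw [hv]; norm_num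
  have hv0 : (0 : ℝ) < v := by linarith
  have h1 := hcount n J lam o (v ^ 7) (one_le_pow₀ hv1)
  have h2 : ((univ.filter (fun y : V n => n < 7 * imb lam o y)).card : ℝ) * v ^ n ≤
      ∑ y : V n, (v ^ 7) ^ (imb lam o y) := by
    rw [← nsmul_eq_mul, ← sum_const]
    refine (sum_le_sum (g := fun y => (v ^ 7) ^ (imb lam o y)) fun y hy => ?_).trans
      (sum_le_sum_of_subset_of_nonneg (filter_subset _ _) fun i _ _ => by positivity)
    rw [mem_filter] at hy
    rw [← pow_mul]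
    exact pow_le_pow_right₀ hv1 hy.2.le
  have h3 : (2 : ℝ) ^ J ≤ (1.00348 : ℝ) ^ n := by
    have h4 : (2 : ℝ) ≤ (1.00348 : ℝ) ^ 200 := by norm_num
    calc (2 : ℝ) ^ J ≤ ((1.00348 : ℝ) ^ 200) ^ J := pow_le_pow_left₀ (by norm_num) h4 J
      _ = (1.00348 : ℝ) ^ (200 * J) := by rw [pow_mul]
      _ ≤ _ := pow_le_pow_right₀ (by norm_num) hJ
  have h5 : (2 : ℝ) ^ J * (v ^ 7 + (v ^ 7)⁻¹) ^ n ≤ (1.98655 * v) ^ n := by
    calc (2 : ℝ) ^ J * (v ^ 7 + (v ^ 7)⁻¹) ^ n ≤ (1.00348 : ℝ) ^ n * (v ^ 7 + (v ^ 7)⁻¹) ^ n :=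
          mul_le_mul_of_nonneg_right h3 (by positivity)
      _ = (1.00348 * (v ^ 7 + (v ^ 7)⁻¹)) ^ n := by rw [mul_pow]
      _ ≤ _ := pow_le_pow_left₀ (by positivity) (by rw [hv]; norm_num) n
  have h6 := h2.trans (h1.trans h5)
  rw [mul_pow] at h6
  exact le_of_mul_le_mul_right h6 (by positivity)

theorem main (hsplit : S_SPLIT) (hrank : S_RANK) (hslice : S_SLICE) (hcount : S_COUNT)
    (n J T : ℕ) (hJ : 200 * J ≤ n) (A : Finset (V n × V n)) (hA : CF A)
    (P : V n → Fin T → Set (V n)) (hP : ∀ x t, BlockSymmetric J (P x t))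
    (h : ∀ x y, (x, y) ∈ A ↔ ∃ t, y ∈ P x t) :
    (A.card : ℝ) ≤ (3.9132 : ℝ) ^ n + T * (3.9731 : ℝ) ^ n := by
  classical
  -- rich rows
  set R : ℕ → V n → Prop := fun f x => ∃ (F : Finset (Fin n)) (v o : V n) (lam : Fin n → Fin J),
    F.card = f ∧ (∀ j, Even (univ.filter (fun i => i ∉ F ∧ lam i = j)).card) ∧
      ∀ y, Half F v o lam y → (x, y) ∈ A with hR
  set X : ℕ → Finset (V n) := fun f => univ.filter (fun x => R f x) with hX
  set N : Finset (V n) := (range (n / 7 + 1)).biUnion X with hN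
  have hXc : ∀ f, ((X f).card : ℝ) ≤ n.choose f * 4 ^ f *
      (∑ i ∈ range (J + 1), (n.choose i : ℝ)) ^ 2 := by
    intro f
    have := cls hsplit hrank (J := J) (f := f) A hA (X f) fun x hx => (mem_filter.1 hx).2
    exact_mod_cast this
  have hNc : (N.card : ℝ) ≤ (1.9566 : ℝ) ^ n := by
    refine le_trans ?_ (near_le n J hJ)
    rw [sum_mul]
    have h1 : (N.card : ℝ) ≤ ∑ f ∈ range (n / 7 + 1), ((X f).card : ℝ) := by
      exact_mod_cast card_biUnion_le
    exact h1.trans (sum_le_sum fun f _ => hXc f)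
  set row : V n → Finset (V n) := fun x => univ.filter (fun y => (x, y) ∈ A) with hrow
  have hAc : (A.card : ℝ) = ∑ x, ((row x).card : ℝ) := by
    have h1 : A.card = ∑ x, (row x).card := by
      rw [← card_sigma]
      refine card_bij' (fun p _ => ⟨p.1, p.2⟩) (fun q _ => (q.1, q.2)) ?_ ?_ ?_ ?_
      · intro p hp
        simp [hrow, hp]
      · intro q hq
        simpa [hrow] using hq
      · intro p _
        rfl
      · intro q _
        rfl
    exact_mod_cast h1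
  have hV : (Fintype.card (V n) : ℝ) = 2 ^ n := by simp [ZMod.card]
  have hfar : ∀ x, x ∉ N → ((row x).card : ℝ) ≤ T * (1.98655 : ℝ) ^ n := by
    intro x hx
    choose o lam hsym using hP x
    have hsub : row x ⊆ (univ : Finset (Fin T)).biUnion
        (fun t => univ.filter (fun y : V n => n < 7 * imb (lam t) (o t) y)) := by
      intro y hy
      have hy' : (x, y) ∈ A := (mem_filter.1 hy).2
      obtain ⟨t, ht⟩ := (h x y).1 hy'
      rw [mem_biUnion]
      refine ⟨t, mem_univ _, mem_filter.2 ⟨mem_univ _, ?_⟩⟩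
      by_contra hcon
      apply hx
      obtain ⟨F, h1, h2, h3⟩ := hslice n J (lam t) (o t) y
      rw [hN, mem_biUnion]
      refine ⟨imb (lam t) (o t) y, mem_range.2 (by omega), mem_filter.2 ⟨mem_univ _, ?_⟩⟩
      refine ⟨F, y, o t, lam t, h1, h2, fun y' hy' => ?_⟩
      exact (h x y').2 ⟨t, (hsym t y' y (h3 y' hy')).2 ht⟩
    have h1 : ((row x).card : ℝ) ≤ ∑ t : Fin T,
        ((univ.filter (fun y : V n => n < 7 * imb (lam t) (o t) y)).card : ℝ) := by
      exact_mod_cast (card_le_card hsub).trans card_biUnion_le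
    refine h1.trans ((sum_le_sum fun t _ => far_le hcount (lam t) hJ (o t)).trans ?_)
    rw [sum_const, card_univ, Fintype.card_fin, nsmul_eq_mul]
  have hall : ∀ x, ((row x).card : ℝ) ≤ (if x ∈ N then (2 : ℝ) ^ n else 0) +
      T * (1.98655 : ℝ) ^ n := by
    intro x
    by_cases hx : x ∈ N
    · rw [if_pos hx]
      have h1 : ((row x).card : ℝ) ≤ 2 ^ n := by
        rw [← hV]
        exact_mod_cast card_le_univ _
      have h2 : (0 : ℝ) ≤ T * (1.98655 : ℝ) ^ n := by positivity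
      linarith
    · rw [if_neg hx, zero_add]
      exact hfar x hx
  rw [hAc]
  refine (sum_le_sum fun x _ => hall x).trans ?_
  rw [sum_add_distrib, sum_const, card_univ, nsmul_eq_mul, hV, sum_ite_mem, univ_inter, sum_const,
    nsmul_eq_mul]
  have h7 : (N.card : ℝ) * 2 ^ n ≤ (3.9132 : ℝ) ^ n := by
    calc (N.card : ℝ) * 2 ^ n ≤ (1.9566 : ℝ) ^ n * 2 ^ n :=
          mul_le_mul_of_nonneg_right hNc (by positivity)
      _ = (1.9566 * 2 : ℝ) ^ n := by rw [mul_pow]
      _ ≤ _ := pow_le_pow_left₀ (by norm_num) (by norm_num) n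
  have h8 : (2 : ℝ) ^ n * (T * (1.98655 : ℝ) ^ n) ≤ T * (3.9731 : ℝ) ^ n := by
    calc (2 : ℝ) ^ n * (T * (1.98655 : ℝ) ^ n) = T * (2 * 1.98655 : ℝ) ^ n := by
          rw [mul_pow]
          ring
      _ ≤ _ := mul_le_mul_of_nonneg_left (pow_le_pow_left₀ (by norm_num) (by norm_num) n)
          (by positivity)
  linarith

end Pool.Agent.P8H46.BS
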