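import Pool.Agent.P8H46.BS.Stm3

/-!
# Package MULT of the project BS
-/

set_option autoImplicit false

namespace Pool.Agent.P8H46.BS

open Finset

namespace Hw

/-- the terms of the binomial expansion of `(s + r)^(s + r)` -/
def trm (s r i : ℕ) : ℕ := s ^ i * r ^ (s + r - i) * (s + r).choose i

theorem trm_up {s r i : ℕ} (hi : i < s) : trm s r i ≤ trm s r (i + 1) := by
  have h1 := Nat.choose_succ_right_eq (s + r) i
  have h2 : (i + 1) * r ≤ s * (s + r - i) := Nat.mul_le_mul (by omega) (by omega)
  have h3 : (i + 1) * trm s r i ≤ (i + 1) * trm s r (i + 1) := by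
    unfold trm
    have e1 : s + r - i = (s + r - (i + 1)) + 1 := by omega
    calc (i + 1) * (s ^ i * r ^ (s + r - i) * (s + r).choose i)
        = s ^ i * r ^ (s + r - (i + 1)) * (s + r).choose i * ((i + 1) * r) := by
          conv_lhs => rw [e1, pow_succ]
          ring
      _ ≤ s ^ i * r ^ (s + r - (i + 1)) * (s + r).choose i * (s * (s + r - i)) :=
          Nat.mul_le_mul_left _ h2
      _ = s ^ (i + 1) * r ^ (s + r - (i + 1)) * ((s + r).choose i * (s + r - i)) := by
          rw [pow_succ]; ring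
      _ = (i + 1) * (s ^ (i + 1) * r ^ (s + r - (i + 1)) * (s + r).choose (i + 1)) := by
          rw [← h1]; ring
  exact Nat.le_of_mul_le_mul_left h3 (Nat.succ_pos i)

theorem trm_down {s r i : ℕ} (hi : s ≤ i) (hi' : i < s + r) :
    trm s r (i + 1) ≤ trm s r i := by
  have h1 := Nat.choose_succ_right_eq (s + r) i
  have h2 : s * (s + r - i) ≤ (i + 1) * r := Nat.mul_le_mul (by omega) (by omega)
  have h3 : (i + 1) * trm s r (i + 1) ≤ (i + 1) * trm s r i := by
    unfold trm
    have e1 : s + r - i = (s + r - (i + 1)) + 1 := by omega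
    calc (i + 1) * (s ^ (i + 1) * r ^ (s + r - (i + 1)) * (s + r).choose (i + 1))
        = s ^ (i + 1) * r ^ (s + r - (i + 1)) * ((s + r).choose i * (s + r - i)) := by
          rw [← h1]; ring
      _ = s ^ i * r ^ (s + r - (i + 1)) * (s + r).choose i * (s * (s + r - i)) := by
          rw [pow_succ]; ring
      _ ≤ s ^ i * r ^ (s + r - (i + 1)) * (s + r).choose i * ((i + 1) * r) :=
          Nat.mul_le_mul_left _ h2
      _ = (i + 1) * (s ^ i * r ^ (s + r - i) * (s + r).choose i) := by
          conv_rhs => rw [e1, pow_succ]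
          ring
  exact Nat.le_of_mul_le_mul_left h3 (Nat.succ_pos i)

theorem trm_le {s r i : ℕ} (hi : i ≤ s + r) : trm s r i ≤ trm s r s := by
  rcases le_total i s with h | h
  · obtain ⟨k, hk⟩ := Nat.exists_eq_add_of_le h
    have : ∀ k i, s = i + k → trm s r i ≤ trm s r s := by
      intro k
      induction k with
      | zero =>
        intro i hi
        rw [add_zero] at hi
        rw [hi]
      | succ k ih =>
        intro i hi
        exact (trm_up (by omega)).trans (ih (i + 1) (by omega))
    exact this k i hk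
  · induction i, h using Nat.le_induction with
    | base => exact le_rfl
    | succ i h ih => exact (trm_down h (by omega)).trans (ih (by omega))

/-- BIN -/
theorem bin (s r : ℕ) : (s + r) ^ (s + r) ≤ (s + r + 1) * (s + r).choose s * (s ^ s * r ^ r) := by
  rw [add_pow]
  have h1 : ∀ i ∈ range (s + r + 1), s ^ i * r ^ (s + r - i) * (s + r).choose i ≤ trm s r s := by
    intro i hi
    exact trm_le (Nat.lt_succ_iff.mp (mem_range.mp hi))
  refine (sum_le_card_nsmul _ _ _ h1).trans ?_
  rw [card_range, smul_eq_mul]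
  unfold trm
  rw [Nat.add_sub_cancel_left]
  apply le_of_eq
  ring

end Hw

open Hw in
theorem mult : S_MULT := by
  intro a b q hab
  obtain ⟨c, rfl⟩ := Nat.exists_eq_add_of_le hab
  rw [Nat.add_sub_cancel_left]
  rcases Nat.eq_zero_or_pos q with rfl | hq
  · simp
  have e1 : (3 * a + c) * q = 2 * (a * q) + (a * q + c * q) := by ring
  have e2 : (3 * a + c) * q - 2 * (a * q) = a * q + c * q := by
    rw [e1, Nat.add_sub_cancel_left]
  rw [e2]
  have b1 := bin (2 * (a * q)) (a * q + c * q)
  have b2 := bin (a * q) (a * q)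
  have b3 := bin (a * q) (c * q)
  rw [← e1] at b1
  rw [← two_mul] at b2
  set N := (3 * a + c) * q with hN
  set X := a * q with hX
  set Y := c * q with hY
  have f2 : 2 * X + 1 ≤ N + 1 := by omega
  have f3 : X + Y + 1 ≤ N + 1 := by omega
  have key : N ^ N ≤ (N + 1) ^ 3 * (N.choose (2 * X) * (2 * X).choose X * (X + Y).choose X) *
      (X ^ (3 * X) * Y ^ Y) := by
    calc N ^ N ≤ (N + 1) * N.choose (2 * X) * ((2 * X) ^ (2 * X) * (X + Y) ^ (X + Y)) := b1
      _ ≤ (N + 1) * N.choose (2 * X) * (((2 * X + 1) * (2 * X).choose X * (X ^ X * X ^ X)) *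
          ((X + Y + 1) * (X + Y).choose X * (X ^ X * Y ^ Y))) :=
          Nat.mul_le_mul_left _ (Nat.mul_le_mul b2 b3)
      _ ≤ (N + 1) * N.choose (2 * X) * (((N + 1) * (2 * X).choose X * (X ^ X * X ^ X)) *
          ((N + 1) * (X + Y).choose X * (X ^ X * Y ^ Y))) := by
          gcongr
      _ = _ := by
          rw [show 3 * X = X + X + X by ring, pow_add, pow_add]
          ring
  have g1 : N ^ N = ((3 * a + c) ^ (3 * a + c)) ^ q * q ^ N := by
    conv_lhs => rw [hN, mul_pow, pow_mul, ← hN]
  have g2 : X ^ (3 * X) * Y ^ Y = (a ^ (3 * a) * c ^ c) ^ q * q ^ N := by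
    have h1 : X ^ (3 * X) = (a ^ (3 * a)) ^ q * q ^ (3 * X) := by
      conv_lhs => rw [hX, mul_pow, ← hX, show 3 * X = (3 * a) * q by rw [hX]; ring, pow_mul]
      rw [show 3 * X = (3 * a) * q by rw [hX]; ring]
    have h2 : Y ^ Y = (c ^ c) ^ q * q ^ Y := by
      conv_lhs => rw [hY, mul_pow, pow_mul, ← hY]
    have h3 : N = 3 * X + Y := by rw [hN, hX, hY]; ring
    rw [h1, h2, mul_pow, h3, pow_add]
    ring
  rw [g1, g2, ← mul_assoc] at key
  exact Nat.le_of_mul_le_mul_right key (by positivity)

end Pool.Agent.P8H46.BS
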