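import Pool.Agent.P8H46.BS.Stm3

/-!
# Package PACK (sphere packing) of the project BS
-/

set_option autoImplicit false

namespace Pool.Agent.P8H46.BS

open Finset

namespace Hw

theorem wt_congr {n : ℕ} {U : Finset (Fin n)} {x y x' y' : V n}
    (h : ∀ i, x i ≠ y i ↔ x' i ≠ y' i) : wt U x y = wt U x' y' := by
  unfold wt
  congr 1
  ext i
  simp only [mem_filter, and_congr_right_iff]
  exact fun _ => h i

theorem wt_comm {n : ℕ} (U : Finset (Fin n)) (x y : V n) : wt U x y = wt U y x :=
  wt_congr fun _ => ne_comm

theorem wt_tri {n : ℕ} (U : Finset (Fin n)) (x y z : V n) :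
    wt U x z ≤ wt U x y + wt U y z := by
  classical
  unfold wt
  refine le_trans (card_le_card ?_) (card_union_le _ _)
  intro i hi
  simp only [mem_filter, mem_union] at hi ⊢
  by_cases h : x i = y i
  · right
    exact ⟨hi.1, h ▸ hi.2⟩
  · left
    exact ⟨hi.1, h⟩

theorem wt_add {n : ℕ} (U : Finset (Fin n)) (x y : V n) : wt U (x + y) 0 = wt U x y := by
  apply wt_congr
  intro i
  have key : ∀ a b : ZMod 2, a + b ≠ 0 ↔ a ≠ b := by decide
  simpa using key (x i) (y i)

theorem wt_shift {n : ℕ} {U : Finset (Fin n)} {x a x' a' : V n} (h : x + a = x' + a') :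
    wt U x x' = wt U a a' := by
  apply wt_congr
  intro i
  have hi : x i + a i = x' i + a' i := congrFun h i
  constructor
  · intro h1 h2
    rw [h2] at hi
    exact h1 (add_right_cancel hi)
  · intro h1 h2
    rw [h2] at hi
    exact h1 (add_left_cancel hi)

theorem mem_Rg {n t : ℕ} {a b : V n} :
    (a, b) ∈ Rg n t ↔ wt univ a 0 ≤ t ∧ wt univ b 0 ≤ t ∧ wt univ a b ≤ t := by
  simp [Rg]

end Hw

open Hw in
theorem pack : S_PACK := by
  classical
  intro n t X o hX
  have hcard : (univ : Finset (V n × V n)).card = 4 ^ n := by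
    rw [card_univ, Fintype.card_prod]
    simp only [Fintype.card_pi, ZMod.card, prod_const, card_univ, Fintype.card_fin]
    rw [← mul_pow]
    norm_num
  rw [← hcard, ← card_product]
  apply card_le_card_of_injOn (fun p => (p.1 + p.2.1, o p.1 + p.2.2))
  · intro p _
    simp
  · rintro ⟨x, a, b⟩ hp ⟨x', a', b'⟩ hp' h
    simp only [coe_product, Set.mem_prod, mem_coe] at hp hp'
    simp only [Prod.mk.injEq] at h
    obtain ⟨h1, h2⟩ := h
    obtain ⟨hx, hab⟩ := hp
    obtain ⟨hx', hab'⟩ := hp'
    rw [mem_Rg] at hab hab'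
    have hxx : x = x' := by
      by_contra hne
      apply hX x hx x' hx' hne
      refine ⟨?_, ?_, ?_⟩
      · rw [wt_shift h1]
        have := wt_tri univ a 0 a'
        have h3 := wt_comm univ (0 : V n) a'
        omega
      · rw [wt_shift h2]
        have := wt_tri univ b 0 b'
        have h3 := wt_comm univ (0 : V n) b'
        omega
      · have h4 : (x + o x) + (a + b) = (x' + o x') + (a' + b') := by
          calc (x + o x) + (a + b) = (x + a) + (o x + b) := by abel
            _ = (x' + a') + (o x' + b') := by rw [h1, h2]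
            _ = _ := by abel
        rw [wt_shift h4]
        have := wt_tri univ (a + b) 0 (a' + b')
        have h3 := wt_comm univ (0 : V n) (a' + b')
        have h5 := wt_add univ a b
        have h6 := wt_add univ a' b'
        omega
    subst hxx
    rw [add_right_inj] at h1 h2
    rw [h1, h2]

end Pool.Agent.P8H46.BS
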