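import Pool.Agent.P8H46.BS.Stm2

/-!
# Package PLOT: Plotkin's bound (written by helper76)
-/

set_option autoImplicit false

namespace Pool.Agent.P8H46.BS

open Finset

/-- sign -/
noncomputable def sg (a : ZMod 2) : ℝ := if a = 0 then 1 else -1

lemma ne_ind (a b : ZMod 2) : (if a ≠ b then (1 : ℝ) else 0) = (1 - sg a * sg b) / 2 := by
  have key : ∀ c : ZMod 2, c = 0 ∨ c = 1 := by decide
  have h10 : (1 : ZMod 2) ≠ 0 := one_ne_zero
  rcases key a with rfl | rfl <;> rcases key b with rfl | rfl <;> simp [sg]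

lemma wt_sum {n : ℕ} (U : Finset (Fin n)) (x y : V n) :
    (wt U x y : ℝ) = ∑ i ∈ U, (1 - sg (x i) * sg (y i)) / 2 := by
  unfold wt
  rw [Finset.card_filter]
  push_cast
  exact Finset.sum_congr rfl fun i _ => ne_ind _ _

/-- Package PLOT -/
theorem plot : S_PLOT := by
  classical
  intro n U ι X g ε hε h
  rcases Nat.lt_or_ge X.card 2 with h2 | h2
  · have h3 : (X.card : ℝ) ≤ 1 := by exact_mod_cast (by omega : X.card ≤ 1)
    have h4 : 0 < 1 / (4 * ε) := by positivity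
    linarith
  set N : ℝ := (X.card : ℝ) with hN
  have hN2 : 2 ≤ N := by rw [hN]; exact_mod_cast h2
  -- upper bound
  have hup : ∑ x ∈ X, ∑ y ∈ X, (wt U (g x) (g y) : ℝ) ≤ (U.card : ℝ) * (N ^ 2 / 2) := by
    have e : ∑ x ∈ X, ∑ y ∈ X, (wt U (g x) (g y) : ℝ) =
        ∑ i ∈ U, (N ^ 2 - (∑ x ∈ X, sg (g x i)) ^ 2) / 2 := by
      calc ∑ x ∈ X, ∑ y ∈ X, (wt U (g x) (g y) : ℝ)
          = ∑ x ∈ X, ∑ y ∈ X, ∑ i ∈ U, (1 - sg (g x i) * sg (g y i)) / 2 :=
            Finset.sum_congr rfl fun x _ => Finset.sum_congr rfl fun y _ => wt_sum U _ _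
        _ = ∑ x ∈ X, ∑ i ∈ U, ∑ y ∈ X, (1 - sg (g x i) * sg (g y i)) / 2 :=
            Finset.sum_congr rfl fun x _ => Finset.sum_comm
        _ = ∑ i ∈ U, ∑ x ∈ X, ∑ y ∈ X, (1 - sg (g x i) * sg (g y i)) / 2 := Finset.sum_comm
        _ = _ := by
          refine Finset.sum_congr rfl fun i _ => ?_
          rw [sq (∑ x ∈ X, sg (g x i)), Finset.sum_mul_sum]
          have e2 : ∀ x ∈ X, ∑ y ∈ X, (1 - sg (g x i) * sg (g y i)) / 2 =
              N / 2 - (∑ y ∈ X, sg (g x i) * sg (g y i)) / 2 := by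
            intro x _
            rw [← Finset.sum_div, Finset.sum_sub_distrib, Finset.sum_const, nsmul_eq_mul, mul_one, sub_div]
          rw [Finset.sum_congr rfl e2, Finset.sum_sub_distrib, Finset.sum_const, nsmul_eq_mul, ← Finset.sum_div]
          ring
    rw [e, ← nsmul_eq_mul]
    refine Finset.sum_le_card_nsmul _ _ _ fun i _ => ?_
    have := sq_nonneg (∑ x ∈ X, sg (g x i))
    linarith
  -- lower bound
  have hlow : N * ((N - 1) * ((1 / 2 + 2 * ε) * (U.card : ℝ))) ≤ ∑ x ∈ X, ∑ y ∈ X, (wt U (g x) (g y) : ℝ) := by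
    rw [hN, ← nsmul_eq_mul]
    refine Finset.card_nsmul_le_sum _ _ _ fun x hx => ?_
    have e1 : ((X.erase x).card : ℝ) = (X.card : ℝ) - 1 := by
      rw [Finset.card_erase_of_mem hx, Nat.cast_sub (by omega), Nat.cast_one]
    rw [← e1, ← nsmul_eq_mul]
    calc (X.erase x).card • ((1 / 2 + 2 * ε) * (U.card : ℝ)) ≤ ∑ y ∈ X.erase x, (wt U (g x) (g y) : ℝ) := by
          refine Finset.card_nsmul_le_sum _ _ _ fun y hy => ?_
          rw [Finset.mem_erase] at hy
          exact (h x hx y hy.2 (Ne.symm hy.1)).le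
      _ ≤ _ := Finset.sum_le_sum_of_subset_of_nonneg (Finset.erase_subset _ _) fun _ _ _ => Nat.cast_nonneg _
  -- U is not empty
  have hU : 0 < (U.card : ℝ) := by
    obtain ⟨x, hx, y, hy, hxy⟩ := Finset.one_lt_card.1 h2
    have h5 := h x hx y hy hxy
    have h6 : (wt U (g x) (g y) : ℝ) ≤ (U.card : ℝ) := by
      exact_mod_cast Finset.card_filter_le _ _
    rcases (Nat.cast_nonneg U.card : (0 : ℝ) ≤ (U.card : ℝ)).eq_or_lt with h7 | h7
    · rw [← h7] at h5 h6
      linarith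
    · exact h7
  have h8 := hlow.trans hup
  have h9 : (N - 1) * (1 / 2 + 2 * ε) ≤ N / 2 := by
    have h10 : N * U.card * ((N - 1) * (1 / 2 + 2 * ε)) ≤ N * U.card * (N / 2) := by
      calc _ = N * ((N - 1) * ((1 / 2 + 2 * ε) * (U.card : ℝ))) := by ring
        _ ≤ _ := h8
        _ = _ := by ring
    exact le_of_mul_le_mul_left h10 (by positivity)
  have h11 : (N - 1) * (4 * ε) ≤ 1 := by nlinarith
  have h12 : N - 1 ≤ 1 / (4 * ε) := by
    rw [le_div_iff₀ (by positivity)]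
    exact h11
  linarith

end Pool.Agent.P8H46.BS
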