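import Pool.Agent.P8H46.BS.Sph

set_option autoImplicit false

namespace Pool.Agent.P8H46.BS

open Finset

variable {n : ℕ}

lemma card_sphere (o : V n) (r : ℕ) : (univ.filter (fun y : V n => wt univ y o = r)).card = n.choose r := by
  classical
  have h : (powersetCard r (univ : Finset (Fin n))).card = n.choose r := by
    rw [card_powersetCard, card_univ, Fintype.card_fin]
  rw [← h]
  refine card_bij' (fun y _ => univ.filter (fun i => y i ≠ o i))
    (fun Y _ => fun i => if i ∈ Y then o i + 1 else o i) ?_ ?_ ?_ ?_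
  · intro y hy
    rw [mem_powersetCard]
    exact ⟨subset_univ _, (mem_filter.1 hy).2⟩
  · intro Y hY
    rw [mem_filter]
    refine ⟨mem_univ _, ?_⟩
    rw [mem_powersetCard] at hY
    rw [← hY.2]
    unfold wt
    congr 1
    ext i
    by_cases hi : i ∈ Y <;> simp [hi]
  · intro y hy
    funext i
    by_cases hi : y i = o i
    · simp [hi]
    · simp only [mem_filter, mem_univ, true_and, ne_eq, hi, not_false_eq_true, if_true]
      have : ∀ a b : ZMod 2, a ≠ b → b + 1 = a := by decide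
      exact this _ _ hi
  · intro Y hY
    ext i
    by_cases hi : i ∈ Y <;> simp [hi]

lemma wt_le (x y : V n) : wt univ x y ≤ n := by
  unfold wt
  exact (card_le_univ _).trans (by rw [Fintype.card_fin])

lemma wt_compl (y o : V n) : wt univ y (o + 1) = n - wt univ y o := by
  classical
  unfold wt
  have h := card_filter_add_card_filter_not (s := (univ : Finset (Fin n))) (fun i => y i ≠ o i)
  rw [card_univ, Fintype.card_fin] at h
  have e : univ.filter (fun i => y i ≠ (o + 1) i) = univ.filter (fun i => ¬ y i ≠ o i) := by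
    ext i
    simp only [mem_filter, mem_univ, true_and, Pi.add_apply, Pi.one_apply]
    have : ∀ a b : ZMod 2, (a ≠ b + 1 ↔ ¬ a ≠ b) := by decide
    exact this _ _
  rw [e]
  omega

lemma card_rows (A : Finset (V n × V n)) :
    (A.card : ℝ) = ∑ x, ((univ.filter (fun y => (x, y) ∈ A)).card : ℝ) := by
  classical
  have h1 : A.card = ∑ x, (univ.filter (fun y => (x, y) ∈ A)).card := by
    rw [← card_sigma]
    refine card_bij' (fun p _ => ⟨p.1, p.2⟩) (fun q _ => (q.1, q.2)) ?_ ?_ ?_ ?_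
    · intro p hp
      simp [hp]
    · intro q hq
      simpa using hq
    · intro p _
      rfl
    · intro q _
      rfl
  exact_mod_cast h1

/-- The rows which contain a sphere of radius `r`. -/
noncomputable def Xr (A : Finset (V n × V n)) (r : ℕ) : Finset (V n) := by
  classical
  exact univ.filter (fun x => ∃ o : V n, ∀ y, wt univ y o = r → (x, y) ∈ A)

lemma mem_Xr (A : Finset (V n × V n)) (r : ℕ) (x : V n) :
    x ∈ Xr A r ↔ ∃ o : V n, ∀ y, wt univ y o = r → (x, y) ∈ A := by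
  simp [Xr]

lemma Xr_symm (A : Finset (V n × V n)) (r : ℕ) (hr : r ≤ n) : Xr A r ⊆ Xr A (n - r) := by
  intro x hx
  rw [mem_Xr] at hx ⊢
  obtain ⟨o, ho⟩ := hx
  refine ⟨o + 1, fun y hy => ho y ?_⟩
  rw [wt_compl] at hy
  have := wt_le y o
  omega

/-- the weight of the radius `r` -/
noncomputable def fr (A : Finset (V n × V n)) (r : ℕ) : ℝ := ((Xr A r).card : ℝ) * (n.choose r : ℝ)

lemma fr_nonneg (A : Finset (V n × V n)) (r : ℕ) : 0 ≤ fr A r := by
  unfold fr
  positivity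

lemma row_le {T : ℕ} (A : Finset (V n × V n)) (P : V n → Fin T → Set (V n))
    (hP : ∀ x t, ∃ o : V n, ∀ y y', wt univ y o = wt univ y' o → (y ∈ P x t ↔ y' ∈ P x t))
    (h : ∀ x y, (x, y) ∈ A ↔ ∃ t, y ∈ P x t) :
    (A.card : ℝ) ≤ T * ∑ r ∈ range (n + 1), fr A r := by
  classical
  rw [card_rows A]
  have hrow : ∀ x, ((univ.filter (fun y => (x, y) ∈ A)).card : ℝ) ≤
      T * ∑ r ∈ range (n + 1), if x ∈ Xr A r then (n.choose r : ℝ) else 0 := by
    intro x
    choose o ho using hP x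
    have hsub : univ.filter (fun y => (x, y) ∈ A) ⊆ (univ : Finset (Fin T)).biUnion
        (fun t => ((range (n + 1)).filter (fun r => x ∈ Xr A r)).biUnion
          (fun r => univ.filter (fun y : V n => wt univ y (o t) = r))) := by
      intro y hy
      have hy' : (x, y) ∈ A := (mem_filter.1 hy).2
      obtain ⟨t, ht⟩ := (h x y).1 hy'
      rw [mem_biUnion]
      refine ⟨t, mem_univ _, ?_⟩
      rw [mem_biUnion]
      refine ⟨wt univ y (o t), ?_, ?_⟩
      · rw [mem_filter, mem_range, mem_Xr]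
        refine ⟨Nat.lt_succ_of_le (wt_le _ _), o t, fun y' hy' => ?_⟩
        exact (h x y').2 ⟨t, (ho t y' y hy').2 ht⟩
      · rw [mem_filter]
        exact ⟨mem_univ _, rfl⟩
    have h1 : (univ.filter (fun y => (x, y) ∈ A)).card ≤ ∑ t : Fin T,
        ∑ r ∈ (range (n + 1)).filter (fun r => x ∈ Xr A r), n.choose r := by
      refine (card_le_card hsub).trans (card_biUnion_le.trans (sum_le_sum fun t _ => ?_))
      refine card_biUnion_le.trans (sum_le_sum fun r _ => ?_)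
      rw [card_sphere]
    rw [sum_const, card_univ, Fintype.card_fin, smul_eq_mul, sum_filter] at h1
    have h2 : ((univ.filter (fun y => (x, y) ∈ A)).card : ℝ) ≤
        ((T * ∑ r ∈ range (n + 1), if x ∈ Xr A r then n.choose r else 0 : ℕ) : ℝ) := by
      exact_mod_cast h1
    refine h2.trans (le_of_eq ?_)
    push_cast
    rfl
  refine (sum_le_sum fun x _ => hrow x).trans (le_of_eq ?_)
  rw [← mul_sum, sum_comm]
  congr 1
  refine sum_congr rfl fun r _ => ?_
  rw [sum_ite_mem, univ_inter, sum_const, nsmul_eq_mul]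
  rfl

lemma half_range (A : Finset (V n × V n)) :
    ∑ r ∈ range (n + 1), fr A r ≤ 2 * ∑ r ∈ (range (n + 1)).filter (fun r => 2 * r ≤ n), fr A r := by
  classical
  have h1 := sum_filter_add_sum_filter_not (range (n + 1)) (fun r => 2 * r ≤ n) (fun r => fr A r)
  have h2 : ∑ r ∈ (range (n + 1)).filter (fun r => ¬ 2 * r ≤ n), fr A r ≤
      ∑ r ∈ (range (n + 1)).filter (fun r => 2 * r ≤ n), fr A r := by
    rw [sum_filter, sum_filter]
    rw [← sum_range_reflect]
    refine sum_le_sum fun r hr => ?_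
    rw [mem_range] at hr
    have e : n + 1 - 1 - r = n - r := by omega
    rw [e]
    by_cases hc : 2 * r ≤ n
    · rw [if_pos hc]
      have h3 : (Xr A (n - r)).card ≤ (Xr A r).card := by
        refine card_le_card ?_
        have := Xr_symm A (n - r) (by omega)
        rwa [show n - (n - r) = r by omega] at this
      have h4 : fr A (n - r) ≤ fr A r := by
        unfold fr
        rw [Nat.choose_symm (by omega : r ≤ n)]
        exact mul_le_mul_of_nonneg_right (by exact_mod_cast h3) (by positivity)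
      split_ifs
      · exact fr_nonneg _ _
      · exact h4
    · rw [if_neg hc, if_neg (by omega)]
  linarith

/-- one interval of radii -/
lemma interval_le (hEQ : S_EQ) (hPK : S_PACK) (hRL : S_RLOW) (hMU : S_MULT) (hTR : S_TRICK)
    {A : Finset (V n × V n)} (hA : CF A) (a p q : ℕ) (u v : ℝ) (ha : 3 * a ≤ 200) (hu : 1 ≤ u)
    (hv : u ^ p * (1 + 1 * (u⁻¹) ^ q) ≤ v) (hv1 : 1 ≤ v) (hv2 : v ≤ 2) (hq : 0 < q)
    (hnum : (4 * v) ^ 200 * ((a ^ (3 * a) * (200 - 3 * a) ^ (200 - 3 * a) : ℕ) : ℝ) ≤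
      (2.9599 : ℝ) ^ 200 * ((200 ^ 200 : ℕ) : ℝ)) :
    ∑ r ∈ (range (n + 1)).filter (fun r => 2 * a * n ≤ 200 * r ∧ 2 * r ≤ n ∧ q * r ≤ p * n),
      fr A r ≤ 4 * 8 ^ 200 * ((n : ℝ) + 1) ^ 3 * (2.9599 : ℝ) ^ n := by
  classical
  set k := n / 200 with hk
  set i := n % 200 with hi
  have hn : n = 200 * k + i := (Nat.div_add_mod n 200).symm
  have hi' : i < 200 := Nat.mod_lt _ (by norm_num)
  set D : ℝ := ((a ^ (3 * a) * (200 - 3 * a) ^ (200 - 3 * a) : ℕ) : ℝ) with hD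
  set B : ℝ := ((200 ^ 200 : ℕ) : ℝ) with hB
  have hB0 : (0 : ℝ) < B := by rw [hB]; positivity
  have hD0 : (0 : ℝ) ≤ D := by rw [hD]; positivity
  -- the number of rows
  have hrows : ∀ r, 2 * a * n ≤ 200 * r → 2 * r ≤ n →
      ((Xr A r).card : ℝ) * B ^ k ≤ 4 * 4 ^ n * ((n : ℝ) + 1) ^ 3 * D ^ k := by
    intro r hr hr2
    have h1 := pack_rows hEQ hPK hA r hr2 (Xr A r) (fun x hx => (mem_Xr A r x).1 hx)
    have h2 := hRL n (a * k)
    have h3 := hMU a 200 k ha
    have hle : 2 * (a * k) ≤ r := by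
      have : 2 * a * (200 * k) ≤ 200 * r := le_trans (Nat.mul_le_mul_left _ (by omega)) hr
      nlinarith
    have h4 : (Rg n (2 * (a * k))).card ≤ (Rg n r).card := by
      refine card_le_card fun p hp => ?_
      simp only [Rg, mem_filter, mem_univ, true_and] at hp ⊢
      exact ⟨hp.1.trans hle, hp.2.1.trans hle, hp.2.2.trans hle⟩
    have hkn : 200 * k ≤ n := by omega
    have h5 : (200 * k).choose (2 * (a * k)) * (2 * (a * k)).choose (a * k) *
        (200 * k - 2 * (a * k)).choose (a * k) ≤ (Rg n r).card := by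
      refine le_trans ?_ (h2.trans h4)
      refine Nat.mul_le_mul (Nat.mul_le_mul_right _ (Nat.choose_le_choose _ hkn))
        (Nat.choose_le_choose _ (Nat.sub_le_sub_right hkn _))
    have h6 : (Xr A r).card * (200 ^ 200) ^ k ≤
        4 * 4 ^ n * (n + 1) ^ 3 * (a ^ (3 * a) * (200 - 3 * a) ^ (200 - 3 * a)) ^ k := by
      calc (Xr A r).card * (200 ^ 200) ^ k ≤ (Xr A r).card * ((200 * k + 1) ^ 3 *
            ((200 * k).choose (2 * (a * k)) * (2 * (a * k)).choose (a * k) *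
            (200 * k - 2 * (a * k)).choose (a * k)) *
            (a ^ (3 * a) * (200 - 3 * a) ^ (200 - 3 * a)) ^ k) := Nat.mul_le_mul_left _ h3
        _ ≤ (Xr A r).card * ((n + 1) ^ 3 * (Rg n r).card *
            (a ^ (3 * a) * (200 - 3 * a) ^ (200 - 3 * a)) ^ k) := by
            refine Nat.mul_le_mul_left _ (Nat.mul_le_mul_right _ (Nat.mul_le_mul
              (Nat.pow_le_pow_left (by omega) _) h5))
        _ = ((Xr A r).card * (Rg n r).card) * ((n + 1) ^ 3 *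
            (a ^ (3 * a) * (200 - 3 * a) ^ (200 - 3 * a)) ^ k) := by ring
        _ ≤ (4 * 4 ^ n) * ((n + 1) ^ 3 *
            (a ^ (3 * a) * (200 - 3 * a) ^ (200 - 3 * a)) ^ k) := Nat.mul_le_mul_right _ h1
        _ = _ := by ring
    have h7 : (((Xr A r).card * (200 ^ 200) ^ k : ℕ) : ℝ) ≤
        ((4 * 4 ^ n * (n + 1) ^ 3 * (a ^ (3 * a) * (200 - 3 * a) ^ (200 - 3 * a)) ^ k : ℕ) : ℝ) :=
      Nat.cast_le.2 h6
    rw [Nat.cast_mul, Nat.cast_pow, ← hB, Nat.cast_mul, Nat.cast_pow, ← hD] at h7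
    push_cast at h7
    exact h7
  clear_value D B
  -- the sum of the binomial coefficients
  set S := (range (n + 1)).filter (fun r => 2 * a * n ≤ 200 * r ∧ 2 * r ≤ n ∧ q * r ≤ p * n) with hS
  have hbin : ∑ r ∈ S, (n.choose r : ℝ) ≤ v ^ n := by
    have h1 := hTR n (p * n / q) p q 1 u (by norm_num) hu (Nat.mul_div_le _ _)
    simp only [one_pow, mul_one] at h1
    refine le_trans ?_ (h1.trans (pow_le_pow_left₀ (by positivity) (by simpa using hv) n))
    refine sum_le_sum_of_subset_of_nonneg ?_ fun _ _ _ => by positivity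
    intro r hr
    rw [hS, mem_filter] at hr
    rw [mem_range, Nat.lt_succ_iff, Nat.le_div_iff_mul_le hq, mul_comm]
    exact hr.2.2.2
  have hsum : (∑ r ∈ S, fr A r) * B ^ k ≤ 4 * 4 ^ n * ((n : ℝ) + 1) ^ 3 * D ^ k * v ^ n := by
    calc (∑ r ∈ S, fr A r) * B ^ k = ∑ r ∈ S, (((Xr A r).card : ℝ) * B ^ k) * (n.choose r : ℝ) := by
          rw [sum_mul]
          refine sum_congr rfl fun r _ => ?_
          unfold fr
          ring
      _ ≤ ∑ r ∈ S, (4 * 4 ^ n * ((n : ℝ) + 1) ^ 3 * D ^ k) * (n.choose r : ℝ) := by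
          refine sum_le_sum fun r hr => mul_le_mul_of_nonneg_right ?_ (by positivity)
          rw [hS, mem_filter] at hr
          exact hrows r hr.2.1 hr.2.2.1
      _ = (4 * 4 ^ n * ((n : ℝ) + 1) ^ 3 * D ^ k) * ∑ r ∈ S, (n.choose r : ℝ) := by rw [mul_sum]
      _ ≤ _ := mul_le_mul_of_nonneg_left hbin (by positivity)
  have hfin : 4 * 4 ^ n * ((n : ℝ) + 1) ^ 3 * D ^ k * v ^ n ≤
      (4 * 8 ^ 200 * ((n : ℝ) + 1) ^ 3 * (2.9599 : ℝ) ^ n) * B ^ k := by
    have e1 : (4 : ℝ) ^ n * D ^ k * v ^ n = ((4 * v) ^ 200 * D) ^ k * (4 * v) ^ i := by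
      rw [mul_pow ((4 * v) ^ 200), ← pow_mul]
      have : (4 : ℝ) ^ n * v ^ n = (4 * v) ^ (200 * k) * (4 * v) ^ i := by
        rw [← mul_pow, ← pow_add, ← hn]
      calc (4 : ℝ) ^ n * D ^ k * v ^ n = ((4 : ℝ) ^ n * v ^ n) * D ^ k := by ring
        _ = _ := by rw [this]; ring
    have e2 : ((4 * v) ^ 200 * D) ^ k ≤ ((2.9599 : ℝ) ^ 200 * B) ^ k :=
      pow_le_pow_left₀ (mul_nonneg (pow_nonneg (by linarith) _) hD0) hnum k
    have e3 : (4 * v) ^ i ≤ (8 : ℝ) ^ 200 := by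
      have hi2 : i ≤ 200 := by omega
      have g1 : (4 * v) ^ i ≤ (8 : ℝ) ^ i := pow_le_pow_left₀ (by positivity) (by linarith) i
      have g2 : (8 : ℝ) ^ i ≤ (8 : ℝ) ^ 200 := pow_le_pow_right₀ (by norm_num : (1 : ℝ) ≤ 8) hi2
      exact g1.trans g2
    have e4 : ((2.9599 : ℝ) ^ 200 * B) ^ k ≤ (2.9599 : ℝ) ^ n * B ^ k := by
      rw [mul_pow, ← pow_mul]
      refine mul_le_mul_of_nonneg_right (pow_le_pow_right₀ (by norm_num) (by omega)) (by positivity)
    have e5 : (4 : ℝ) ^ n * D ^ k * v ^ n ≤ ((2.9599 : ℝ) ^ n * B ^ k) * 8 ^ 200 := by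
      rw [e1]
      exact mul_le_mul (e2.trans e4) e3 (by positivity) (by positivity)
    calc 4 * 4 ^ n * ((n : ℝ) + 1) ^ 3 * D ^ k * v ^ n =
          (4 * ((n : ℝ) + 1) ^ 3) * ((4 : ℝ) ^ n * D ^ k * v ^ n) := by ring
      _ ≤ (4 * ((n : ℝ) + 1) ^ 3) * (((2.9599 : ℝ) ^ n * B ^ k) * 8 ^ 200) :=
          mul_le_mul_of_nonneg_left e5 (by positivity)
      _ = _ := by ring
  exact le_of_mul_le_mul_right (hsum.trans hfin) (by positivity)

/-- the small radii -/
lemma small_le (hTR : S_TRICK) (A : Finset (V n × V n)) :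
    ∑ r ∈ (range (n + 1)).filter (fun r => 100 * r ≤ 13 * n), fr A r ≤ (2.9599 : ℝ) ^ n := by
  classical
  have h1 := hTR n (13 * n / 100) 13 100 1 1.019 (by norm_num) (by norm_num) (Nat.mul_div_le _ _)
  simp only [one_pow, mul_one, one_mul] at h1
  have h2 : (1.019 : ℝ) ^ 13 * (1 + (1.019⁻¹) ^ 100) ≤ 1.4717 := by norm_num
  have h3 : ∑ r ∈ (range (n + 1)).filter (fun r => 100 * r ≤ 13 * n), (n.choose r : ℝ) ≤
      1.4717 ^ n := by
    refine le_trans ?_ (h1.trans (pow_le_pow_left₀ (by positivity) h2 n))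
    refine sum_le_sum_of_subset_of_nonneg ?_ fun _ _ _ => by positivity
    intro r hr
    rw [mem_filter] at hr
    rw [mem_range, Nat.lt_succ_iff, Nat.le_div_iff_mul_le (by norm_num), mul_comm]
    exact hr.2
  have hV : (Fintype.card (V n) : ℝ) = 2 ^ n := by simp [ZMod.card]
  have h4 : ∀ r, fr A r ≤ 2 ^ n * (n.choose r : ℝ) := by
    intro r
    unfold fr
    refine mul_le_mul_of_nonneg_right ?_ (by positivity)
    rw [← hV]
    exact_mod_cast card_le_univ _
  calc _ ≤ ∑ r ∈ (range (n + 1)).filter (fun r => 100 * r ≤ 13 * n), 2 ^ n * (n.choose r : ℝ) :=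
        sum_le_sum fun r _ => h4 r
    _ = 2 ^ n * ∑ r ∈ (range (n + 1)).filter (fun r => 100 * r ≤ 13 * n), (n.choose r : ℝ) := by
        rw [mul_sum]
    _ ≤ 2 ^ n * 1.4717 ^ n := mul_le_mul_of_nonneg_left h3 (by positivity)
    _ = (2 * 1.4717 : ℝ) ^ n := by rw [mul_pow]
    _ ≤ _ := pow_le_pow_left₀ (by norm_num) (by norm_num) n

lemma absorb (K : ℝ) : ∃ C : ℝ, ∀ n : ℕ, K * ((n : ℝ) + 1) ^ 3 * (2.9599 : ℝ) ^ n ≤
    C * (2.96 : ℝ) ^ n := by
  have h := tendsto_pow_const_mul_const_pow_of_abs_lt_one 3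
    (r := (2.9599 / 2.96 : ℝ)) (by rw [abs_of_pos (by norm_num)]; norm_num)
  obtain ⟨c, hc⟩ := h.bddAbove_range
  rw [mem_upperBounds] at hc
  refine ⟨|K| * c * (2.96 / 2.9599), fun n => ?_⟩
  have h1 := hc _ ⟨n + 1, rfl⟩
  simp only [Nat.cast_add, Nat.cast_one] at h1
  have h2 : ((n : ℝ) + 1) ^ 3 * (2.9599 : ℝ) ^ n = (((n : ℝ) + 1) ^ 3 * (2.9599 / 2.96) ^ (n + 1)) *
      ((2.96 / 2.9599) * 2.96 ^ n) := by
    rw [pow_succ (2.9599 / 2.96 : ℝ) n, div_pow]
    field_simp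
  calc K * ((n : ℝ) + 1) ^ 3 * (2.9599 : ℝ) ^ n ≤ |K| * (((n : ℝ) + 1) ^ 3 * (2.9599 : ℝ) ^ n) := by
        rw [mul_assoc]
        exact mul_le_mul_of_nonneg_right (le_abs_self K) (by positivity)
    _ = |K| * ((((n : ℝ) + 1) ^ 3 * (2.9599 / 2.96) ^ (n + 1)) *
      ((2.96 / 2.9599) * 2.96 ^ n)) := by rw [h2]
    _ ≤ |K| * (c * ((2.96 / 2.9599) * 2.96 ^ n)) := by
        refine mul_le_mul_of_nonneg_left (mul_le_mul_of_nonneg_right h1 (by positivity))
          (abs_nonneg _)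
    _ = _ := by ring

theorem radial_main (hEQ : S_EQ) (hPK : S_PACK) (hRL : S_RLOW) (hMU : S_MULT) (hTR : S_TRICK) :
    ∃ C : ℝ, ∀ (n T : ℕ) (A : Finset (V n × V n)), CF A → ∀ P : V n → Fin T → Set (V n),
      (∀ x t, ∃ o : V n, ∀ y y', wt univ y o = wt univ y' o → (y ∈ P x t ↔ y' ∈ P x t)) →
      (∀ x y, (x, y) ∈ A ↔ ∃ t, y ∈ P x t) →
      (A.card : ℝ) ≤ C * T * (2.96 : ℝ) ^ n := by
  classical
  obtain ⟨C, hC⟩ := absorb (2 * (1 + 5 * (4 * 8 ^ 200)))
  refine ⟨C, fun n T A hA P hP h => ?_⟩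
  have h0 := row_le A P hP h
  have h1 := half_range A
  set E : ℝ := 4 * 8 ^ 200 * ((n : ℝ) + 1) ^ 3 * (2.9599 : ℝ) ^ n with hE
  have i0 := small_le hTR A
  have i1 : _ ≤ E := interval_le hEQ hPK hRL hMU hTR hA 13 7 50 1.037 1.49925 (by norm_num)
    (by norm_num) (by norm_num) (by norm_num) (by norm_num) (by norm_num) (by norm_num)
  have i2 : _ ≤ E := interval_le hEQ hPK hRL hMU hTR hA 14 4 25 1.07 1.55231 (by norm_num)
    (by norm_num) (by norm_num) (by norm_num) (by norm_num) (by norm_num) (by norm_num)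
  have i3 : _ ≤ E := interval_le hEQ hPK hRL hMU hTR hA 16 1 5 1.32 1.64939 (by norm_num)
    (by norm_num) (by norm_num) (by norm_num) (by norm_num) (by norm_num) (by norm_num)
  have i4 : _ ≤ E := interval_le hEQ hPK hRL hMU hTR hA 20 33 100 1.007 1.8855 (by norm_num)
    (by norm_num) (by norm_num) (by norm_num) (by norm_num) (by norm_num) (by norm_num)
  have i5 : _ ≤ E := interval_le hEQ hPK hRL hMU hTR hA 33 1 2 1 2 (by norm_num)
    (by norm_num) (by norm_num) (by norm_num) (by norm_num) (by norm_num) (by norm_num)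
  have hcov : ∑ r ∈ (range (n + 1)).filter (fun r => 2 * r ≤ n), fr A r ≤
      (2.9599 : ℝ) ^ n + 5 * E := by
    have hs : (range (n + 1)).filter (fun r => 2 * r ≤ n) ⊆
        ((range (n + 1)).filter (fun r => 100 * r ≤ 13 * n)) ∪
        (((range (n + 1)).filter (fun r => 2 * 13 * n ≤ 200 * r ∧ 2 * r ≤ n ∧ 50 * r ≤ 7 * n)) ∪
        (((range (n + 1)).filter (fun r => 2 * 14 * n ≤ 200 * r ∧ 2 * r ≤ n ∧ 25 * r ≤ 4 * n)) ∪
        (((range (n + 1)).filter (fun r => 2 * 16 * n ≤ 200 * r ∧ 2 * r ≤ n ∧ 5 * r ≤ 1 * n)) ∪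
        (((range (n + 1)).filter (fun r => 2 * 20 * n ≤ 200 * r ∧ 2 * r ≤ n ∧ 100 * r ≤ 33 * n)) ∪
        ((range (n + 1)).filter (fun r => 2 * 33 * n ≤ 200 * r ∧ 2 * r ≤ n ∧ 2 * r ≤ 1 * n)))))) := by
      intro r hr
      rw [mem_filter] at hr
      simp only [mem_union, mem_filter, hr.1, true_and]
      omega
    have hun : ∀ S S' : Finset ℕ, ∑ r ∈ S ∪ S', fr A r ≤ ∑ r ∈ S, fr A r + ∑ r ∈ S', fr A r := by
      intro S S'
      rw [← sum_union_inter]
      have : 0 ≤ ∑ r ∈ S ∩ S', fr A r := sum_nonneg fun r _ => fr_nonneg A r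
      linarith
    refine (sum_le_sum_of_subset_of_nonneg hs fun r _ _ => fr_nonneg A r).trans ?_
    refine (hun _ _).trans ?_
    have g1 := hun ((range (n + 1)).filter (fun r => 2 * 13 * n ≤ 200 * r ∧ 2 * r ≤ n ∧ 50 * r ≤ 7 * n)) _
      |>.trans (add_le_add i1 ((hun ((range (n + 1)).filter (fun r => 2 * 14 * n ≤ 200 * r ∧ 2 * r ≤ n ∧ 25 * r ≤ 4 * n)) _).trans
      (add_le_add i2 ((hun ((range (n + 1)).filter (fun r => 2 * 16 * n ≤ 200 * r ∧ 2 * r ≤ n ∧ 5 * r ≤ 1 * n)) _).trans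
      (add_le_add i3 ((hun ((range (n + 1)).filter (fun r => 2 * 20 * n ≤ 200 * r ∧ 2 * r ≤ n ∧ 100 * r ≤ 33 * n)) _).trans
      (add_le_add i4 i5)))))))
    linarith [add_le_add i0 g1]
  have hT : (0 : ℝ) ≤ T := by positivity
  have hn1 : (1 : ℝ) ≤ ((n : ℝ) + 1) ^ 3 := one_le_pow₀ (by linarith [(Nat.cast_nonneg n : (0 : ℝ) ≤ n)])
  have h2 : ∑ r ∈ range (n + 1), fr A r ≤
      2 * (1 + 5 * (4 * 8 ^ 200)) * ((n : ℝ) + 1) ^ 3 * (2.9599 : ℝ) ^ n := by
    have h3 : (2.9599 : ℝ) ^ n ≤ ((n : ℝ) + 1) ^ 3 * (2.9599 : ℝ) ^ n :=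
      le_mul_of_one_le_left (by positivity) hn1
    calc _ ≤ 2 * ((2.9599 : ℝ) ^ n + 5 * E) := h1.trans (mul_le_mul_of_nonneg_left hcov (by norm_num))
      _ ≤ 2 * (((n : ℝ) + 1) ^ 3 * (2.9599 : ℝ) ^ n + 5 * E) := by linarith
      _ = _ := by rw [hE]; ring
  calc (A.card : ℝ) ≤ T * ∑ r ∈ range (n + 1), fr A r := h0
    _ ≤ T * (C * (2.96 : ℝ) ^ n) := mul_le_mul_of_nonneg_left (h2.trans (hC n)) hT
    _ = _ := by ring

end Pool.Agent.P8H46.BS
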