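import Pool.Agent.P8H46.BS.Stm2

/-!
# Package RAMSEY: three colours (written by helper76)
-/

set_option autoImplicit false

namespace Pool.Agent.P8H46.BS

open Finset

lemma ramsey_aux (ι : Type) (c : ι → ι → Fin 3) (hc : ∀ x y, c x y = c y x) :
    ∀ (s : ℕ) (a : Fin 3 → ℕ) (X : Finset ι), ∑ k, a k = s → 3 ^ s ≤ X.card →
      ∃ (k : Fin 3) (S : Finset ι), S ⊆ X ∧ S.card = a k + 1 ∧ ∀ x ∈ S, ∀ y ∈ S, x ≠ y → c x y = k := by
  classical
  intro s
  induction s with
  | zero =>
    intro a X ha hX
    obtain ⟨v, hv⟩ := Finset.card_pos.1 (by omega : 0 < X.card)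
    have h0 : a 0 = 0 := by
      have := Finset.sum_eq_zero_iff.1 ha 0 (Finset.mem_univ _)
      exact this
    refine ⟨0, {v}, Finset.singleton_subset_iff.2 hv, by rw [Finset.card_singleton, h0], ?_⟩
    intro x hx y hy hxy
    rw [Finset.mem_singleton] at hx hy
    exact absurd (hx.trans hy.symm) hxy
  | succ s ih =>
    intro a X ha hX
    obtain ⟨v, hv⟩ := Finset.card_pos.1 (lt_of_lt_of_le (by positivity) hX : 0 < X.card)
    by_cases h0 : ∃ k, a k = 0
    · obtain ⟨k, hk⟩ := h0
      refine ⟨k, {v}, Finset.singleton_subset_iff.2 hv, by rw [Finset.card_singleton, hk], ?_⟩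
      intro x hx y hy hxy
      rw [Finset.mem_singleton] at hx hy
      exact absurd (hx.trans hy.symm) hxy
    · push Not at h0
      have hsum : ∑ k : Fin 3, ((X.erase v).filter (fun y => c v y = k)).card = (X.erase v).card :=
        (Finset.card_eq_sum_card_fiberwise (f := fun y => c v y) (t := Finset.univ)
          (fun _ _ => Finset.mem_coe.2 (Finset.mem_univ _))).symm
      have hex : ∃ k : Fin 3, 3 ^ s ≤ ((X.erase v).filter (fun y => c v y = k)).card := by
        by_contra hcon
        push Not at hcon
        have e0 := hcon 0
        have e1 := hcon 1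
        have e2 := hcon 2
        rw [Fin.sum_univ_three, Finset.card_erase_of_mem hv] at hsum
        rw [pow_succ] at hX
        omega
      obtain ⟨k, hk⟩ := hex
      have hk0 : a k ≠ 0 := h0 k
      have ha' : ∑ j, Function.update a k (a k - 1) j = s := by
        have e1 := Finset.sum_erase_add Finset.univ a (Finset.mem_univ k)
        have e2 := Finset.sum_erase_add Finset.univ (Function.update a k (a k - 1)) (Finset.mem_univ k)
        have e3 : ∑ j ∈ Finset.univ.erase k, Function.update a k (a k - 1) j = ∑ j ∈ Finset.univ.erase k, a j :=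
          Finset.sum_congr rfl fun j hj => Function.update_of_ne (Finset.ne_of_mem_erase hj) _ _
        rw [Function.update_self] at e2
        omega
      obtain ⟨j, S, hS, hcard, hcl⟩ := ih _ _ ha' hk
      have hSX : S ⊆ X := hS.trans ((Finset.filter_subset _ _).trans (Finset.erase_subset _ _))
      have hSv : v ∉ S := fun h => Finset.notMem_erase v X (Finset.mem_filter.1 (hS h)).1
      by_cases hjk : j = k
      · subst hjk
        rw [Function.update_self] at hcard
        refine ⟨j, insert v S, Finset.insert_subset hv hSX, ?_, ?_⟩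
        · rw [Finset.card_insert_of_notMem hSv, hcard]
          omega
        · intro x hx y hy hxy
          rw [Finset.mem_insert] at hx hy
          rcases hx with rfl | hx
          · rcases hy with rfl | hy
            · exact absurd rfl hxy
            · exact (Finset.mem_filter.1 (hS hy)).2
          · rcases hy with rfl | hy
            · rw [hc]
              exact (Finset.mem_filter.1 (hS hx)).2
            · exact hcl x hx y hy hxy
      · rw [Function.update_of_ne hjk] at hcard
        exact ⟨j, S, hSX, hcard, hcl⟩

/-- Package RAMSEY -/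
theorem ramsey : S_RAMSEY := by
  intro ι X c M hc hX
  exact ramsey_aux ι c hc (3 * M) (fun _ => M) X (by simp) hX

end Pool.Agent.P8H46.BS
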