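import Pool.Agent.P8H46.BS.Stm

/-!
# Package RANK: sets of vectors distinguished by parities (written by helper76)
-/

set_option autoImplicit false

namespace Pool.Agent.P8H46.BS

open Finset

section

variable {n : ℕ}

/-- the monomial of `I` -/
def mnm (I : Finset (Fin n)) : V n → ZMod 2 := fun y => ∏ i ∈ I, y i

/-- the functions of degree at most `J` -/
def degLe (n J : ℕ) : Submodule (ZMod 2) (V n → ZMod 2) :=
  Submodule.span (ZMod 2) (Set.range fun I : {I : Finset (Fin n) // I.card ≤ J} => mnm I.1)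

lemma sq_eq (a : ZMod 2) : a * a = a := by
  fin_cases a <;> rfl

lemma mnm_mul (I I' : Finset (Fin n)) : mnm I * mnm I' = mnm (I ∪ I') := by
  funext y
  show (∏ i ∈ I, y i) * (∏ i ∈ I', y i) = ∏ i ∈ I ∪ I', y i
  rw [← Finset.prod_union_inter]
  have h : (I ∪ I') = (I ∪ I') \ (I ∩ I') ∪ (I ∩ I') := by
    rw [Finset.sdiff_union_of_subset (Finset.inter_subset_union)]
  have hd : Disjoint ((I ∪ I') \ (I ∩ I')) (I ∩ I') := Finset.sdiff_disjoint
  rw [h, Finset.prod_union hd, mul_assoc, ← Finset.prod_mul_distrib]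
  congr 1
  exact Finset.prod_congr rfl fun i _ => sq_eq _

lemma mnm_mem {I : Finset (Fin n)} {J : ℕ} (h : I.card ≤ J) : mnm I ∈ degLe n J :=
  Submodule.subset_span ⟨⟨I, h⟩, rfl⟩

lemma degLe_mul {a b : ℕ} {f g : V n → ZMod 2} (hf : f ∈ degLe n a) (hg : g ∈ degLe n b) :
    f * g ∈ degLe n (a + b) := by
  unfold degLe at hf hg
  induction hf using Submodule.span_induction with
  | mem x hx =>
    obtain ⟨I, rfl⟩ := hx
    induction hg using Submodule.span_induction with
    | mem y hy =>
      obtain ⟨I', rfl⟩ := hy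
      show mnm I.1 * mnm I'.1 ∈ _
      rw [mnm_mul]
      exact mnm_mem ((Finset.card_union_le _ _).trans (add_le_add I.2 I'.2))
    | zero => rw [mul_zero]; exact Submodule.zero_mem _
    | add y z _ _ hy hz => rw [mul_add]; exact Submodule.add_mem _ hy hz
    | smul c y _ hy => rw [mul_smul_comm]; exact Submodule.smul_mem _ _ hy
  | zero => rw [zero_mul]; exact Submodule.zero_mem _
  | add y z _ _ hy hz => rw [add_mul]; exact Submodule.add_mem _ hy hz
  | smul c y _ hy => rw [smul_mul_assoc]; exact Submodule.smul_mem _ _ hy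

lemma one_eq : (1 : V n → ZMod 2) = mnm ∅ := by
  funext y
  simp [mnm]

lemma one_mem (J : ℕ) : (1 : V n → ZMod 2) ∈ degLe n J := by
  rw [one_eq]
  exact mnm_mem (by simp)

lemma coord_mem (i : Fin n) : (fun y : V n => y i) ∈ degLe n 1 := by
  have h : (fun y : V n => y i) = mnm {i} := by
    funext y
    simp [mnm]
  rw [h]
  exact mnm_mem (by simp)

lemma affine_mem (c : ZMod 2) (S : Finset (Fin n)) (u : Fin n → ZMod 2) :
    (fun y : V n => c + ∑ i ∈ S, (u i + y i)) ∈ degLe n 1 := by
  have h : (fun y : V n => c + ∑ i ∈ S, (u i + y i)) =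
      (c + ∑ i ∈ S, u i) • (1 : V n → ZMod 2) + ∑ i ∈ S, (fun y : V n => y i) := by
    funext y
    simp only [Pi.add_apply, Pi.smul_apply, Pi.one_apply, Finset.sum_apply, smul_eq_mul, mul_one,
      Finset.sum_add_distrib]
    ring
  rw [h]
  exact Submodule.add_mem _ (Submodule.smul_mem _ _ (one_mem 1)) (Submodule.sum_mem _ fun i _ => coord_mem i)

lemma prod_mem {J : ℕ} (f : Fin J → V n → ZMod 2) (h : ∀ j, f j ∈ degLe n 1) : ∏ j, f j ∈ degLe n J := by
  have key : ∀ s : Finset (Fin J), ∏ j ∈ s, f j ∈ degLe n s.card := by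
    intro s
    induction s using Finset.induction_on with
    | empty => rw [Finset.prod_empty]; exact one_mem _
    | insert a s ha ih =>
      rw [Finset.prod_insert ha, Finset.card_insert_of_notMem ha, add_comm]
      exact degLe_mul (h a) ih
  have := key Finset.univ
  rwa [Finset.card_univ, Fintype.card_fin] at this

lemma exists_coef {J : ℕ} {f : V n → ZMod 2} (h : f ∈ degLe n J) :
    ∃ c : {I : Finset (Fin n) // I.card ≤ J} → ZMod 2, ∀ y, f y = ∑ I, c I * mnm I.1 y := by
  obtain ⟨c, hc⟩ := (Submodule.mem_span_range_iff_exists_fun (ZMod 2)).1 h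
  refine ⟨c, fun y => ?_⟩
  rw [← hc]
  simp [Finset.sum_apply]

lemma card_idx (n J : ℕ) : Fintype.card {I : Finset (Fin n) // I.card ≤ J} = ∑ i ∈ range (J + 1), n.choose i := by
  rw [Fintype.card_subtype]
  have h := Finset.card_eq_sum_card_fiberwise (s := Finset.univ.filter (fun I : Finset (Fin n) => I.card ≤ J))
    (t := range (J + 1)) (f := Finset.card) (by
      intro I hI
      have h2 : I.card ≤ J := by simpa using hI
      simpa using Nat.lt_succ_of_le h2)
  rw [h]
  refine Finset.sum_congr rfl fun i hi => ?_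
  have h2 : (Finset.univ.filter (fun I : Finset (Fin n) => I.card ≤ J)).filter (fun I => I.card = i) =
      Finset.powersetCard i Finset.univ := by
    ext I
    simp only [Finset.mem_filter, Finset.mem_univ, true_and, Finset.mem_powersetCard, Finset.subset_univ]
    have h3 := Finset.mem_range.1 hi
    constructor
    · exact fun h => h.2
    · exact fun h => ⟨by omega, h⟩
  rw [h2, Finset.card_powersetCard, Finset.card_univ, Fintype.card_fin]

end

lemma ne_zero_eq_one {a : ZMod 2} (h : a ≠ 0) : 1 + a = 0 := by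
  fin_cases a
  · exact absurd rfl h
  · rfl

lemma add_self_zero (a : ZMod 2) : a + a = 0 := by
  fin_cases a <;> rfl

/-- Package RANK -/
theorem rank : S_RANK := by
  intro n J X o S hX
  set B := {I : Finset (Fin n) // I.card ≤ J} with hB
  have h1 : ∀ x : V n, ∃ A : B → ZMod 2, ∀ y, ∏ j, (1 + ∑ i ∈ S x j, (x i + y i)) = ∑ I, A I * mnm I.1 y := by
    intro x
    have h2 := exists_coef (prod_mem (fun j => fun y : V n => 1 + ∑ i ∈ S x j, (x i + y i))
      fun j => affine_mem 1 (S x j) x)
    obtain ⟨c, hc⟩ := h2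
    refine ⟨c, fun y => ?_⟩
    rw [← hc y, Finset.prod_apply]
  have h1' : ∀ x : V n, ∃ A : B → ZMod 2, ∀ y, ∏ j, (1 + ∑ i ∈ S x j, (o x i + y i)) = ∑ I, A I * mnm I.1 y := by
    intro x
    have h2 := exists_coef (prod_mem (fun j => fun y : V n => 1 + ∑ i ∈ S x j, (o x i + y i))
      fun j => affine_mem 1 (S x j) (o x))
    obtain ⟨c, hc⟩ := h2
    refine ⟨c, fun y => ?_⟩
    rw [← hc y, Finset.prod_apply]
  choose A hA using h1
  choose A' hA' using h1'
  -- the factorization of the identity matrix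
  let L : Matrix X (B × B) (ZMod 2) := fun x p => A x.1 p.1 * mnm p.2.1 (o x.1)
  let R : Matrix (B × B) X (ZMod 2) := fun p x => mnm p.1.1 x.1 * A' x.1 p.2
  have hLR : L * R = 1 := by
    ext x x'
    have h3 : (L * R) x x' = (∏ j, (1 + ∑ i ∈ S x.1 j, (x.1 i + x'.1 i))) *
        (∏ j, (1 + ∑ i ∈ S x'.1 j, (o x'.1 i + o x.1 i))) := by
      rw [hA x.1 x'.1, hA' x'.1 (o x.1), Matrix.mul_apply, Finset.sum_mul_sum, ← Finset.univ_product_univ,
        Finset.sum_product]
      refine Finset.sum_congr rfl fun I _ => Finset.sum_congr rfl fun I' _ => ?_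
      simp only [L, R]
      ring
    rw [h3]
    by_cases hxx : x = x'
    · subst hxx
      rw [Matrix.one_apply_eq]
      have h4 : ∀ j, (1 + ∑ i ∈ S x.1 j, (x.1 i + x.1 i)) = 1 := fun j => by
        rw [Finset.sum_eq_zero fun i _ => add_self_zero _, add_zero]
      have h5 : ∀ j, (1 + ∑ i ∈ S x.1 j, (o x.1 i + o x.1 i)) = 1 := fun j => by
        rw [Finset.sum_eq_zero fun i _ => add_self_zero _, add_zero]
      rw [Finset.prod_eq_one fun j _ => h4 j, Finset.prod_eq_one fun j _ => h5 j, mul_one]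
    · rw [Matrix.one_apply_ne hxx]
      rcases hX x.1 x.2 x'.1 x'.2 (fun h => hxx (Subtype.ext h)) with ⟨j, hj⟩ | ⟨j, hj⟩
      · have h8 : ∏ j, (1 + ∑ i ∈ S x.1 j, (x.1 i + x'.1 i)) = 0 :=
          Finset.prod_eq_zero (Finset.mem_univ j) (ne_zero_eq_one hj)
        rw [h8, zero_mul]
      · have h6 : ∑ i ∈ S x'.1 j, (o x'.1 i + o x.1 i) ≠ 0 := by
          have : ∑ i ∈ S x'.1 j, (o x'.1 i + o x.1 i) = ∑ i ∈ S x'.1 j, (o x.1 i + o x'.1 i) :=
            Finset.sum_congr rfl fun i _ => add_comm _ _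
          rw [this]
          exact hj
        have h8 : ∏ j, (1 + ∑ i ∈ S x'.1 j, (o x'.1 i + o x.1 i)) = 0 :=
          Finset.prod_eq_zero (Finset.mem_univ j) (ne_zero_eq_one h6)
        rw [h8, mul_zero]
  have h7 : Fintype.card X ≤ Fintype.card (B × B) := by
    calc Fintype.card X = (1 : Matrix X X (ZMod 2)).rank := Matrix.rank_one.symm
      _ = (L * R).rank := by rw [hLR]
      _ ≤ L.rank := Matrix.rank_mul_le_left L R
      _ ≤ Fintype.card (B × B) := Matrix.rank_le_card_width L
  rw [Fintype.card_coe, Fintype.card_prod] at h7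
  have h9 : Fintype.card B = ∑ i ∈ range (J + 1), n.choose i := card_idx n J
  rw [h9, ← sq] at h7
  exact h7

end Pool.Agent.P8H46.BS
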