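import Pool.Agent.P8H46.BS.Pack

/-!
# Package RLOW of the project BS
-/

set_option autoImplicit false

namespace Pool.Agent.P8H46.BS

open Finset

namespace Hw

/-- the indicator vector of a set of coordinates -/
def ind {n : ℕ} (P : Finset (Fin n)) : V n := fun i => if i ∈ P then 1 else 0

theorem ind_ne_zero {n : ℕ} (P : Finset (Fin n)) (i : Fin n) : ind P i ≠ 0 ↔ i ∈ P := by
  unfold ind
  split_ifs with h <;> simp [h]

theorem ind_ne {n : ℕ} (P Q : Finset (Fin n)) (i : Fin n) :
    ind P i ≠ ind Q i ↔ (i ∈ P ∧ i ∉ Q) ∨ (i ∈ Q ∧ i ∉ P) := by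
  unfold ind
  by_cases h : i ∈ P <;> by_cases h' : i ∈ Q <;> simp [h, h']

theorem ind_inj {n : ℕ} {P Q : Finset (Fin n)} (h : ind P = ind Q) : P = Q := by
  ext i
  rw [← ind_ne_zero P i, ← ind_ne_zero Q i, h]

theorem wt_ind_zero {n : ℕ} (P : Finset (Fin n)) : wt univ (ind P) 0 = P.card := by
  unfold wt
  congr 1
  ext i
  simp only [mem_filter, mem_univ, true_and, Pi.zero_apply]
  exact ind_ne_zero P i

end Hw

open Hw in
theorem rlow : S_RLOW := by
  classical
  intro n s
  have hc : (((univ : Finset (Fin n)).powersetCard (2 * s)).sigma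
      (fun P => P.powersetCard s ×ˢ Pᶜ.powersetCard s)).card =
      n.choose (2 * s) * (2 * s).choose s * (n - 2 * s).choose s := by
    rw [card_sigma]
    have : ∀ P ∈ (univ : Finset (Fin n)).powersetCard (2 * s),
        (P.powersetCard s ×ˢ Pᶜ.powersetCard s).card =
          (2 * s).choose s * (n - 2 * s).choose s := by
      intro P hP
      rw [mem_powersetCard] at hP
      rw [card_product, card_powersetCard, card_powersetCard, card_compl, Fintype.card_fin, hP.2]
    rw [sum_congr rfl this, sum_const, card_powersetCard, card_univ, Fintype.card_fin,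
      smul_eq_mul, mul_assoc]
  rw [← hc]
  apply card_le_card_of_injOn (fun p => (ind p.1, ind (p.2.1 ∪ p.2.2)))
  · rintro ⟨P, Q1, Q2⟩ hp
    rw [mem_coe, mem_sigma, mem_product, mem_powersetCard, mem_powersetCard,
      mem_powersetCard] at hp
    obtain ⟨⟨-, hP⟩, ⟨hQ1, hQ1c⟩, ⟨hQ2, hQ2c⟩⟩ := hp
    simp only at hP hQ1 hQ1c hQ2 hQ2c
    simp only [mem_coe]
    rw [mem_Rg, wt_ind_zero, wt_ind_zero]
    refine ⟨hP.le, ?_, ?_⟩
    · refine (card_union_le _ _).trans ?_
      omega
    · unfold wt
      have h1 : (univ.filter (fun i => ind P i ≠ ind (Q1 ∪ Q2) i)) ⊆ (P \ Q1) ∪ Q2 := by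
        intro i hi
        rw [mem_filter, ind_ne] at hi
        simp only [mem_union, mem_sdiff, not_or] at hi ⊢
        rcases hi.2 with h | h
        · left
          exact ⟨h.1, h.2.1⟩
        · rcases h.1 with h' | h'
          · exact absurd (hQ1 h') h.2
          · right
            exact h'
      refine (card_le_card h1).trans ((card_union_le _ _).trans ?_)
      rw [card_sdiff_of_subset hQ1]
      omega
  · rintro ⟨P, Q1, Q2⟩ hp ⟨P', Q1', Q2'⟩ hp' h
    rw [mem_coe, mem_sigma, mem_product, mem_powersetCard, mem_powersetCard,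
      mem_powersetCard] at hp hp'
    obtain ⟨⟨-, hP⟩, ⟨hQ1, hQ1c⟩, ⟨hQ2, hQ2c⟩⟩ := hp
    obtain ⟨⟨-, hP'⟩, ⟨hQ1', hQ1c'⟩, ⟨hQ2', hQ2c'⟩⟩ := hp'
    simp only at hQ1 hQ2 hQ1' hQ2'
    simp only [Prod.mk.injEq] at h
    obtain ⟨h1, h2⟩ := h
    have e1 := ind_inj h1
    have e2 := ind_inj h2
    subst e1
    have e3 : Q1 = Q1' := by
      ext i
      have hi := Finset.ext_iff.mp e2 i
      simp only [mem_union] at hi
      constructor
      · intro h
        rcases hi.mp (Or.inl h) with h' | h'
        · exact h'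
        · exact absurd (hQ1 h) (mem_compl.mp (hQ2' h'))
      · intro h
        rcases hi.mpr (Or.inl h) with h' | h'
        · exact h'
        · exact absurd (hQ1' h) (mem_compl.mp (hQ2 h'))
    have e4 : Q2 = Q2' := by
      ext i
      have hi := Finset.ext_iff.mp e2 i
      simp only [mem_union] at hi
      constructor
      · intro h
        rcases hi.mp (Or.inr h) with h' | h'
        · exact absurd (hQ1' h') (mem_compl.mp (hQ2 h))
        · exact h'
      · intro h
        rcases hi.mpr (Or.inr h) with h' | h'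
        · exact absurd (hQ1 h') (mem_compl.mp (hQ2' h))
        · exact h'
    rw [e3, e4]

end Pool.Agent.P8H46.BS
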