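import Pool.Agent.P8H46.BS.Pack

/-!
# Package RUP of the project BS
-/

set_option autoImplicit false

namespace Pool.Agent.P8H46.BS

open Finset

open Hw in
theorem rup : S_RUP := by
  classical
  intro n t m htm
  set B : Finset (Fin n) → Finset (Fin n → ZMod 2 × ZMod 2) := fun S =>
    Fintype.piFinset (fun i => if i ∈ S then univ.erase (0, 0) else {(0, 0)}) with hB
  have hBc : ∀ S, (B S).card = 3 ^ S.card := by
    intro S
    rw [hB]
    simp only
    rw [Fintype.card_piFinset]
    have : ∀ i : Fin n, (if i ∈ S then (univ : Finset (ZMod 2 × ZMod 2)).erase (0, 0)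
        else {(0, 0)}).card = if i ∈ S then 3 else 1 := by
      intro i
      split_ifs
      · rfl
      · rfl
    simp only [this]
    rw [prod_ite]
    simp
  set D : Finset (Fin n → ZMod 2 × ZMod 2) :=
    (range (m + 1)).biUnion (fun w => ((univ : Finset (Fin n)).powersetCard w).biUnion B) with hD
  have h1 : (Rg n t).card ≤ D.card := by
    apply card_le_card_of_injOn (fun p i => (p.1 i, p.2 i))
    · rintro ⟨a, b⟩ hp
      rw [mem_coe, mem_Rg] at hp
      obtain ⟨ha, hb, hab⟩ := hp
      rw [mem_coe, hD, mem_biUnion]
      set S : Finset (Fin n) := univ.filter (fun i => a i ≠ 0 ∨ b i ≠ 0) with hS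
      have hcount : wt univ a 0 + wt univ b 0 + wt univ a b = 2 * S.card := by
        unfold wt
        rw [hS]
        simp only [card_filter, Pi.zero_apply]
        rw [← sum_add_distrib, ← sum_add_distrib, mul_sum]
        apply sum_congr rfl
        intro i _
        have key : ∀ u v : ZMod 2, ((if u ≠ 0 then 1 else 0) + (if v ≠ 0 then 1 else 0) +
            (if u ≠ v then 1 else 0) : ℕ) = 2 * (if u ≠ 0 ∨ v ≠ 0 then 1 else 0) := by decide
        exact key (a i) (b i)
      refine ⟨S.card, ?_, ?_⟩
      · rw [mem_range]
        omega
      · rw [mem_biUnion]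
        refine ⟨S, ?_, ?_⟩
        · rw [mem_powersetCard]
          exact ⟨subset_univ _, rfl⟩
        · rw [hB]
          simp only
          rw [Fintype.mem_piFinset]
          intro i
          by_cases hi : i ∈ S
          · rw [if_pos hi, mem_erase]
            refine ⟨?_, mem_univ _⟩
            intro h
            rw [hS, mem_filter] at hi
            simp only [Prod.mk.injEq] at h
            rcases hi.2 with h' | h'
            · exact h' h.1
            · exact h' h.2
          · rw [if_neg hi, mem_singleton]
            rw [hS, mem_filter] at hi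
            simp only [mem_univ, true_and, not_or, not_not] at hi
            rw [hi.1, hi.2]
    · rintro ⟨a, b⟩ _ ⟨a', b'⟩ _ h
      have h' : ∀ i, (a i, b i) = (a' i, b' i) := fun i => congrFun h i
      have ea : a = a' := funext fun i => (Prod.mk.inj (h' i)).1
      have eb : b = b' := funext fun i => (Prod.mk.inj (h' i)).2
      rw [ea, eb]
  refine h1.trans ?_
  rw [hD]
  refine card_biUnion_le.trans (sum_le_sum ?_)
  intro w _
  refine card_biUnion_le.trans ?_
  have : ∀ S ∈ (univ : Finset (Fin n)).powersetCard w, (B S).card = 3 ^ w := by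
    intro S hS
    rw [hBc, (mem_powersetCard.mp hS).2]
  rw [sum_congr rfl this, sum_const, card_powersetCard, card_univ, Fintype.card_fin, smul_eq_mul]

end Pool.Agent.P8H46.BS
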