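import Pool.Agent.P8H46.BS.Stm2

/-!
# Hamming spheres in the lines of corner-free sets: statements of the packages, part 3
-/

set_option autoImplicit false

namespace Pool.Agent.P8H46.BS

open Finset

/-- the pairs `(a, b)` with `|a|, |b|, |a + b| ≤ t` (Hamming weights) -/
def Rg (n t : ℕ) : Finset (V n × V n) :=
  univ.filter (fun p => wt univ p.1 0 ≤ t ∧ wt univ p.2 0 ≤ t ∧ wt univ p.1 p.2 ≤ t)

/-- PACK: sphere packing bound. -/
def S_PACK : Prop :=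
  ∀ (n t : ℕ) (X : Finset (V n)) (o : V n → V n),
    (∀ x ∈ X, ∀ x' ∈ X, x ≠ x' → ¬ (wt univ x x' ≤ 2 * t ∧ wt univ (o x) (o x') ≤ 2 * t ∧
      wt univ (x + o x) (x' + o x') ≤ 2 * t)) →
    X.card * (Rg n t).card ≤ 4 ^ n

/-- RLOW: a lower bound for the size of the region `Rg`. -/
def S_RLOW : Prop :=
  ∀ n s : ℕ, n.choose (2 * s) * (2 * s).choose s * (n - 2 * s).choose s ≤ (Rg n (2 * s)).card

/-- MULT: the entropy lower bound for multinomial coefficients. -/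
def S_MULT : Prop :=
  ∀ a b q : ℕ, 3 * a ≤ b →
    (b ^ b) ^ q ≤ (b * q + 1) ^ 3 * ((b * q).choose (2 * (a * q)) * (2 * (a * q)).choose (a * q) *
      (b * q - 2 * (a * q)).choose (a * q)) * (a ^ (3 * a) * (b - 3 * a) ^ (b - 3 * a)) ^ q

/-- RUP: an upper bound for the size of the region `Rg`. -/
def S_RUP : Prop :=
  ∀ n t m : ℕ, 3 * t ≤ 2 * m + 1 → (Rg n t).card ≤ ∑ w ∈ range (m + 1), n.choose w * 3 ^ w

/-- GREEDY: centres which are far from each other. -/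
def S_GREEDY : Prop :=
  ∀ n r : ℕ, (Rg n r).card ≤ 2 ^ n → ∃ o : V n → V n, ∀ x x' : V n, x ≠ x' →
    ¬ (wt univ x x' ≤ r ∧ wt univ (o x) (o x') ≤ r ∧ wt univ (x + o x) (x' + o x') ≤ r)

/-- TRICK: partial sums of binomial coefficients. -/
def S_TRICK : Prop :=
  ∀ (n m p q : ℕ) (a u : ℝ), 0 ≤ a → 1 ≤ u → q * m ≤ p * n →
    ∑ i ∈ range (m + 1), (n.choose i : ℝ) * a ^ i ≤ (u ^ p * (1 + a * (u⁻¹) ^ q)) ^ n

end Pool.Agent.P8H46.BS
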