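import Pool.Agent.P8H46.BS.Cls
import Pool.Agent.P8H46.BS.Stm3

set_option autoImplicit false

namespace Pool.Agent.P8H46.BS

open Finset

variable {n : ℕ}

lemma wt_comm (U : Finset (Fin n)) (x y : V n) : wt U x y = wt U y x := by
  unfold wt
  congr 1
  ext i
  simp only [mem_filter, ne_comm]

lemma z2_add_ne (a b : ZMod 2) : a + b ≠ 0 ↔ a ≠ b := by
  rcases zmod2_cases a with h | h <;> rcases zmod2_cases b with h' | h' <;> subst h <;> subst h' <;>
    decide

lemma z2_ne_add (a b c d : ZMod 2) : (a + b ≠ c + d) ↔ (a + c ≠ b + d) := by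
  rcases zmod2_cases a with h | h <;> rcases zmod2_cases b with h' | h' <;>
    rcases zmod2_cases c with h'' | h'' <;> rcases zmod2_cases d with h3 | h3 <;>
    subst h <;> subst h' <;> subst h'' <;> subst h3 <;> decide

lemma wt_add_zero (U : Finset (Fin n)) (x x' : V n) : wt U (x + x') 0 = wt U x x' := by
  unfold wt
  congr 1
  ext i
  simp only [mem_filter, Pi.add_apply, Pi.zero_apply, z2_add_ne]

lemma wt_add_add (U : Finset (Fin n)) (x x' o o' : V n) :
    wt U (x + x') (o + o') = wt U (x + o) (x' + o') := by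
  unfold wt
  congr 1
  ext i
  simp only [mem_filter, Pi.add_apply, z2_ne_add]

lemma wt_flip {U Y : Finset (Fin n)} (hY : Y ⊆ U) (z o y : V n)
    (hy : ∀ i ∈ U, (y i ≠ o i ↔ i ∈ Y))
    (hz : 2 * (Y.filter (fun i => z i ≠ 0)).card = wt U z 0) : wt U (y + z) o = Y.card := by
  classical
  have e : U.filter (fun i => (y + z) i ≠ o i) =
      (Y.filter (fun i => ¬ z i ≠ 0)) ∪
        ((U.filter (fun i => z i ≠ 0)) \ (Y.filter (fun i => z i ≠ 0))) := by
    ext i
    simp only [mem_filter, mem_union, mem_sdiff, Pi.add_apply]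
    by_cases hi : i ∈ U
    · by_cases hzi : z i = 0
      · have := hy i hi
        simp only [hi, true_and, hzi, add_zero, ne_eq, not_true_eq_false, not_false_eq_true,
          and_true, false_and, and_false, or_false]
        exact this
      · have h1 : z i = 1 := (zmod2_cases (z i)).resolve_left hzi
        have := hy i hi
        have h2 : y i + z i ≠ o i ↔ y i = o i := by
          rw [h1]
          exact ne_add_one _ _
        rw [h2]
        simp only [hi, true_and, hzi, ne_eq, not_false_eq_true, not_true_eq_false, and_false,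
          and_true, false_or]
        constructor
        · intro h3 h4
          exact (this.2 h4) h3
        · intro h3
          by_contra h4
          exact h3 (this.1 h4)
    · have : i ∉ Y := fun h => hi (hY h)
      simp [hi, this]
  have h0 : wt U (y + z) o = (U.filter (fun i => (y + z) i ≠ o i)).card := rfl
  rw [h0, e, card_union_of_disjoint, card_sdiff_of_subset (filter_subset_filter _ hY)]
  · have h1 := card_filter_add_card_filter_not (s := Y) (fun i => z i ≠ 0)
    have h2 : wt U z 0 = (U.filter (fun i => z i ≠ 0)).card := rfl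
    omega
  · rw [disjoint_left]
    intro i hi hi'
    exact (mem_filter.1 hi).2 (mem_filter.1 (mem_sdiff.1 hi').1).2

/-- two rows which contain spheres of the same radius -/
lemma sphere_pair (hEQ : S_EQ) {A : Finset (V n × V n)} (hA : CF A) (F : Finset (Fin n))
    (v v' o o' x x' : V n) (t : ℕ) (hv : ∀ i ∈ F, v i = v' i) (hx : ∀ i ∈ F, x i = x' i)
    (U : Finset (Fin n)) (hU : ∀ i, i ∈ U ↔ i ∉ F)
    (h : ∀ y, (∀ i ∈ F, y i = v i) → wt U y o = t → (x, y) ∈ A)
    (h' : ∀ y, (∀ i ∈ F, y i = v' i) → wt U y o' = t → (x', y) ∈ A)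
    (e1 : Even (wt U x x')) (e2 : Even (wt U o o'))
    (a1 : wt U x x' ≤ 2 * t) (a2 : wt U o o' ≤ 2 * t) (a3 : wt U (x + o) (x' + o') ≤ 2 * t)
    (b1 : 2 * t + wt U x x' ≤ 2 * U.card) (b2 : 2 * t + wt U o o' ≤ 2 * U.card)
    (b3 : 2 * t + wt U (x + o) (x' + o') ≤ 2 * U.card) : x = x' := by
  classical
  obtain ⟨Y, hYU, hYt, hYz, hYD⟩ := hEQ n U (x + x') (o + o') t
    (by rwa [wt_add_zero]) (by rwa [wt_add_zero]) (by rwa [wt_add_zero]) (by rwa [wt_add_zero])
    (by rwa [wt_add_add]) (by rwa [wt_add_zero]) (by rwa [wt_add_zero]) (by rwa [wt_add_add])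
  set y : V n := fun i => if i ∈ F then v i else if i ∈ Y then o i + 1 else o i with hy
  have hyF : ∀ i ∈ F, y i = v i := fun i hi => by simp [hy, hi]
  have hyo : ∀ i ∈ U, (y i ≠ o i ↔ i ∈ Y) := by
    intro i hi
    have hi' : i ∉ F := (hU i).1 hi
    by_cases hiY : i ∈ Y
    · simp [hy, hi', hiY]
    · simp [hy, hi', hiY]
  have c1 : (x, y) ∈ A := by
    refine h y hyF ?_
    rw [← hYt]
    unfold wt
    congr 1
    ext i
    rw [mem_filter]
    constructor
    · rintro ⟨h1, h2⟩
      exact (hyo i h1).1 h2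
    · intro h1
      exact ⟨hYU h1, (hyo i (hYU h1)).2 h1⟩
  have c2 : (x, y + (x + x')) ∈ A := by
    refine h _ (fun i hi => ?_) ?_
    · rw [Pi.add_apply, Pi.add_apply, hyF i hi, hx i hi, CharTwo.add_self_eq_zero, add_zero]
    · rw [wt_flip hYU (x + x') o y hyo hYz, hYt]
  have c3 : (x + (x + x'), y) ∈ A := by
    have e : x + (x + x') = x' := by
      funext i
      rw [Pi.add_apply, Pi.add_apply, ← add_assoc, CharTwo.add_self_eq_zero, zero_add]
    rw [e]
    refine h' y (fun i hi => (hyF i hi).trans (hv i hi)) ?_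
    have h1 := wt_flip hYU (o + o') o y hyo hYD
    rw [hYt] at h1
    rw [← h1]
    unfold wt
    congr 1
    ext i
    simp only [mem_filter, Pi.add_apply]
    have : ∀ a b c : ZMod 2, (a ≠ c ↔ a + (b + c) ≠ b) := by decide
    rw [this (y i) (o i) (o' i)]
  have h0 := hA x y (x + x') c1 c2 c3
  funext i
  have := congrFun h0 i
  rw [Pi.add_apply, Pi.zero_apply] at this
  exact CharTwo.add_eq_zero.1 this

/-- counting the classes -/
lemma classes (k K : ℕ) (X : Finset (V n)) (F : V n → Finset (Fin n)) (v o : V n → V n)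
    (hF : ∀ x ∈ X, (F x).card = k)
    (h : ∀ S ⊆ X, (∀ x ∈ S, ∀ x' ∈ S, F x = F x' ∧ (∀ i ∈ F x, v x i = v x' i) ∧
      (∀ i ∈ F x, x i = x' i) ∧ Even (wt (univ.filter (fun i => i ∉ F x)) x x') ∧
      Even (wt (univ.filter (fun i => i ∉ F x)) (o x) (o x'))) → S.card ≤ K) :
    X.card ≤ n.choose k * 4 ^ k * 4 * K := by
  classical
  set κ : V n → (Finset (Fin n) × (Finset (Fin n) × Finset (Fin n))) × (ZMod 2 × ZMod 2) :=
    fun x => ((F x, ((F x).filter (fun i => v x i = 1), (F x).filter (fun i => x i = 1))),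
      (∑ i ∈ univ.filter (fun i => i ∉ F x), x i, ∑ i ∈ univ.filter (fun i => i ∉ F x), o x i))
    with hκ
  have hfib : ∀ c ∈ X.image κ, (X.filter (fun x => κ x = c)).card ≤ K := by
    intro c _
    refine h _ (filter_subset _ _) ?_
    intro x hx x' hx'
    rw [mem_filter] at hx hx'
    have hk : κ x = κ x' := hx.2.trans hx'.2.symm
    have hFF : F x = F x' := congrArg (fun q => q.1.1) hk
    have h1 : (F x).filter (fun i => v x i = 1) = (F x').filter (fun i => v x' i = 1) :=
      congrArg (fun q => q.1.2.1) hk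
    have h2 : (F x).filter (fun i => x i = 1) = (F x').filter (fun i => x' i = 1) :=
      congrArg (fun q => q.1.2.2) hk
    have h3 : ∑ i ∈ univ.filter (fun i => i ∉ F x), x i =
        ∑ i ∈ univ.filter (fun i => i ∉ F x'), x' i := congrArg (fun q => q.2.1) hk
    have h4 : ∑ i ∈ univ.filter (fun i => i ∉ F x), o x i =
        ∑ i ∈ univ.filter (fun i => i ∉ F x'), o x' i := congrArg (fun q => q.2.2) hk
    have key : ∀ (a b : V n), (F x).filter (fun i => a i = 1) = (F x').filter (fun i => b i = 1) →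
        ∀ i ∈ F x, a i = b i := by
      intro a b hab i hi
      have h3 : i ∈ (F x).filter (fun i => a i = 1) ↔ i ∈ (F x').filter (fun i => b i = 1) := by
        rw [hab]
      rw [mem_filter, mem_filter, ← hFF] at h3
      rcases zmod2_cases (a i) with h4 | h4 <;> rcases zmod2_cases (b i) with h5 | h5
      · rw [h4, h5]
      · exact absurd (h3.2 ⟨hi, h5⟩).2 (by rw [h4]; decide)
      · exact absurd (h3.1 ⟨hi, h4⟩).2 (by rw [h5]; decide)
      · rw [h4, h5]
    have key2 : ∀ (a b : V n), ∑ i ∈ univ.filter (fun i => i ∉ F x), a i =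
        ∑ i ∈ univ.filter (fun i => i ∉ F x'), b i →
        Even (wt (univ.filter (fun i => i ∉ F x)) a b) := by
      intro a b hab
      refine even_of_sum _ a b ?_
      rw [sum_add_distrib, hab, ← hFF, CharTwo.add_self_eq_zero]
    exact ⟨hFF, key _ _ h1, key _ _ h2, key2 _ _ h3, key2 _ _ h4⟩
  have h1 := card_le_mul_card_image (f := κ) X _ hfib
  have h2 : (X.image κ).card ≤ n.choose k * 4 ^ k * 4 := by
    have hsub : X.image κ ⊆ ((powersetCard k (univ : Finset (Fin n))).biUnion
        (fun F => ({F} : Finset (Finset (Fin n))) ×ˢ (F.powerset ×ˢ F.powerset))) ×ˢ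
          (univ : Finset (ZMod 2 × ZMod 2)) := by
      intro c hc
      rw [mem_image] at hc
      obtain ⟨x, hx, rfl⟩ := hc
      rw [mem_product, mem_biUnion]
      refine ⟨⟨F x, ?_, ?_⟩, mem_univ _⟩
      · rw [mem_powersetCard]
        exact ⟨subset_univ _, hF x hx⟩
      · simp only [hκ, mem_product, mem_singleton, mem_powerset, true_and]
        exact ⟨filter_subset _ _, filter_subset _ _⟩
    refine (card_le_card hsub).trans ?_
    rw [card_product]
    have h4 : (univ : Finset (ZMod 2 × ZMod 2)).card = 4 := by decide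
    rw [h4]
    refine Nat.mul_le_mul_right _ ((card_biUnion_le_card_mul _ _ (4 ^ k) ?_).trans ?_)
    · intro G hG
      rw [mem_powersetCard] at hG
      rw [card_product, card_singleton, one_mul, card_product, card_powerset, hG.2, ← mul_pow]
      norm_num
    · rw [card_powersetCard, card_univ, Fintype.card_fin]
  calc X.card ≤ K * (X.image κ).card := h1
    _ ≤ K * (n.choose k * 4 ^ k * 4) := Nat.mul_le_mul_left _ h2
    _ = _ := by ring

/-- The number of rows which contain a sphere of radius `t` of a subcube of codimension `k`, `t` in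
the middle range. -/
theorem mid_rows (hEQ : S_EQ) (hPL : S_PLOT) (hRA : S_RAMSEY) {A : Finset (V n × V n)} (hA : CF A)
    (ε : ℝ) (hε : 0 < ε) (k t : ℕ) (hk : k ≤ n) (ht : (1 / 4 + ε) * ((n : ℝ) - k) ≤ t)
    (ht' : (t : ℝ) ≤ (3 / 4 - ε) * ((n : ℝ) - k)) (X : Finset (V n))
    (hX : ∀ x ∈ X, ∃ (F : Finset (Fin n)) (v o : V n), F.card = k ∧
      ∀ y, (∀ i ∈ F, y i = v i) → wt (univ.filter (fun i => i ∉ F)) y o = t → (x, y) ∈ A) :
    X.card ≤ n.choose k * 4 ^ k * 4 * 27 ^ (⌊1 / (4 * ε)⌋₊ + 1) := by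
  classical
  choose! F v o hF hS using hX
  refine classes k _ X F v o hF ?_
  intro S hSX hcl
  by_contra hcon
  push Not at hcon
  rcases S.eq_empty_or_nonempty with h0 | ⟨x0, hx0⟩
  · rw [h0] at hcon
    simp at hcon
  set U : Finset (Fin n) := univ.filter (fun i => i ∉ F x0) with hU
  have hUc : (U.card : ℝ) = (n : ℝ) - k := by
    have h1 : U = (F x0)ᶜ := by
      ext i
      simp [hU]
    rw [h1, card_compl, Fintype.card_fin, hF x0 (hSX hx0), Nat.cast_sub hk]
  have hFx : ∀ x ∈ S, F x = F x0 := fun x hx => (hcl x hx x0 hx0).1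
  set M := ⌊1 / (4 * ε)⌋₊ + 1 with hM
  set δ : ℝ := (1 / 2 + 2 * ε) * (U.card : ℝ) with hδ
  set c : V n → V n → Fin 3 := fun x x' =>
    if δ < (wt U x x' : ℝ) then 0 else if δ < (wt U (o x) (o x') : ℝ) then 1 else 2 with hc
  have hcs : ∀ x y, c x y = c y x := by
    intro x y
    simp only [hc, wt_comm U x y, wt_comm U (o x) (o y)]
  have hbig : 3 ^ (3 * M) ≤ S.card := by
    have : (27 : ℕ) ^ M = 3 ^ (3 * M) := by rw [pow_mul]; norm_num
    omega
  obtain ⟨col, S', hS'S, hS'c, hmono⟩ := hRA (V n) S c M hcs hbig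
  have hfar : ∀ x ∈ S', ∀ x' ∈ S', x ≠ x' → δ < (wt U x x' : ℝ) ∨ δ < (wt U (o x) (o x') : ℝ) ∨
      δ < (wt U (x + o x) (x' + o x') : ℝ) := by
    intro x hx x' hx' hne
    by_contra hcon2
    push Not at hcon2
    obtain ⟨g1, g2, g3⟩ := hcon2
    have hx1 := hS'S hx
    have hx1' := hS'S hx'
    obtain ⟨f1, f2, f3, f4, f5⟩ := hcl x hx1 x' hx1'
    have hFe := hFx x hx1
    have hFe' := hFx x' hx1'
    rw [hFe] at f4 f5 f2 f3
    have hlow : ∀ w : ℕ, (w : ℝ) ≤ δ → w ≤ 2 * t := by
      intro w hw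
      have : (w : ℝ) ≤ 2 * t := by
        rw [hδ, hUc] at hw
        linarith
      exact_mod_cast this
    have hupp : ∀ w : ℕ, (w : ℝ) ≤ δ → 2 * t + w ≤ 2 * U.card := by
      intro w hw
      have : 2 * (t : ℝ) + w ≤ 2 * (U.card : ℝ) := by
        rw [hδ] at hw
        rw [← hUc] at ht'
        linarith
      exact_mod_cast this
    refine hne (sphere_pair hEQ hA (F x0) (v x) (v x') (o x) (o x') x x' t f2 f3 U
      (fun i => by simp [hU]) ?_ ?_ f4 f5 (hlow _ g1) (hlow _ g2) (hlow _ g3) (hupp _ g1)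
      (hupp _ g2) (hupp _ g3))
    · have := hS x (hSX hx1)
      rwa [hFe] at this
    · have := hS x' (hSX hx1')
      rwa [hFe'] at this
  -- the Plotkin bound for the colour
  have hfin : ∀ g : V n → V n, (∀ x ∈ S', ∀ x' ∈ S', x ≠ x' → δ < (wt U (g x) (g x') : ℝ)) →
      False := by
    intro g hg
    have h1 := hPL n U (V n) S' g ε hε hg
    rw [hS'c] at h1
    have h2 : (1 / (4 * ε)) < (M : ℝ) := by
      rw [hM]
      push_cast
      exact Nat.lt_floor_add_one _
    push_cast at h1
    linarith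
  have h3 : col = 0 ∨ col = 1 ∨ col = 2 := by
    fin_cases col <;> simp
  rcases h3 with h3 | h3 | h3
  · refine hfin id fun x hx x' hx' hne => ?_
    have h4 := hmono x hx x' hx' hne
    rw [h3] at h4
    simp only [hc] at h4
    by_contra h5
    rw [id, id] at h5
    rw [if_neg h5] at h4
    split_ifs at h4 <;> exact absurd h4 (by decide)
  · refine hfin o fun x hx x' hx' hne => ?_
    have h4 := hmono x hx x' hx' hne
    rw [h3] at h4
    simp only [hc] at h4
    by_contra h5
    rw [if_neg h5] at h4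
    split_ifs at h4 <;> exact absurd h4 (by decide)
  · refine hfin (fun x => x + o x) fun x hx x' hx' hne => ?_
    have h4 := hmono x hx x' hx' hne
    rw [h3] at h4
    simp only [hc] at h4
    rcases hfar x hx x' hx' hne with h5 | h5 | h5
    · rw [if_pos h5] at h4
      exact absurd h4 (by decide)
    · rw [if_pos h5] at h4
      split_ifs at h4 <;> exact absurd h4 (by decide)
    · exact h5

/-- The number of rows which contain a sphere of radius `t`: sphere packing bound. -/
theorem pack_rows (hEQ : S_EQ) (hPK : S_PACK) {A : Finset (V n × V n)} (hA : CF A)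
    (t : ℕ) (ht : 2 * t ≤ n) (X : Finset (V n))
    (hX : ∀ x ∈ X, ∃ o : V n, ∀ y, wt univ y o = t → (x, y) ∈ A) :
    X.card * (Rg n t).card ≤ 4 * 4 ^ n := by
  classical
  choose! o hS using hX
  have hpos : 0 < (Rg n t).card := by
    rw [card_pos]
    refine ⟨(0, 0), ?_⟩
    simp [Rg, wt]
  have h := classes 0 (4 ^ n / (Rg n t).card) X (fun _ => ∅) (fun _ => 0) o (fun _ _ => rfl) ?_
  · rw [Nat.choose_zero_right, pow_zero] at h
    calc X.card * (Rg n t).card ≤ (1 * 1 * 4 * (4 ^ n / (Rg n t).card)) * (Rg n t).card :=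
          Nat.mul_le_mul_right _ h
      _ = 4 * ((4 ^ n / (Rg n t).card) * (Rg n t).card) := by ring
      _ ≤ 4 * 4 ^ n := Nat.mul_le_mul_left _ (Nat.div_mul_le_self _ _)
  · intro S hSX hcl
    rw [Nat.le_div_iff_mul_le hpos]
    refine hPK n t S o ?_
    rintro x hx x' hx' hne ⟨g1, g2, g3⟩
    obtain ⟨-, -, -, f4, f5⟩ := hcl x hx x' hx'
    have e : univ.filter (fun i : Fin n => i ∉ (∅ : Finset (Fin n))) = univ := by
      ext i
      simp
    rw [e] at f4 f5
    have hUc : (univ : Finset (Fin n)).card = n := by simp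
    refine hne (sphere_pair hEQ hA ∅ 0 0 (o x) (o x') x x' t (fun i hi => by simp at hi)
      (fun i hi => by simp at hi) univ (fun i => by simp) (fun y _ hy => hS x (hSX hx) y hy)
      (fun y _ hy => hS x' (hSX hx') y hy) f4 f5 g1 g2 g3 ?_ ?_ ?_) <;> rw [hUc] <;> omega

end Pool.Agent.P8H46.BS
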