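import Pool.Agent.P8H46.BS.Stm

/-!
# Package SPLIT: two labellings can be halved simultaneously (written by helper76)
-/

set_option autoImplicit false

namespace Pool.Agent.P8H46.BS

open Finset

section

set_option linter.unusedSectionVars false

variable {ι γ : Type} [DecidableEq ι] [DecidableEq γ]

/-- the size of the fibre of `f` over `c` in `W` -/
def fib (W : Finset ι) (f : ι → γ) (c : γ) : ℕ := (W.filter (fun i => f i = c)).card

/-- indicator -/
def ind (x c : γ) : ℕ := if x = c then 1 else 0

lemma fib_eq (W : Finset ι) (f : ι → γ) (c : γ) : fib W f c = ∑ i ∈ W, ind (f i) c := by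
  unfold fib ind
  rw [Finset.card_filter]

lemma fib_insert {W : Finset ι} {u : ι} (hu : u ∉ W) (f : ι → γ) (c : γ) :
    fib (insert u W) f c = fib W f c + ind (f u) c := by
  rw [fib_eq, fib_eq, Finset.sum_insert hu, add_comm]

lemma fib_erase {W : Finset ι} {u : ι} (hu : u ∈ W) (f : ι → γ) (c : γ) :
    fib W f c = fib (W.erase u) f c + ind (f u) c := by
  rw [fib_eq, fib_eq, Finset.sum_erase_add _ _ hu]

lemma fib_congr {W : Finset ι} {f g : ι → γ} (h : ∀ i ∈ W, f i = g i) (c : γ) : fib W f c = fib W g c := by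
  rw [fib_eq, fib_eq]
  exact Finset.sum_congr rfl fun i hi => by rw [h i hi]

lemma fib_update {W : Finset ι} {u : ι} (hu : u ∈ W) (f : ι → γ) (x c : γ) :
    fib W (Function.update f u x) c + ind (f u) c = fib W f c + ind x c := by
  rw [fib_erase hu, fib_erase hu (f := f), Function.update_self]
  rw [fib_congr (f := Function.update f u x) (g := f) fun i hi => Function.update_of_ne (Finset.ne_of_mem_erase hi) _ _]
  ring

lemma fib_update_of_notMem {W : Finset ι} {u : ι} (hu : u ∉ W) (f : ι → γ) (x c : γ) :
    fib W (Function.update f u x) c = fib W f c :=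
  fib_congr (fun _ hi => Function.update_of_ne (ne_of_mem_of_not_mem hi hu) _ _) c

lemma exists_other {U : Finset ι} {f : ι → γ} (h : ∀ c, Even (fib U f c)) {u : ι} (hu : u ∈ U) :
    ∃ v ∈ U, v ≠ u ∧ f v = f u := by
  have h1 : u ∈ U.filter (fun i => f i = f u) := Finset.mem_filter.2 ⟨hu, rfl⟩
  have h2 : 0 < fib U f (f u) := Finset.card_pos.2 ⟨u, h1⟩
  have h3 : 1 < (U.filter (fun i => f i = f u)).card := by
    obtain ⟨k, hk⟩ := h (f u)
    unfold fib at hk h2
    omega
  obtain ⟨v, hv, hne⟩ := Finset.exists_mem_ne h3 u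
  rw [Finset.mem_filter] at hv
  exact ⟨v, hv.1, hne, hv.2⟩

end

/-- Package SPLIT -/
theorem split : S_SPLIT := by
  intro ι α β _ _ _ U a b
  have key : ∀ (n : ℕ) (U : Finset ι) (b : ι → β), U.card = n → (∀ c, Even (fib U a c)) → (∀ c, Even (fib U b c)) →
      ∃ Y ⊆ U, (∀ c, 2 * fib Y a c = fib U a c) ∧ (∀ c, 2 * fib Y b c = fib U b c) := by
    intro n
    induction n using Nat.strong_induction_on with
    | _ n ih =>
    intro U b hn ha hb
    rcases U.eq_empty_or_nonempty with rfl | ⟨u0, h0⟩
    · exact ⟨∅, Finset.Subset.refl _, fun c => by simp [fib], fun c => by simp [fib]⟩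
    obtain ⟨u1, h1, h10, ha1⟩ := exists_other ha h0
    set U' := (U.erase u0).erase u1 with hU'
    have h1' : u1 ∈ U.erase u0 := Finset.mem_erase.2 ⟨h10, h1⟩
    have hcard : U'.card < n := by
      have e1 : U'.card = (U.erase u0).card - 1 := Finset.card_erase_of_mem h1'
      have e2 := Finset.card_erase_of_mem h0
      have e3 : 0 < U.card := Finset.card_pos.2 ⟨u0, h0⟩
      have e4 : 0 < (U.erase u0).card := Finset.card_pos.2 ⟨u1, h1'⟩
      omega
    have hfU : ∀ {γ : Type} [DecidableEq γ] (f : ι → γ) (c : γ),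
        fib U f c = fib U' f c + ind (f u1) c + ind (f u0) c := by
      intro γ _ f c
      rw [fib_erase h0, fib_erase h1']
    have hsub : U' ⊆ U := (Finset.erase_subset _ _).trans (Finset.erase_subset _ _)
    have h0U' : u0 ∉ U' := fun h => Finset.notMem_erase u0 U (Finset.mem_of_mem_erase h)
    have h1U' : u1 ∉ U' := Finset.notMem_erase u1 _
    have ha' : ∀ c, Even (fib U' a c) := by
      intro c
      have e := ha c
      rw [hfU, ha1, add_assoc] at e
      exact (Nat.even_add.1 e).2 ⟨_, rfl⟩
    by_cases hb1 : b u1 = b u0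
    · have hb' : ∀ c, Even (fib U' b c) := by
        intro c
        have e := hb c
        rw [hfU, hb1, add_assoc] at e
        exact (Nat.even_add.1 e).2 ⟨_, rfl⟩
      obtain ⟨Y', hY', hYa, hYb⟩ := ih _ hcard U' b rfl ha' hb'
      have h0Y : u0 ∉ Y' := fun h => h0U' (hY' h)
      refine ⟨insert u0 Y', Finset.insert_subset h0 (hY'.trans hsub), fun c => ?_, fun c => ?_⟩
      · rw [fib_insert h0Y, hfU, ha1, ← hYa]; ring
      · rw [fib_insert h0Y, hfU, hb1, ← hYb]; ring
    · obtain ⟨u2, h2, h21, hb2⟩ := exists_other hb h1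
      have h20 : u2 ≠ u0 := by
        rintro rfl
        exact hb1 hb2.symm
      have h2U' : u2 ∈ U' := Finset.mem_erase.2 ⟨h21, Finset.mem_erase.2 ⟨h20, h2⟩⟩
      set b' := Function.update b u2 (b u0) with hb'def
      have hb'U : ∀ c, fib U' b' c + 2 * ind (b u1) c = fib U b c := by
        intro c
        have e1 := fib_update h2U' b (b u0) c
        rw [← hb'def, hb2] at e1
        have e2 := hfU b c
        omega
      have hb' : ∀ c, Even (fib U' b' c) := by
        intro c
        have e := hb c
        rw [← hb'U] at e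
        exact (Nat.even_add.1 e).2 ⟨ind (b u1) c, by ring⟩
      obtain ⟨Y', hY', hYa, hYb⟩ := ih _ hcard U' b' rfl ha' hb'
      have h0Y : u0 ∉ Y' := fun h => h0U' (hY' h)
      have h1Y : u1 ∉ Y' := fun h => h1U' (hY' h)
      by_cases hc2 : u2 ∈ Y'
      · refine ⟨insert u0 Y', Finset.insert_subset h0 (hY'.trans hsub), fun c => ?_, fun c => ?_⟩
        · rw [fib_insert h0Y, hfU, ha1, ← hYa]; ring
        · have e1 := fib_update hc2 b (b u0) c
          rw [← hb'def, hb2] at e1
          have e2 := hb'U c
          have e3 := hYb c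
          rw [fib_insert h0Y]
          omega
      · refine ⟨insert u1 Y', Finset.insert_subset h1 (hY'.trans hsub), fun c => ?_, fun c => ?_⟩
        · rw [fib_insert h1Y, hfU, ha1, ← hYa]; ring
        · have e1 := fib_update_of_notMem hc2 b (b u0) c
          rw [← hb'def] at e1
          have e2 := hb'U c
          have e3 := hYb c
          rw [fib_insert h1Y]
          omega
  intro ha hb
  exact key _ U b rfl ha hb

end Pool.Agent.P8H46.BS
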