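import Mathlib

/-!
# Corner-free sets with block symmetric lines: definitions and the statements of the packages
-/

set_option autoImplicit false

namespace Pool.Agent.P8H46.BS

open Finset

/-- `F_2^n` -/
abbrev V (n : ℕ) := Fin n → ZMod 2

/-- the number of the coordinates in the block `j` at which `y` differs from the centre `o` -/
def cnt {n J : ℕ} (lam : Fin n → Fin J) (o y : V n) (j : Fin J) : ℕ :=
  (univ.filter (fun i => lam i = j ∧ y i ≠ o i)).card

/-- the size of the block `j` -/
def siz {n J : ℕ} (lam : Fin n → Fin J) (j : Fin J) : ℕ := (univ.filter (fun i => lam i = j)).card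

/-- the total imbalance of `y` -/
def imb {n J : ℕ} (lam : Fin n → Fin J) (o y : V n) : ℕ :=
  ∑ j, ((siz lam j : ℤ) - 2 * (cnt lam o y j : ℤ)).natAbs

/-- `y` agrees with `v` on `F`, and in every block it differs from `o` at exactly half of the
coordinates outside `F` -/
def Half {n J : ℕ} (F : Finset (Fin n)) (v o : V n) (lam : Fin n → Fin J) (y : V n) : Prop :=
  (∀ i ∈ F, y i = v i) ∧
    ∀ j, 2 * (univ.filter (fun i => i ∉ F ∧ lam i = j ∧ y i ≠ o i)).card =
      (univ.filter (fun i => i ∉ F ∧ lam i = j)).card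

/-- `S` is symmetric with `J` blocks: there are a centre `o` and a partition of the coordinates into
`J` blocks (some may be empty) such that membership of `y` in `S` only depends on the numbers of
coordinates in the blocks at which `y` differs from `o` -/
def BlockSymmetric {n : ℕ} (J : ℕ) (S : Set (V n)) : Prop :=
  ∃ (o : V n) (lam : Fin n → Fin J), ∀ y y', (∀ j, cnt lam o y j = cnt lam o y' j) →
    (y ∈ S ↔ y' ∈ S)

/-- SPLIT: two labellings of a finite set with all fibres even can be halved simultaneously. -/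
def S_SPLIT : Prop :=
  ∀ (ι α β : Type) [DecidableEq ι] [DecidableEq α] [DecidableEq β] (U : Finset ι)
    (a : ι → α) (b : ι → β),
    (∀ c, Even (U.filter (fun i => a i = c)).card) →
    (∀ c, Even (U.filter (fun i => b i = c)).card) →
    ∃ Y ⊆ U, (∀ c, 2 * (Y.filter (fun i => a i = c)).card = (U.filter (fun i => a i = c)).card) ∧
      (∀ c, 2 * (Y.filter (fun i => b i = c)).card = (U.filter (fun i => b i = c)).card)

/-- RANK: a set of vectors any two of which are distinguished by one of `J` parities. -/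
def S_RANK : Prop :=
  ∀ (n J : ℕ) (X : Finset (V n)) (o : V n → V n) (S : V n → Fin J → Finset (Fin n)),
    (∀ x ∈ X, ∀ x' ∈ X, x ≠ x' →
      (∃ j, ∑ i ∈ S x j, (x i + x' i) ≠ 0) ∨ (∃ j, ∑ i ∈ S x' j, (o x i + o x' i) ≠ 0)) →
    X.card ≤ (∑ i ∈ range (J + 1), n.choose i) ^ 2

/-- SLICE: the slice of `v` contains an exact half slice. -/
def S_SLICE : Prop :=
  ∀ (n J : ℕ) (lam : Fin n → Fin J) (o v : V n),
    ∃ F : Finset (Fin n), F.card = imb lam o v ∧
      (∀ j, Even (univ.filter (fun i => i ∉ F ∧ lam i = j)).card) ∧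
      ∀ y, Half F v o lam y → ∀ j, cnt lam o y j = cnt lam o v j

/-- COUNT: exponential moments of the imbalance. -/
def S_COUNT : Prop :=
  ∀ (n J : ℕ) (lam : Fin n → Fin J) (o : V n) (w : ℝ), 1 ≤ w →
    ∑ y : V n, w ^ (imb lam o y) ≤ 2 ^ J * (w + w⁻¹) ^ n

/-- GATES: arbitrary functions of `k` counts of literals are symmetric with `3 ^ k` blocks. -/
def S_GATES : Prop :=
  ∀ (n k : ℕ) (T : Fin k → Finset (Fin n)) (o : Fin k → V n) (Φ : (Fin k → ℕ) → Prop),
    BlockSymmetric (3 ^ k) {y : V n | Φ (fun t => ((T t).filter (fun i => y i ≠ o t i)).card)}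

/-- LINFORM: preimages of sets under linear forms with at most `J` different coefficients. -/
def S_LINFORM : Prop :=
  ∀ (n J : ℕ) (M : Type) [AddCommMonoid M] [DecidableEq M] (w : Fin n → M) (B : Set M),
    (univ.image w).card ≤ J → BlockSymmetric J {y : V n | ∑ i, (if y i = 1 then w i else 0) ∈ B}

end Pool.Agent.P8H46.BS
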