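import Pool.Agent.P8H46.BS.Stm

/-!
# Hamming spheres in the lines of corner-free sets: statements of the packages
-/

set_option autoImplicit false

namespace Pool.Agent.P8H46.BS

open Finset

/-- the number of coordinates in `U` at which `x` and `y` differ -/
def wt {n : ℕ} (U : Finset (Fin n)) (x y : V n) : ℕ := (U.filter (fun i => x i ≠ y i)).card

/-- EQ: a point of the cube `{0,1}^U` at distance `t` of the three points `0`, `z`, `D`. -/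
def S_EQ : Prop :=
  ∀ (n : ℕ) (U : Finset (Fin n)) (z D : V n) (t : ℕ),
    Even (wt U z 0) → Even (wt U D 0) →
    wt U z 0 ≤ 2 * t → wt U D 0 ≤ 2 * t → wt U z D ≤ 2 * t →
    2 * t + wt U z 0 ≤ 2 * U.card → 2 * t + wt U D 0 ≤ 2 * U.card →
    2 * t + wt U z D ≤ 2 * U.card →
    ∃ Y ⊆ U, Y.card = t ∧ 2 * (Y.filter (fun i => z i ≠ 0)).card = wt U z 0 ∧
      2 * (Y.filter (fun i => D i ≠ 0)).card = wt U D 0

/-- PLOT: Plotkin's bound. -/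
def S_PLOT : Prop :=
  ∀ (n : ℕ) (U : Finset (Fin n)) (ι : Type) (X : Finset ι) (g : ι → V n) (ε : ℝ), 0 < ε →
    (∀ x ∈ X, ∀ y ∈ X, x ≠ y → (1 / 2 + 2 * ε) * (U.card : ℝ) < wt U (g x) (g y)) →
    (X.card : ℝ) ≤ 1 + 1 / (4 * ε)

/-- RAMSEY: three colours. -/
def S_RAMSEY : Prop :=
  ∀ (ι : Type) (X : Finset ι) (c : ι → ι → Fin 3) (M : ℕ), (∀ x y, c x y = c y x) →
    3 ^ (3 * M) ≤ X.card →
    ∃ (k : Fin 3) (S : Finset ι), S ⊆ X ∧ S.card = M + 1 ∧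
      ∀ x ∈ S, ∀ y ∈ S, x ≠ y → c x y = k

/-- GV: large codes (Gilbert, Varshamov). -/
def S_GV : Prop :=
  ∀ α : ℝ, 0 ≤ α → α < 1 / 2 → ∃ ρ : ℝ, 1 < ρ ∧ ∀ n : ℕ, ∃ C : Finset (V n),
    ρ ^ n ≤ (C.card : ℝ) ∧ ∀ x ∈ C, ∀ y ∈ C, x ≠ y → α * (n : ℝ) < wt univ x y

end Pool.Agent.P8H46.BS
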