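import Pool.Agent.P8H46.BS.Rad

set_option autoImplicit false

namespace Pool.Agent.P8H46.BS

open Finset

variable {n : ℕ}

/-- points of a subcube at distance in a given set of distances from the centre -/
def SubRad (S : Set (V n)) : Prop :=
  ∃ (F : Finset (Fin n)) (v o : V n) (D : Set ℕ),
    S = {y | (∀ i ∈ F, y i = v i) ∧ wt (univ.filter (fun i => i ∉ F)) y o ∈ D}

lemma card_subsphere (F : Finset (Fin n)) (v o : V n) (r : ℕ) :
    (univ.filter (fun y : V n => (∀ i ∈ F, y i = v i) ∧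
      wt (univ.filter (fun i => i ∉ F)) y o = r)).card ≤ (n - F.card).choose r := by
  classical
  have h : (powersetCard r (univ.filter (fun i => i ∉ F))).card = (n - F.card).choose r := by
    rw [card_powersetCard]
    have e : univ.filter (fun i => i ∉ F) = Fᶜ := by
      ext i
      simp
    rw [e, card_compl, Fintype.card_fin]
  rw [← h]
  refine card_le_card_of_injOn (fun y => (univ.filter (fun i => i ∉ F)).filter (fun i => y i ≠ o i))
    ?_ ?_
  · intro y hy
    simp only [coe_filter, mem_univ, true_and, Set.mem_ofPred_eq] at hy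
    rw [mem_coe, mem_powersetCard]
    exact ⟨filter_subset _ _, hy.2⟩
  · intro y hy y' hy' hyy
    simp only [coe_filter, mem_univ, true_and, Set.mem_ofPred_eq] at hy hy'
    funext i
    by_cases hi : i ∈ F
    · rw [hy.1 i hi, hy'.1 i hi]
    · have h1 : i ∈ (univ.filter (fun i => i ∉ F)).filter (fun i => y i ≠ o i) ↔
          i ∈ (univ.filter (fun i => i ∉ F)).filter (fun i => y' i ≠ o i) := by
        simp only at hyy
        rw [hyy]
      simp only [mem_filter, mem_univ, true_and, hi, not_false_eq_true] at h1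
      have : ∀ a b c : ZMod 2, (a ≠ c ↔ b ≠ c) → a = b := by decide
      exact this _ _ _ h1

lemma card_subcube (F : Finset (Fin n)) (v : V n) :
    (univ.filter (fun y : V n => ∀ i ∈ F, y i = v i)).card ≤ 2 ^ (n - F.card) := by
  classical
  have h : (univ.filter (fun i => i ∉ F)).powerset.card = 2 ^ (n - F.card) := by
    rw [card_powerset]
    have e : univ.filter (fun i => i ∉ F) = Fᶜ := by
      ext i
      simp
    rw [e, card_compl, Fintype.card_fin]
  rw [← h]
  refine card_le_card_of_injOn (fun y => (univ.filter (fun i => i ∉ F)).filter (fun i => y i ≠ 0))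
    ?_ ?_
  · intro y hy
    rw [mem_coe, mem_powerset]
    exact filter_subset _ _
  · intro y hy y' hy' hyy
    simp only [coe_filter, mem_univ, true_and, Set.mem_ofPred_eq] at hy hy'
    funext i
    by_cases hi : i ∈ F
    · rw [hy i hi, hy' i hi]
    · have h1 : i ∈ (univ.filter (fun i => i ∉ F)).filter (fun i => y i ≠ 0) ↔
          i ∈ (univ.filter (fun i => i ∉ F)).filter (fun i => y' i ≠ 0) := by
        simp only at hyy
        rw [hyy]
      simp only [mem_filter, mem_univ, true_and, hi, not_false_eq_true] at h1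
      have : ∀ a b c : ZMod 2, (a ≠ c ↔ b ≠ c) → a = b := by decide
      exact this _ _ _ h1

/-- the number of near rows -/
lemma near2 (hEQ : S_EQ) (hPL : S_PLOT) (hRA : S_RAMSEY) (hTR : S_TRICK) {A : Finset (V n × V n)}
    (hA : CF A) (X : Finset (V n))
    (hX : ∀ x ∈ X, ∃ (F : Finset (Fin n)) (v o : V n) (t : ℕ), 36 * F.card ≤ 5 * n ∧
      11 * (n - F.card) ≤ 40 * t ∧ 40 * t ≤ 29 * (n - F.card) ∧
      ∀ y, (∀ i ∈ F, y i = v i) → wt (univ.filter (fun i => i ∉ F)) y o = t → (x, y) ∈ A) :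
    (X.card : ℝ) ≤ (4 * 27 ^ 11) * ((n : ℝ) + 1) * (1.814 : ℝ) ^ n := by
  classical
  set Y : ℕ → ℕ → Finset (V n) := fun k t => univ.filter (fun x => ∃ (F : Finset (Fin n)) (v o : V n),
    F.card = k ∧ ∀ y, (∀ i ∈ F, y i = v i) →
      wt (univ.filter (fun i => i ∉ F)) y o = t → (x, y) ∈ A) with hY
  set m := 5 * n / 36 with hm
  have hsub : X ⊆ (range (m + 1)).biUnion (fun k => ((range (n + 1)).filter
      (fun t => 11 * (n - k) ≤ 40 * t ∧ 40 * t ≤ 29 * (n - k))).biUnion (fun t => Y k t)) := by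
    intro x hx
    obtain ⟨F, v, o, t, h1, h2, h3, h4⟩ := hX x hx
    rw [mem_biUnion]
    refine ⟨F.card, ?_, ?_⟩
    · rw [mem_range, Nat.lt_succ_iff, hm, Nat.le_div_iff_mul_le (by norm_num), mul_comm]
      exact h1
    · rw [mem_biUnion]
      refine ⟨t, ?_, ?_⟩
      · rw [mem_filter, mem_range]
        refine ⟨by omega, h2, h3⟩
      · simp only [hY, mem_filter, mem_univ, true_and]
        exact ⟨F, v, o, rfl, h4⟩
  have hcls : ∀ k ∈ range (m + 1), ∀ t ∈ (range (n + 1)).filter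
      (fun t => 11 * (n - k) ≤ 40 * t ∧ 40 * t ≤ 29 * (n - k)),
      (Y k t).card ≤ n.choose k * 4 ^ k * 4 * 27 ^ 11 := by
    intro k hk t ht
    rw [mem_range, Nat.lt_succ_iff, hm, Nat.le_div_iff_mul_le (by norm_num)] at hk
    rw [mem_filter] at ht
    have hkn : k ≤ n := by omega
    have e1 : (11 : ℝ) * ((n : ℝ) - k) ≤ 40 * t := by
      rw [← Nat.cast_sub hkn]
      exact_mod_cast ht.2.1
    have e2 : (40 : ℝ) * t ≤ 29 * ((n : ℝ) - k) := by
      rw [← Nat.cast_sub hkn]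
      exact_mod_cast ht.2.2
    have h1 := mid_rows hEQ hPL hRA hA (1 / 40) (by norm_num) k t hkn (by linarith) (by linarith)
      (Y k t) (fun x hx => by simpa [hY] using hx)
    have e3 : ⌊(1 : ℝ) / (4 * (1 / 40))⌋₊ = 10 := by
      have : (1 : ℝ) / (4 * (1 / 40)) = (10 : ℕ) := by norm_num
      rw [this, Nat.floor_natCast]
    rw [e3] at h1
    exact h1
  have hcard : X.card ≤ ∑ k ∈ range (m + 1), (n + 1) * (n.choose k * 4 ^ k * 4 * 27 ^ 11) := by
    refine (card_le_card hsub).trans (card_biUnion_le.trans (sum_le_sum fun k hk => ?_))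
    refine card_biUnion_le.trans ((sum_le_sum fun t ht => hcls k hk t ht).trans ?_)
    rw [sum_const, smul_eq_mul]
    refine Nat.mul_le_mul_right _ ?_
    refine (card_filter_le _ _).trans ?_
    rw [card_range]
  have h2 := hTR n m 5 36 4 1.0933 (by norm_num) (by norm_num) (Nat.mul_div_le _ _)
  have h3 : (1.0933 : ℝ) ^ 5 * (1 + 4 * (1.0933⁻¹) ^ 36) ≤ 1.814 := by norm_num
  have h4 : ∑ i ∈ range (m + 1), (n.choose i : ℝ) * 4 ^ i ≤ (1.814 : ℝ) ^ n :=
    h2.trans (pow_le_pow_left₀ (by positivity) h3 n)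
  have h5 : (X.card : ℝ) ≤
      ((∑ k ∈ range (m + 1), (n + 1) * (n.choose k * 4 ^ k * 4 * 27 ^ 11) : ℕ) : ℝ) := by
    exact_mod_cast hcard
  refine h5.trans ?_
  simp only [Nat.cast_sum, Nat.cast_mul, Nat.cast_add, Nat.cast_pow, Nat.cast_ofNat, Nat.cast_one]
  calc ∑ k ∈ range (m + 1), ((n : ℝ) + 1) * ((n.choose k : ℝ) * 4 ^ k * 4 * 27 ^ 11) =
        (4 * 27 ^ 11) * ((n : ℝ) + 1) * ∑ k ∈ range (m + 1), (n.choose k : ℝ) * 4 ^ k := by
        rw [mul_sum]
        refine sum_congr rfl fun k _ => ?_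
        ring
    _ ≤ _ := mul_le_mul_of_nonneg_left h4 (by positivity)

lemma choose_low (hTR : S_TRICK) (m : ℕ) : ∑ r ∈ (range (m + 1)).filter (fun r => 40 * r ≤ 11 * m),
    (m.choose r : ℝ) ≤ (1.801 : ℝ) ^ m := by
  classical
  have h1 := hTR m (11 * m / 40) 11 40 1 1.0245 (by norm_num) (by norm_num) (Nat.mul_div_le _ _)
  simp only [one_pow, mul_one, one_mul] at h1
  have h2 : (1.0245 : ℝ) ^ 11 * (1 + (1.0245⁻¹) ^ 40) ≤ 1.801 := by norm_num
  refine le_trans ?_ (h1.trans (pow_le_pow_left₀ (by positivity) h2 m))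
  refine sum_le_sum_of_subset_of_nonneg ?_ fun _ _ _ => by positivity
  intro r hr
  rw [mem_filter] at hr
  rw [mem_range, Nat.lt_succ_iff, Nat.le_div_iff_mul_le (by norm_num), mul_comm]
  exact hr.2

/-- the number of far points of a piece -/
lemma far2 (hTR : S_TRICK) (F : Finset (Fin n)) (v o : V n) :
    ((univ.filter (fun y : V n => (∀ i ∈ F, y i = v i) ∧ ¬ (36 * F.card ≤ 5 * n ∧
      11 * (n - F.card) ≤ 40 * wt (univ.filter (fun i => i ∉ F)) y o ∧
      40 * wt (univ.filter (fun i => i ∉ F)) y o ≤ 29 * (n - F.card)))).card : ℝ) ≤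
      2 * (1.8165 : ℝ) ^ n := by
  classical
  set m := n - F.card with hm
  have hFn : F.card ≤ n := by
    have := card_le_univ F
    rwa [Fintype.card_fin] at this
  by_cases hF : 36 * F.card ≤ 5 * n
  · set U := univ.filter (fun i : Fin n => i ∉ F) with hU
    have hUc : U.card = m := by
      have e : U = Fᶜ := by
        ext i
        simp [hU]
      rw [e, card_compl, Fintype.card_fin]
    set Q := (range (m + 1)).filter (fun r => 40 * r ≤ 11 * m) with hQ
    set Q' := (range (m + 1)).filter (fun r => 29 * m ≤ 40 * r) with hQ'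
    have hsub : univ.filter (fun y : V n => (∀ i ∈ F, y i = v i) ∧ ¬ (36 * F.card ≤ 5 * n ∧
        11 * m ≤ 40 * wt U y o ∧ 40 * wt U y o ≤ 29 * m)) ⊆
        (Q ∪ Q').biUnion (fun r => univ.filter (fun y : V n => (∀ i ∈ F, y i = v i) ∧
          wt U y o = r)) := by
      intro y hy
      rw [mem_filter] at hy
      rw [mem_biUnion]
      have hw : wt U y o ≤ m := by
        rw [← hUc]
        exact card_filter_le _ _
      refine ⟨wt U y o, ?_, ?_⟩
      · rw [mem_union, hQ, hQ', mem_filter, mem_filter, mem_range]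
        have := hy.2.2
        omega
      · rw [mem_filter]
        exact ⟨mem_univ _, hy.2.1, rfl⟩
    have h1 : ((univ.filter (fun y : V n => (∀ i ∈ F, y i = v i) ∧ ¬ (36 * F.card ≤ 5 * n ∧
        11 * m ≤ 40 * wt U y o ∧ 40 * wt U y o ≤ 29 * m))).card : ℝ) ≤
        ∑ r ∈ Q ∪ Q', (m.choose r : ℝ) := by
      have : (univ.filter (fun y : V n => (∀ i ∈ F, y i = v i) ∧ ¬ (36 * F.card ≤ 5 * n ∧
        11 * m ≤ 40 * wt U y o ∧ 40 * wt U y o ≤ 29 * m))).card ≤ ∑ r ∈ Q ∪ Q', m.choose r :=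
        (card_le_card hsub).trans (card_biUnion_le.trans (sum_le_sum fun r _ =>
          card_subsphere F v o r))
      exact_mod_cast this
    have h2 : ∑ r ∈ Q ∪ Q', (m.choose r : ℝ) ≤ ∑ r ∈ Q, (m.choose r : ℝ) +
        ∑ r ∈ Q', (m.choose r : ℝ) := by
      rw [← sum_union_inter]
      have : 0 ≤ ∑ r ∈ Q ∩ Q', (m.choose r : ℝ) := sum_nonneg fun r _ => by positivity
      linarith
    have h3 := choose_low hTR m
    have h4 : ∑ r ∈ Q', (m.choose r : ℝ) ≤ ∑ r ∈ Q, (m.choose r : ℝ) := by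
      rw [hQ, hQ', sum_filter, sum_filter, ← sum_range_reflect]
      refine sum_le_sum fun r hr => ?_
      rw [mem_range] at hr
      have e : m + 1 - 1 - r = m - r := by omega
      rw [e]
      by_cases hc : 29 * m ≤ 40 * (m - r)
      · rw [if_pos hc, if_pos (by omega), Nat.choose_symm (by omega : r ≤ m)]
      · rw [if_neg hc]
        split_ifs
        · positivity
        · exact le_rfl
    have h5 : (1.801 : ℝ) ^ m ≤ (1.8165 : ℝ) ^ n :=
      (pow_le_pow_left₀ (by norm_num) (by norm_num) m).trans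
        (pow_le_pow_right₀ (by norm_num) (by omega))
    rw [← hQ] at h3
    linarith
  · have h1 : ((univ.filter (fun y : V n => (∀ i ∈ F, y i = v i) ∧ ¬ (36 * F.card ≤ 5 * n ∧
        11 * m ≤ 40 * wt (univ.filter (fun i => i ∉ F)) y o ∧
        40 * wt (univ.filter (fun i => i ∉ F)) y o ≤ 29 * m))).card : ℝ) ≤ 2 ^ m := by
      have : (univ.filter (fun y : V n => (∀ i ∈ F, y i = v i) ∧ ¬ (36 * F.card ≤ 5 * n ∧
        11 * m ≤ 40 * wt (univ.filter (fun i => i ∉ F)) y o ∧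
        40 * wt (univ.filter (fun i => i ∉ F)) y o ≤ 29 * m))).card ≤ 2 ^ m := by
        refine le_trans (card_le_card ?_) (card_subcube F v)
        intro y hy
        rw [mem_filter] at hy ⊢
        exact ⟨mem_univ _, hy.2.1⟩
      exact_mod_cast this
    have h2 : (2 : ℝ) ^ m ≤ (1.8165 : ℝ) ^ n := by
      have h3 : ((2 : ℝ) ^ m) ^ 36 ≤ ((1.8165 : ℝ) ^ n) ^ 36 := by
        rw [← pow_mul, ← pow_mul, mul_comm n 36, pow_mul (1.8165 : ℝ)]
        have h4 : (2 : ℝ) ^ (m * 36) ≤ 2 ^ (31 * n) := pow_le_pow_right₀ (by norm_num) (by omega)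
        refine h4.trans ?_
        rw [pow_mul]
        exact pow_le_pow_left₀ (by norm_num) (by norm_num) n
      exact le_of_pow_le_pow_left₀ (by norm_num) (by positivity) h3
    have h6 : (0 : ℝ) ≤ (1.8165 : ℝ) ^ n := by positivity
    linarith

lemma absorb2 (K : ℝ) : ∃ C : ℝ, 0 ≤ C ∧ ∀ n : ℕ, K * ((n : ℝ) + 1) * (3.628 : ℝ) ^ n ≤
    C * (3.64 : ℝ) ^ n := by
  have h := tendsto_pow_const_mul_const_pow_of_abs_lt_one 1
    (r := (3.628 / 3.64 : ℝ)) (by rw [abs_of_pos (by norm_num)]; norm_num)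
  obtain ⟨c, hc⟩ := h.bddAbove_range
  rw [mem_upperBounds] at hc
  have hc0 : 0 ≤ c := by
    have := hc _ ⟨0, rfl⟩
    simpa using this
  refine ⟨|K| * c * (3.64 / 3.628), by positivity, fun n => ?_⟩
  have h1 := hc _ ⟨n + 1, rfl⟩
  simp only [Nat.cast_add, Nat.cast_one, pow_one] at h1
  have h2 : ((n : ℝ) + 1) * (3.628 : ℝ) ^ n = (((n : ℝ) + 1) * (3.628 / 3.64) ^ (n + 1)) *
      ((3.64 / 3.628) * 3.64 ^ n) := by
    rw [pow_succ (3.628 / 3.64 : ℝ) n, div_pow]
    field_simp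
  calc K * ((n : ℝ) + 1) * (3.628 : ℝ) ^ n ≤ |K| * (((n : ℝ) + 1) * (3.628 : ℝ) ^ n) := by
        rw [mul_assoc]
        exact mul_le_mul_of_nonneg_right (le_abs_self K) (by positivity)
    _ = |K| * ((((n : ℝ) + 1) * (3.628 / 3.64) ^ (n + 1)) *
      ((3.64 / 3.628) * 3.64 ^ n)) := by rw [h2]
    _ ≤ |K| * (c * ((3.64 / 3.628) * 3.64 ^ n)) := by
        refine mul_le_mul_of_nonneg_left (mul_le_mul_of_nonneg_right h1 (by positivity))
          (abs_nonneg _)
    _ = _ := by ring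

theorem sub_main (hEQ : S_EQ) (hPL : S_PLOT) (hRA : S_RAMSEY) (hTR : S_TRICK) :
    ∃ C : ℝ, ∀ (n T : ℕ) (A : Finset (V n × V n)), CF A → ∀ P : V n → Fin T → Set (V n),
      (∀ x t, SubRad (P x t)) → (∀ x y, (x, y) ∈ A ↔ ∃ t, y ∈ P x t) →
      (A.card : ℝ) ≤ C * T * (3.64 : ℝ) ^ n := by
  classical
  obtain ⟨C, hC0, hC⟩ := absorb2 (4 * 27 ^ 11)
  refine ⟨C + 2, fun n T A hA P hP h => ?_⟩
  rcases Nat.eq_zero_or_pos T with hT | hT
  · have : A = ∅ := by
      rw [eq_empty_iff_forall_notMem]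
      rintro ⟨x, y⟩ hxy
      obtain ⟨t, -⟩ := (h x y).1 hxy
      rw [hT] at t
      exact t.elim0
    rw [this, hT]
    simp
  set R : V n → Prop := fun x => ∃ (F : Finset (Fin n)) (v o : V n) (t : ℕ),
    36 * F.card ≤ 5 * n ∧ 11 * (n - F.card) ≤ 40 * t ∧ 40 * t ≤ 29 * (n - F.card) ∧
      ∀ y, (∀ i ∈ F, y i = v i) → wt (univ.filter (fun i => i ∉ F)) y o = t → (x, y) ∈ A with hR
  set N : Finset (V n) := univ.filter (fun x => R x) with hN
  have hNc := near2 hEQ hPL hRA hTR hA N (fun x hx => (mem_filter.1 hx).2)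
  have hV : (Fintype.card (V n) : ℝ) = 2 ^ n := by simp [ZMod.card]
  have hfar : ∀ x, x ∉ N → ((univ.filter (fun y => (x, y) ∈ A)).card : ℝ) ≤
      T * (2 * (1.8165 : ℝ) ^ n) := by
    intro x hx
    choose F v o D hD using hP x
    have hsub : univ.filter (fun y => (x, y) ∈ A) ⊆ (univ : Finset (Fin T)).biUnion
        (fun t => univ.filter (fun y : V n => (∀ i ∈ F t, y i = v t i) ∧
          ¬ (36 * (F t).card ≤ 5 * n ∧
          11 * (n - (F t).card) ≤ 40 * wt (univ.filter (fun i => i ∉ F t)) y (o t) ∧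
          40 * wt (univ.filter (fun i => i ∉ F t)) y (o t) ≤ 29 * (n - (F t).card)))) := by
      intro y hy
      have hy' : (x, y) ∈ A := (mem_filter.1 hy).2
      obtain ⟨t, ht⟩ := (h x y).1 hy'
      rw [mem_biUnion]
      have ht' := ht
      rw [hD t] at ht'
      refine ⟨t, mem_univ _, mem_filter.2 ⟨mem_univ _, ht'.1, ?_⟩⟩
      rintro ⟨g1, g2, g3⟩
      apply hx
      rw [hN, mem_filter]
      refine ⟨mem_univ _, F t, v t, o t, _, g1, g2, g3, fun y' hy1 hy2 => ?_⟩
      rw [h x y']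
      refine ⟨t, ?_⟩
      rw [hD t]
      refine ⟨hy1, ?_⟩
      rw [hy2]
      exact ht'.2
    have h1 : ((univ.filter (fun y => (x, y) ∈ A)).card : ℝ) ≤ ∑ t : Fin T,
        ((univ.filter (fun y : V n => (∀ i ∈ F t, y i = v t i) ∧
          ¬ (36 * (F t).card ≤ 5 * n ∧
          11 * (n - (F t).card) ≤ 40 * wt (univ.filter (fun i => i ∉ F t)) y (o t) ∧
          40 * wt (univ.filter (fun i => i ∉ F t)) y (o t) ≤ 29 * (n - (F t).card)))).card : ℝ) := by
      exact_mod_cast (card_le_card hsub).trans card_biUnion_le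
    refine h1.trans ((sum_le_sum fun t _ => far2 hTR (F t) (v t) (o t)).trans ?_)
    rw [sum_const, card_univ, Fintype.card_fin, nsmul_eq_mul]
  have hall : ∀ x, ((univ.filter (fun y => (x, y) ∈ A)).card : ℝ) ≤
      (if x ∈ N then (2 : ℝ) ^ n else 0) + T * (2 * (1.8165 : ℝ) ^ n) := by
    intro x
    by_cases hx : x ∈ N
    · rw [if_pos hx]
      have h1 : ((univ.filter (fun y => (x, y) ∈ A)).card : ℝ) ≤ 2 ^ n := by
        rw [← hV]
        exact_mod_cast card_le_univ _
      have h2 : (0 : ℝ) ≤ T * (2 * (1.8165 : ℝ) ^ n) := by positivity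
      linarith
    · rw [if_neg hx, zero_add]
      exact hfar x hx
  rw [card_rows A]
  refine (sum_le_sum fun x _ => hall x).trans ?_
  rw [sum_add_distrib, sum_const, card_univ, nsmul_eq_mul, hV, sum_ite_mem, univ_inter, sum_const,
    nsmul_eq_mul]
  have hT1 : (1 : ℝ) ≤ T := by exact_mod_cast hT
  have h7 : (N.card : ℝ) * 2 ^ n ≤ T * (C * (3.64 : ℝ) ^ n) := by
    calc (N.card : ℝ) * 2 ^ n ≤ ((4 * 27 ^ 11) * ((n : ℝ) + 1) * (1.814 : ℝ) ^ n) * 2 ^ n :=
          mul_le_mul_of_nonneg_right hNc (by positivity)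
      _ = (4 * 27 ^ 11) * ((n : ℝ) + 1) * (1.814 * 2 : ℝ) ^ n := by rw [mul_pow]; ring
      _ = (4 * 27 ^ 11) * ((n : ℝ) + 1) * (3.628 : ℝ) ^ n := by norm_num
      _ ≤ C * (3.64 : ℝ) ^ n := hC n
      _ ≤ _ := le_mul_of_one_le_left (by positivity) hT1
  have h8 : (2 : ℝ) ^ n * (T * (2 * (1.8165 : ℝ) ^ n)) ≤ T * (2 * (3.64 : ℝ) ^ n) := by
    calc (2 : ℝ) ^ n * (T * (2 * (1.8165 : ℝ) ^ n)) = T * (2 * (2 * 1.8165 : ℝ) ^ n) := by
          rw [mul_pow]
          ring
      _ ≤ _ := by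
          refine mul_le_mul_of_nonneg_left (mul_le_mul_of_nonneg_left
            (pow_le_pow_left₀ (by norm_num) (by norm_num) n) (by norm_num)) (by positivity)
  calc _ ≤ T * (C * (3.64 : ℝ) ^ n) + T * (2 * (3.64 : ℝ) ^ n) := add_le_add h7 h8
    _ = _ := by ring

end Pool.Agent.P8H46.BS
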