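import Pool.Agent.P8H46.BS.Stm3

/-!
# Package TRICK of the project BS
-/

set_option autoImplicit false

namespace Pool.Agent.P8H46.BS

open Finset

theorem trick : S_TRICK := by
  intro n m p q a u ha hu hqm
  have hu0 : 0 < u := lt_of_lt_of_le one_pos hu
  set F : ℕ → ℝ := fun i => u ^ (p * n) * ((a * (u⁻¹) ^ q) ^ i * (n.choose i : ℝ)) with hF
  have hFn : ∀ i, 0 ≤ F i := by
    intro i
    rw [hF]
    positivity
  have h1 : ∀ i ∈ range (m + 1), (n.choose i : ℝ) * a ^ i ≤ F i := by
    intro i hi
    have him : i ≤ m := Nat.lt_succ_iff.mp (mem_range.mp hi)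
    have hle : q * i ≤ p * n := (Nat.mul_le_mul_left q him).trans hqm
    have e : F i = (u ^ (p * n) * (u⁻¹) ^ (q * i)) * ((n.choose i : ℝ) * a ^ i) := by
      rw [hF]
      simp only
      rw [mul_pow, ← pow_mul]
      ring
    rw [e]
    have h2 : (1 : ℝ) ≤ u ^ (p * n) * (u⁻¹) ^ (q * i) := by
      obtain ⟨k, hk⟩ := Nat.exists_eq_add_of_le hle
      rw [hk, pow_add, inv_pow, mul_comm (u ^ (q * i)), mul_assoc, mul_inv_cancel₀ (by positivity),
        mul_one]
      exact one_le_pow₀ hu
    exact le_mul_of_one_le_left (by positivity) h2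
  have h3 : ∑ i ∈ range (m + 1), F i ≤ ∑ i ∈ range (n + 1), F i := by
    have h4 : ∑ i ∈ range (n + 1), F i = ∑ i ∈ range (max m n + 1), F i := by
      apply sum_subset
      · intro i hi
        rw [mem_range] at hi ⊢
        omega
      · intro i _ hi
        rw [mem_range, not_lt] at hi
        rw [hF]
        simp only
        rw [Nat.choose_eq_zero_of_lt (by omega)]
        simp
    rw [h4]
    apply sum_le_sum_of_subset_of_nonneg
    · intro i hi
      rw [mem_range] at hi ⊢
      omega
    · intro i _ _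
      exact hFn i
  have h5 : ∑ i ∈ range (n + 1), F i = (u ^ p * (1 + a * (u⁻¹) ^ q)) ^ n := by
    rw [mul_pow, ← pow_mul, add_comm 1, add_pow, hF]
    simp only
    rw [← mul_sum]
    congr 1
    apply sum_congr rfl
    intro i _
    rw [one_pow, mul_one]
  rw [← h5]
  exact (sum_le_sum h1).trans h3

end Pool.Agent.P8H46.BS
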